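import Pool.Agent.H467.HJ.Pre
import Pool.Agent.H467.MR.Fint

/-!
# The choice of the auxiliary primes for one curve

Project HJ (helper467).
-/

set_option autoImplicit false
set_option linter.all false

open Polynomial IsDedekindDomain
open Pool.Agent.N352.PJ
open Pool.Agent.N874.PP (nm Ov Ev Sq1 U0)
open scoped Classical

namespace Pool.Agent.H467.HJ

open Pool.Agent.H859.PJ Pool.Agent.H467.MR

theorem ns_congrH {k : Type} [Field k] {Q R R' : k[X]} {p : k[X][X]} (h : Q ∣ R' - R)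
    (hp : ∀ z : k[X], ¬ Q ∣ z ^ 2 - p.eval R) (z : k[X]) : ¬ Q ∣ z ^ 2 - p.eval R' := by
  intro h0
  apply hp z
  have h1 : Q ∣ p.eval R' - p.eval R := h.trans (sub_dvd_eval_sub _ _ _)
  have e : z ^ 2 - p.eval R = (z ^ 2 - p.eval R') + (p.eval R' - p.eval R) := by ring
  rw [e]
  exact dvd_add h0 h1

section sep

variable {k K L O : Type} [Field k] [Field K] [Algebra k[X] K] [IsFractionRing k[X] K]
  [Field L] [Algebra K L] [Algebra k[X] L] [IsScalarTower k[X] K L] [CommRing O]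
  [IsDedekindDomain O] [Algebra O L] [IsFractionRing O L] [Algebra k[X] O]
  [IsScalarTower k[X] O L] [IsIntegralClosure O k[X] L] {g : ℕ} {f : k[X][X]} {θ : L}

/-- Reduction at a prime over `Q` at which `θ` is congruent to `R₀`. -/
theorem not_sq1 (h0 : S_INT) (hG : IsGen g K f θ) (hsq : Squarefree (dsc g f)) {Q R₀ : k[X]}
    (hQ : Irreducible Q) {𝔓 : HeightOneSpectrum O} (hov : Ov Q 𝔓)
    (hv : 𝔓.valuation L (θ - algebraMap k[X] L R₀) < 1) {p : k[X][X]} {y α : L} (hy : y ≠ 0)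
    (hα : α = eval₂ (algebraMap k[X] L) θ p * y ^ 2)
    (hz : ∀ z : k[X], ¬ Q ∣ z ^ 2 - p.eval R₀) : ¬ Sq1 𝔓 α := by
  rw [hα, Pool.Agent.N622.PJ.sq1_mul_sq hy]
  obtain ⟨t, ht⟩ := Pool.Agent.N622.PJ.theta_ex (O := O) hG
  have hmk : Ideal.Quotient.mk 𝔓.asIdeal t =
      Ideal.Quotient.mk 𝔓.asIdeal (algebraMap k[X] O R₀) := by
    rw [Ideal.Quotient.eq, Pool.Agent.N622.PJ.mem_iff_val (L := L), map_sub, ht,
      ← IsScalarTower.algebraMap_apply k[X] O L]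
    exact hv
  have hpol : ∀ q : k[X][X], Ideal.Quotient.mk 𝔓.asIdeal (eval₂ (algebraMap k[X] O) t q) =
      Ideal.Quotient.mk 𝔓.asIdeal (algebraMap k[X] O (q.eval R₀)) := by
    intro q
    rw [hom_eval₂, hmk, ← hom_eval₂, eval₂_at_apply]
  have heL : ∀ q : k[X][X], algebraMap O L (eval₂ (algebraMap k[X] O) t q) =
      eval₂ (algebraMap k[X] L) θ q := by
    intro q
    rw [hom_eval₂, ← IsScalarTower.algebraMap_eq, ht]
  rw [← heL]
  have hu : eval₂ (algebraMap k[X] O) t p ∉ 𝔓.asIdeal := by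
    intro h1
    rw [← Ideal.Quotient.eq_zero_iff_mem, hpol, Ideal.Quotient.eq_zero_iff_mem,
      Pool.Agent.N622.PJ.ov_iff hQ hov] at h1
    apply hz 0
    have e : (0 : k[X]) ^ 2 - p.eval R₀ = -(p.eval R₀) := by ring
    rw [e]
    exact (dvd_neg).2 h1
  rw [← Pool.Agent.N622.PJ.isSquare_iff hu]
  rintro ⟨r, hr⟩
  obtain ⟨ρ, rfl⟩ := Ideal.Quotient.mk_surjective r
  obtain ⟨v, hv'⟩ := (h0 g k K L f θ hG hsq (algebraMap O L ρ)).1
    (IsIntegralClosure.isIntegral_iff (A := O) |>.2 ⟨ρ, rfl⟩)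
  unfold Crd at hv'
  have hρ : ρ = eval₂ (algebraMap k[X] O) t (∑ i : Fin (2 * g + 1), C (v i) * X ^ (i : ℕ)) := by
    apply IsFractionRing.injective O L
    rw [heL, hv', eval₂_finset_sum]
    refine Finset.sum_congr rfl fun i _ => ?_
    rw [eval₂_mul, eval₂_C, eval₂_pow, eval₂_X]
  rw [hρ, hpol, hpol, ← map_mul, ← map_mul, Ideal.Quotient.eq, ← map_sub,
    Pool.Agent.N622.PJ.ov_iff hQ hov] at hr
  apply hz ((∑ i : Fin (2 * g + 1), C (v i) * X ^ (i : ℕ) : k[X][X]).eval R₀)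
  rw [← dvd_neg]
  convert hr using 1
  ring

end sep

section chs

variable {k K L : Type} [Field k] [Field K] [Algebra k[X] K] [IsFractionRing k[X] K]
  [Field L] [Algebra K L] [Algebra k[X] L] [IsScalarTower k[X] K L]

/-- The auxiliary primes. -/
theorem exists_SH [Finite k] (hFINT : S_FINT) (hSTQ : S_STQH) {m : ℕ} {g : Fin m → ℕ}
    {f : Fin m → k[X][X]} (h2 : (2 : k) ≠ 0) (hg : ∀ i, 1 ≤ g i) (hmon : ∀ i, (f i).Monic)
    (hdeg : ∀ i, (f i).natDegree = 2 * g i + 1) (hdsc : ∀ i, dsc (g i) (f i) ≠ 0)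
    (hsepf : ∀ i, ((f i).map (algebraMap k[X] K)).Separable) (hfull : Full K g f) (i : Fin m)
    {θ : L} (h : IsGen (g i) K (f i) θ)
    (O : Type) [CommRing O] [IsDedekindDomain O] [Algebra O L] [IsFractionRing O L]
    [Algebra k[X] O] [IsScalarTower k[X] O L] [IsIntegralClosure O k[X] L]
    [Algebra.IsSeparable K L] :
    ∃ (S : Finset k[X]) (R : k[X] → k[X]) (s : k[X] → k[X][X]),
      (∀ Q ∈ S, Q.Monic ∧ Irreducible Q ∧ (s Q).Monic ∧ (s Q).natDegree = 2 * g i ∧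
        Irm (s Q) Q ∧ Cg Q (f i) ((X - C (R Q)) * s Q) ∧ ∀ j, j ≠ i → Irm (f j) Q) ∧
      ∀ α : L, α ≠ 0 → IsSquare (Algebra.norm K α) → (∀ 𝔓 : HeightOneSpectrum O, Ev 𝔓 α) →
        ¬ IsSquare α →
      ∃ Q ∈ S, ∃ (p : k[X][X]) (y : L), y ≠ 0 ∧ (∀ z : k[X], ¬ Q ∣ z ^ 2 - p.eval (R Q)) ∧
        α = eval₂ (algebraMap k[X] L) θ p * y ^ 2 := by
  haveI : FiniteDimensional K L := Module.finite_of_finrank_pos (by rw [h.rank]; omega)
  obtain ⟨Rr, hR0, hRr⟩ := hFINT k K L O ∅ (by simp)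
  let T : Finset L := Rr.filter fun ρ => ρ ≠ 0 ∧ IsSquare (Algebra.norm K ρ) ∧ ¬ IsSquare ρ
  have key : ∀ ρ : T, ∃ (Q : k[X]) (R0 : k[X]) (s : k[X][X]) (p : k[X][X]) (c : L), c ≠ 0 ∧
      eval₂ (algebraMap k[X] L) θ p = ρ * c ^ 2 ∧ (Q.Monic ∧ Irreducible Q ∧ s.Monic ∧
        s.natDegree = 2 * g i ∧ Irm s Q ∧ Cg Q (f i) ((X - C R0) * s) ∧
        ∀ j, j ≠ i → Irm (f j) Q) ∧
      ∀ z : k[X], ¬ Q ∣ z ^ 2 - p.eval R0 := by
    intro ρ
    have hρ := (Finset.mem_filter.1 ρ.2).2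
    obtain ⟨p, c, hc, hp⟩ := exists_polH h (ρ : L)
    have hc0 : algebraMap k[X] L c ≠ 0 := algL_neH K hc
    have h1 : eval₂ (algebraMap k[X] L) θ p ≠ 0 := by
      rw [hp]
      exact mul_ne_zero hρ.1 (pow_ne_zero 2 hc0)
    have h2' : IsSquare (Algebra.norm K (eval₂ (algebraMap k[X] L) θ p)) := by
      rw [hp, map_mul, map_pow]
      exact hρ.2.1.mul (IsSquare.sq _)
    have h3 : ¬ IsSquare (eval₂ (algebraMap k[X] L) θ p) := by
      rintro ⟨w, hw⟩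
      apply hρ.2.2
      refine ⟨w / algebraMap k[X] L c, ?_⟩
      rw [hp] at hw
      field_simp
      rw [hw]
      ring
    obtain ⟨Q, R0, s, -, hs, hsd, hsi, hcg, hj, hz⟩ := hSTQ k K m g f h2 hg hmon hdeg hdsc hsepf
      hfull i L θ h p h1 h2' h3 1 one_ne_zero
    exact ⟨Q.1, R0, s, p, algebraMap k[X] L c, hc0, hp, ⟨Q.2.1, Q.2.2, hs, hsd, hsi, hcg, hj⟩, hz⟩
  choose Q R0 s p c hc hp hQ hz using key
  let S : Finset k[X] := Finset.univ.image Q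
  have hS : ∀ Q' ∈ S, ∃ ρ : T, Q ρ = Q' := by
    intro Q' hQ'
    obtain ⟨ρ, -, hρ⟩ := Finset.mem_image.1 hQ'
    exact ⟨ρ, hρ⟩
  let R : k[X] → k[X] := fun Q' => if h : Q' ∈ S then R0 (hS Q' h).choose else 0
  let s' : k[X] → k[X][X] := fun Q' => if h : Q' ∈ S then s (hS Q' h).choose else 0
  have hRs : ∀ Q' ∈ S, Q'.Monic ∧ Irreducible Q' ∧ (s' Q').Monic ∧ (s' Q').natDegree = 2 * g i ∧
      Irm (s' Q') Q' ∧ Cg Q' (f i) ((X - C (R Q')) * s' Q') ∧ ∀ j, j ≠ i → Irm (f j) Q' := by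
    intro Q' hQ'
    have h1 := (hS Q' hQ').choose_spec
    have h2 := hQ (hS Q' hQ').choose
    rw [h1] at h2
    simp only [R, s', dif_pos hQ']
    exact h2
  refine ⟨S, R, s', hRs, ?_⟩
  intro α hα0 hαN hev hns
  obtain ⟨ρ, hρ, y, hy, hαy⟩ := hRr α hα0 (fun 𝔓 _ => hev 𝔓)
  have hρ0 : ρ ≠ 0 := hR0 ρ hρ
  have hρN : IsSquare (Algebra.norm K ρ) := by
    have e : ρ = α * (y⁻¹) ^ 2 := by
      rw [hαy]
      field_simp
    rw [e, map_mul, map_pow]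
    exact hαN.mul (IsSquare.sq _)
  have hρn : ¬ IsSquare ρ := by
    rintro ⟨w, hw⟩
    apply hns
    exact ⟨w * y, by rw [hαy, hw]; ring⟩
  have hρT : ρ ∈ T := Finset.mem_filter.2 ⟨hρ, hρ0, hρN, hρn⟩
  have hQS : Q ⟨ρ, hρT⟩ ∈ S := Finset.mem_image_of_mem _ (Finset.mem_univ _)
  refine ⟨Q ⟨ρ, hρT⟩, hQS, p ⟨ρ, hρT⟩, y / c ⟨ρ, hρT⟩, div_ne_zero hy (hc _), ?_, ?_⟩
  · have hq := hQ ⟨ρ, hρT⟩
    refine ns_congrH ?_ (hz ⟨ρ, hρT⟩)
    exact root_uniqH hq.2.1 hq.2.2.1 (by rw [hq.2.2.2.1]; have := hg i; omega) hq.2.2.2.2.1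
      hq.2.2.2.2.2.1 (hRs _ hQS).2.2.2.2.2.1
  · rw [hp, hαy]
    have := hc ⟨ρ, hρT⟩
    field_simp

end chs

/-- One curve. -/
theorem oneH (hFINT : S_FINT) (hSTQ : S_STQH) (h0 : S_INT) (hEXQ : S_EXQA)
    (H : Pool.Agent.H859.N874.JM.PartsA) (hTRN : S_TRN) (hREC : S_RECB) (hIRK : S_IRKB)
    (hSELT : S_SELT) {k : Type} [Field k] [Finite k] (K : Type) [Field K] [Algebra k[X] K]
    [IsFractionRing k[X] K] {m : ℕ} {g M : Fin m → ℕ} {r : Fin m → k[X]} {f : Fin m → k[X][X]}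
    (h2 : (2 : k) ≠ 0) (hg : ∀ i, 1 ≤ g i) (hF : ∀ i, Crv (g i) (M i) (r i) (f i))
    (hfull : Full K g f) (i : Fin m) :
    ∃ S J : Finset k[X], J ⊆ S ∧
      (∀ Q ∈ S, Q.Monic ∧ Irreducible Q ∧ ¬ Irm (f i) Q ∧ ∀ j, j ≠ i → Irm (f j) Q) ∧
      ∀ B : k[X], B ≠ 0 → (∀ P : k[X], P.Monic → Irreducible P → P ∣ B → Irm (f i) P) →
        Pool.Agent.H859.N874.TW.Uni K S (f i) ((f i).scaleRoots ((∏ Q ∈ J, Q) * B)) := by
  have hm := (hF i).mon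
  have hd := (hF i).deg
  have hI := fun i => (hIRK (g i) k K (f i) (M i) (r i) 1 (hF i) one_ne_zero)
  haveI hfact : Fact (Irreducible (FK K (f i))) := ⟨(hI i).1⟩
  have hsepK : (FK K (f i)).Separable := (hI i).2.2.1
  have hc := isGen_adjoinRoot (K := K) hm hd
  have hmK : (FK K (f i)).Monic := hm.map _
  haveI : FiniteDimensional K (AdjoinRoot (FK K (f i))) := hmK.finite_adjoinRoot
  haveI : Algebra.IsSeparable K (AdjoinRoot (FK K (f i))) := sep_adjoinRoot hsepK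
  haveI : IsDedekindDomain (integralClosure k[X] (AdjoinRoot (FK K (f i)))) :=
    integralClosure.isDedekindDomain k[X] K _
  haveI : IsFractionRing (integralClosure k[X] (AdjoinRoot (FK K (f i)))) (AdjoinRoot (FK K (f i))) :=
    integralClosure.isFractionRing_of_finite_extension K _
  obtain ⟨S, R, s, hS, hsep⟩ := exists_SH (K := K) hFINT hSTQ h2 hg (fun i => (hF i).mon)
    (fun i => (hF i).deg) (fun i => (hF i).sq.ne_zero) (fun i => (hI i).2.2.1) hfull i hc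
    (integralClosure k[X] (AdjoinRoot (FK K (f i))))
  obtain ⟨R₀, hR₀⟩ := exists_crt S (fun Q hQ => ⟨(hS Q hQ).1, (hS Q hQ).2.1⟩) R
  have hgood : GoodSA (g i) S (fun Q => (s Q).comp (X + C R₀)) := by
    intro Q hQ
    obtain ⟨h1, h3, h4, h5, h6, -, -⟩ := hS Q hQ
    refine ⟨h1, h3, h4.comp_X_add_C R₀, ?_, trivial, irm_comp h6 R₀⟩
    rw [natDegree_comp, natDegree_X_add_C, mul_one, h5]
  have hcon : ∀ Q ∈ S, Cg Q ((f i).comp (X + C R₀)) (X * (fun Q => (s Q).comp (X + C R₀)) Q) :=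
    fun Q hQ => cg_trans (hS Q hQ).2.2.2.2.2.1 (hR₀ Q hQ)
  have hSI : ∀ Q ∈ S, ¬ Irm (f i) Q := fun Q hQ =>
    not_irm (hS Q hQ).2.1 (hS Q hQ).2.2.1 (by rw [(hS Q hQ).2.2.2.1]; have := hg i; omega)
      (hS Q hQ).2.2.2.2.2.1
  obtain ⟨hdT, -, hGT, -⟩ := hTRN (g i) k K (AdjoinRoot (FK K (f i))) (f i)
    (AdjoinRoot.root (FK K (f i))) R₀ hc
  have hSep : Sep K S (f i) := by
    intro α hα0 hαN _ _ hev hns
    obtain ⟨Q, hQ, p, y, hy, hz, hαp⟩ := hsep α hα0 hαN hev hns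
    obtain ⟨𝔓₁, 𝔮, o1, -, v1, -⟩ := hEXQ (g i) k K (AdjoinRoot (FK K (f i)))
      (integralClosure k[X] (AdjoinRoot (FK K (f i)))) _ _ S (fun Q => (s Q).comp (X + C R₀)) (hg i)
      hGT (by rw [hdT]; exact (hF i).sq) hgood Q hQ (hcon Q hQ)
    exact ⟨Q, hQ, 𝔓₁, o1, not_sq1 h0 hc (hF i).sq (hS Q hQ).2.1 o1 v1 hy hαp
      (ns_congrH (hR₀ Q hQ) hz)⟩
  obtain ⟨J, hJ, hU⟩ := selFH H hTRN hREC hIRK hSELT K h2 (hg i) (hF i) hgood hcon hSI hSep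
  exact ⟨S, J, hJ, fun Q hQ => ⟨(hS Q hQ).1, (hS Q hQ).2.1, hSI Q hQ, (hS Q hQ).2.2.2.2.2.2⟩, hU⟩

end Pool.Agent.H467.HJ
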