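import Pool.Agent.H467.HJ.Abs
import Pool.Agent.H859.TWC.Fld

/-!
# The 2-Selmer group over the extensions: the fields

After `N874/TW/Fld.lean` (helper874) and the version of helper859.
-/

set_option autoImplicit false
set_option linter.all false

open Polynomial IsDedekindDomain
open Pool.Agent.N352.PJ
open Pool.Agent.N874.JM (S_RAM LocF SelF exists_field irr_up)
open Pool.Agent.N874.PP (nm Ov Ev Sq1 U0 S_CLS S_LIN cl cl_add_aux exists_below below_unique)
open scoped Classical IntermediateField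

namespace Pool.Agent.H467.HJ

open Pool.Agent.H859.PJ Pool.Agent.H859.N874.TW
open Pool.Agent.H859.N874.JM (PartsA)

theorem irr_comp {A : Type} [CommRing A] {p : A[X]} (h : Irreducible p) (c : A) :
    Irreducible (p.comp (X + C c)) := by
  have e : p.comp (X + C c) = algEquivAevalXAddC c p := by
    rw [algEquivAevalXAddC_apply, aeval_def, comp]
    rfl
  rw [e]
  exact (MulEquiv.irreducible_iff (algEquivAevalXAddC c)).2 h

/-- Composition with `D x`. -/
theorem scale_comp {A : Type} [CommRing A] (p : A[X]) (D : A) :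
    (p.scaleRoots D).comp (C D * X) = C (D ^ p.natDegree) * p := by
  ext i
  rw [comp_C_mul_X_coeff, coeff_C_mul, coeff_scaleRoots]
  rcases le_or_gt i p.natDegree with h | h
  · have e : D ^ p.natDegree = D ^ (p.natDegree - i) * D ^ i := by
      rw [← pow_add, Nat.sub_add_cancel h]
    rw [e]
    ring
  · rw [coeff_eq_zero_of_natDegree_lt h]
    ring

theorem comp_inj {A : Type} [CommRing A] [IsDomain A] {D : A} (hD : D ≠ 0) {p q : A[X]}
    (h : p.comp (C D * X) = q.comp (C D * X)) : p = q := by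
  ext i
  have h1 := congrArg (fun p => p.coeff i) h
  simp only [comp_C_mul_X_coeff] at h1
  exact mul_right_cancel₀ (pow_ne_zero i hD) h1

/-- Translation and twist. -/
theorem trans_scale {A : Type} [CommRing A] [IsDomain A] {D : A} (hD : D ≠ 0) (p : A[X]) (R : A) :
    (p.comp (X + C R)).scaleRoots D = (p.scaleRoots D).comp (X + C (D * R)) := by
  apply comp_inj hD
  rw [scale_comp, natDegree_comp, natDegree_X_add_C, mul_one, comp_assoc, add_comp, X_comp,
    C_comp]
  have e : (C D * X + C (D * R) : A[X]) = (C D * X).comp (X + C R) := by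
    rw [mul_comp, C_comp, X_comp, map_mul]
    ring
  rw [e, ← comp_assoc, scale_comp, mul_comp, C_comp]

/-- The classes are separated by the primes in `S`. -/
def Sep {k : Type} [Field k] (K : Type) [Field K] [Algebra k[X] K] [IsFractionRing k[X] K]
    (S : Finset k[X]) (f : k[X][X]) [Fact (Irreducible (FK K f))] : Prop :=
  ∀ α : AdjoinRoot (FK K f), α ≠ 0 → IsSquare (Algebra.norm K α) →
    ∀ [IsDedekindDomain (integralClosure k[X] (AdjoinRoot (FK K f)))]
      [IsFractionRing (integralClosure k[X] (AdjoinRoot (FK K f))) (AdjoinRoot (FK K f))],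
    (∀ 𝔓 : HeightOneSpectrum (integralClosure k[X] (AdjoinRoot (FK K f))), Ev 𝔓 α) →
    ¬ IsSquare α →
    ∃ Q ∈ S, ∃ 𝔓 : HeightOneSpectrum (integralClosure k[X] (AdjoinRoot (FK K f))),
      Ov Q 𝔓 ∧ ¬ Sq1 𝔓 α

/-- The theorem on the Selmer group over all `M`. -/
theorem selFH (H : PartsA) (hTRN : S_TRN) (hREC : S_RECB) (hIRK : S_IRKB) (hSELT : S_SELT)
    {k : Type} [Field k] [Finite k] (K : Type) [Field K]
    [Algebra k[X] K] [IsFractionRing k[X] K] {g : ℕ} {f₀ : k[X][X]} {M₀ : ℕ} {r R₀ : k[X]}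
    {S : Finset k[X]} {s : k[X] → k[X][X]} (h2 : (2 : k) ≠ 0) (hg : 1 ≤ g)
    (hF : Crv g M₀ r f₀) (hS : GoodSA g S s)
    (hcon : ∀ Q ∈ S, Cg Q (f₀.comp (X + C R₀)) (X * s Q)) (hSI : ∀ Q ∈ S, ¬ Irm f₀ Q)
    [hfact : Fact (Irreducible (FK K f₀))] (hsep : Sep K S f₀) :
    ∃ J ⊆ S, ∀ B : k[X], B ≠ 0 → (∀ P : k[X], P.Monic → Irreducible P → P ∣ B → Irm f₀ P) →
      Uni K S f₀ (f₀.scaleRoots ((∏ Q ∈ J, Q) * B)) := by
  have hm := hF.mon
  have hd := hF.deg
  have hI := fun D hD => hIRK g k K f₀ M₀ r D hF hD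
  have hsepK : (FK K f₀).Separable := (hI 1 one_ne_zero).2.2.1
  have hc := isGen_adjoinRoot (K := K) hm hd
  have hmK : (FK K f₀).Monic := hm.map _
  have hdK : (FK K f₀).natDegree = 2 * g + 1 := by rw [FK, hm.natDegree_map, hd]
  haveI : FiniteDimensional K (AdjoinRoot (FK K f₀)) := hmK.finite_adjoinRoot
  haveI : Algebra.IsSeparable K (AdjoinRoot (FK K f₀)) := sep_adjoinRoot hsepK
  haveI : IsDedekindDomain (integralClosure k[X] (AdjoinRoot (FK K f₀))) :=
    integralClosure.isDedekindDomain k[X] K _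
  haveI : IsFractionRing (integralClosure k[X] (AdjoinRoot (FK K f₀))) (AdjoinRoot (FK K f₀)) :=
    integralClosure.isFractionRing_of_finite_extension K _
  haveI : Module.Finite k[X] (integralClosure k[X] (AdjoinRoot (FK K f₀))) :=
    IsIntegralClosure.finite k[X] K (AdjoinRoot (FK K f₀)) _
  obtain ⟨J, hJ, hselK⟩ := coreH (K := K) (L := AdjoinRoot (FK K f₀))
    (integralClosure k[X] (AdjoinRoot (FK K f₀))) H.cls H.lin H.exq H.ns H.parq hREC hTRN hg h2 hc hF
    hS hcon (fun α h1 h3 h4 h5 => hsep α h1 h3 h4 h5)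
  refine ⟨J, hJ, fun B hB0 hB => ?_⟩
  obtain ⟨hdT, hirT, hcR, -⟩ := hTRN g k K (AdjoinRoot (FK K f₀)) f₀ (AdjoinRoot.root (FK K f₀)) R₀ hc
  intro M _ _ _ _ _ _ R _ _ _ _ _ _ _ n hM hQs hPr
  have hmM : (FK M f₀).Monic := hm.map _
  have hdM : (FK M f₀).natDegree = 2 * g + 1 := by rw [FK, hm.natDegree_map, hd]
  have hFmap : FK M f₀ = (FK K f₀).map (algebraMap K M) := by
    rw [FK, FK, Polynomial.map_map, ← IsScalarTower.algebraMap_eq k[X] K M]
  have hirrM : Irreducible (FK M f₀) := by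
    rw [hFmap]
    exact irr_up hM hfact.out hmK (by rw [hdK]; exact odd_two_mul_add_one g)
  have hirrD : ∀ D : k[X], D ≠ 0 → Irreducible ((f₀.scaleRoots D).map (algebraMap k[X] M)) := by
    intro D hD
    have h1 : (f₀.scaleRoots D).Monic := (monic_scaleRoots_iff D).2 hm
    have h3 : ((f₀.scaleRoots D).map (algebraMap k[X] K)).natDegree = 2 * g + 1 := by
      rw [h1.natDegree_map, natDegree_scaleRoots, hd]
    have h4 := irr_up hM (hI D hD).2.1 (h1.map _) (by rw [h3]; exact odd_two_mul_add_one g)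
    rwa [Polynomial.map_map, ← IsScalarTower.algebraMap_eq k[X] K M] at h4
  obtain ⟨Ω, instF, instA, t, ht, hrk, htop, hfin, hmin⟩ := exists_field hirrM hmM
  rw [hdM] at hrk
  letI : Algebra K Ω := ((algebraMap M Ω).comp (algebraMap K M)).toAlgebra
  haveI : IsScalarTower K M Ω := IsScalarTower.of_algebraMap_eq fun x => rfl
  letI : Algebra k[X] Ω := ((algebraMap M Ω).comp (algebraMap k[X] M)).toAlgebra
  haveI : IsScalarTower k[X] M Ω := IsScalarTower.of_algebraMap_eq fun x => rfl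
  have ht' : (FK K f₀).eval₂ (algebraMap K Ω) t = 0 := by
    rw [hFmap, aeval_def, eval₂_map] at ht
    exact ht
  letI : Algebra (AdjoinRoot (FK K f₀)) Ω := (AdjoinRoot.lift (algebraMap K Ω) t ht').toAlgebra
  have hL : ∀ x : AdjoinRoot (FK K f₀), algebraMap (AdjoinRoot (FK K f₀)) Ω x =
      AdjoinRoot.lift (algebraMap K Ω) t ht' x := fun x => rfl
  haveI : IsScalarTower K (AdjoinRoot (FK K f₀)) Ω := by
    refine IsScalarTower.of_algebraMap_eq fun x => ?_
    rw [hL, AdjoinRoot.algebraMap_eq, AdjoinRoot.lift_of]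
  haveI : IsScalarTower k[X] (AdjoinRoot (FK K f₀)) Ω := by
    refine IsScalarTower.of_algebraMap_eq fun x => ?_
    rw [IsScalarTower.algebraMap_apply k[X] K (AdjoinRoot (FK K f₀)),
      ← IsScalarTower.algebraMap_apply K (AdjoinRoot (FK K f₀)) Ω,
      IsScalarTower.algebraMap_apply k[X] M Ω, IsScalarTower.algebraMap_apply k[X] K M,
      ← IsScalarTower.algebraMap_apply K M Ω]
  haveI : FiniteDimensional K Ω := FiniteDimensional.trans K M Ω
  haveI : Algebra.IsSeparable M Ω := by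
    have hs : (FK M f₀).Separable := by
      rw [hFmap]
      exact hsepK.map
    have hsep' : IsSeparable M t := by
      unfold IsSeparable
      rw [hmin]
      exact hs
    haveI := (IntermediateField.isSeparable_adjoin_simple_iff_isSeparable M Ω).2 hsep'
    rw [htop] at this
    exact AlgEquiv.Algebra.isSeparable (IntermediateField.topEquiv (F := M) (E := Ω))
  haveI : Algebra.IsSeparable K Ω := Algebra.IsSeparable.trans K M Ω
  obtain ⟨u, hu⟩ : ∃ u : Ω, u = t - algebraMap k[X] Ω R₀ := ⟨_, rfl⟩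
  have hroot : algebraMap (AdjoinRoot (FK K f₀)) Ω
      (AdjoinRoot.root (FK K f₀) - algebraMap k[X] (AdjoinRoot (FK K f₀)) R₀) = u := by
    rw [map_sub, ← IsScalarTower.algebraMap_apply k[X] (AdjoinRoot (FK K f₀)) Ω, hu, hL,
      AdjoinRoot.lift_root]
  have htopu : M⟮u⟯ = ⊤ := by
    rw [eq_top_iff, ← htop, IntermediateField.adjoin_simple_le_iff]
    have h1 : u ∈ M⟮u⟯ := IntermediateField.mem_adjoin_simple_self M u
    have h3 : algebraMap k[X] Ω R₀ ∈ M⟮u⟯ := by
      rw [IsScalarTower.algebraMap_apply k[X] M Ω]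
      exact (M⟮u⟯).algebraMap_mem _
    have e : t = u + algebraMap k[X] Ω R₀ := by rw [hu]; ring
    rw [e]
    exact (M⟮u⟯).add_mem h1 h3
  have hsel := selF_midH (K := K) (L := AdjoinRoot (FK K f₀)) (Ω := Ω)
    (integralClosure k[X] (AdjoinRoot (FK K f₀))) R H h2 hg hcR hS (by rw [hdT]; exact hF.sq) hcon hJ
    (B := B) (fun P a b c => (hirT P).2 (hB P a b c)) (fun Q hQ h => hSI Q hQ ((hirT Q).1 h)) hselK
    (by rw [hroot]; exact htopu) hQs (fun P a b c => (hirT P).2 (hPr P a b c)) hM hrk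
  rw [hroot] at hsel
  have hD0 : (∏ Q ∈ J, Q) * B ≠ 0 := by
    refine mul_ne_zero ?_ hB0
    rw [Finset.prod_ne_zero_iff]
    exact fun Q hQ => (hS Q (hJ hQ)).2.1.ne_zero
  generalize (∏ Q ∈ J, Q) * B = D at hD0 hsel ⊢
  have hmS : ((f₀.scaleRoots D).map (algebraMap k[X] M)).Monic :=
    ((monic_scaleRoots_iff D).2 hm).map _
  refine hSELT M R _ (algebraMap k[X] M (D * R₀)) hmS ?_
  have hcompM : ((f₀.scaleRoots D).map (algebraMap k[X] M)).comp (X + C (algebraMap k[X] M (D * R₀))) =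
      ((f₀.comp (X + C R₀)).scaleRoots D).map (algebraMap k[X] M) := by
    rw [trans_scale hD0, Polynomial.map_comp, Polynomial.map_add, map_X, map_C]
  rw [hcompM]
  obtain ⟨f, hf⟩ : ∃ f : k[X][X], f = f₀.comp (X + C R₀) := ⟨_, rfl⟩
  have hmf : f.Monic := by rw [hf]; exact hm.comp_X_add_C R₀
  have hdf : f.natDegree = 2 * g + 1 := by
    rw [hf, natDegree_comp, natDegree_X_add_C, mul_one, hd]
  have hirrF : Irreducible ((f.scaleRoots D).map (algebraMap k[X] M)) := by
    rw [hf, ← hcompM]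
    exact irr_comp (hirrD D hD0) _
  rw [← hf] at hsel ⊢
  intro h hcop hnorm hloc
  set F' : M[X] := (f.scaleRoots D).map (algebraMap k[X] M) with hF'
  haveI hfact' : Fact (Irreducible F') := ⟨hirrF⟩
  set Θ : Ω := algebraMap k[X] Ω D * u with hΘ
  have hrootD : aeval Θ F' = 0 := by
    rw [hF', aeval_map_algebraMap]
    have h1 := scaleRoots_eval₂_mul (p := f) (algebraMap k[X] Ω) u D
    have h3 : eval₂ (algebraMap k[X] Ω) u f = 0 := by
      rw [FK, aeval_map_algebraMap, aeval_def] at ht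
      rw [hf, eval₂_comp, eval₂_add, eval₂_X, eval₂_C, hu, sub_add_cancel]
      exact ht
    rw [h3, mul_zero] at h1
    rw [aeval_def]
    exact h1
  have hmF' : F'.Monic := ((monic_scaleRoots_iff D).2 hmf).map _
  let φ : AdjoinRoot F' →ₐ[M] Ω := AdjoinRoot.liftAlgHom F' (Algebra.ofId M _) Θ hrootD
  have hφmk : ∀ p : M[X], φ (AdjoinRoot.mk F' p) = aeval Θ p := by
    intro p
    have h1 := AdjoinRoot.liftAlgHom_mk F' (Algebra.ofId M Ω) Θ hrootD p
    rw [Algebra.toRingHom_ofId, ← Polynomial.aeval_def] at h1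
    exact h1
  have hφinj : Function.Injective φ := φ.toRingHom.injective
  haveI : FiniteDimensional M (AdjoinRoot F') := hmF'.finite_adjoinRoot
  have hrk' : Module.finrank M (AdjoinRoot F') = Module.finrank M Ω := by
    rw [hrk, (AdjoinRoot.powerBasis hmF'.ne_zero).finrank, AdjoinRoot.powerBasis_dim, hF',
      ((monic_scaleRoots_iff D).2 hmf).natDegree_map, natDegree_scaleRoots, hdf]
  have hφsurj : Function.Surjective φ :=
    (LinearMap.injective_iff_surjective_of_finrank_eq_finrank (f := φ.toLinearMap) hrk').1 hφinj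
  let e : AdjoinRoot F' ≃ₐ[M] Ω := AlgEquiv.ofBijective φ ⟨hφinj, hφsurj⟩
  have hemk : ∀ p : M[X], e (AdjoinRoot.mk F' p) = aeval Θ p := hφmk
  have hne : aeval Θ h ≠ 0 := by
    intro h0
    obtain ⟨u, v, huv⟩ := hcop
    have := congrArg (aeval Θ) huv
    rw [map_add, map_mul, map_mul, hrootD, h0, mul_zero, mul_zero, add_zero, map_one] at this
    exact zero_ne_one this
  have hnorm' : IsSquare (Algebra.norm M (aeval Θ h)) := by
    rw [← hemk, Algebra.norm_eq_of_algEquiv]
    exact hnorm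
  obtain ⟨y, hy⟩ := hsel h hne hnorm' hloc
  obtain ⟨z, rfl⟩ := hφsurj y
  obtain ⟨s', rfl⟩ := AdjoinRoot.mk_surjective z
  refine ⟨s', ?_⟩
  rw [← AdjoinRoot.mk_eq_zero]
  apply hφinj
  rw [map_zero, hφmk, map_sub, map_pow, sub_eq_zero]
  rw [hφmk] at hy
  rw [pow_two]
  exact hy

end Pool.Agent.H467.HJ
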