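import Pool.Agent.H467.HJ.Spec
import Pool.Agent.H467.MR.Cheb

/-!
# The density of the primes of `k[t]` modulo which all `f i` are irreducible (by helper297, for
helper467; after the cubic case of helper215)
-/

set_option autoImplicit false
set_option linter.all false

open Polynomial IsDedekindDomain
open Pool.Agent.N352.PJ (dsc)
open Pool.Agent.H467.MR
open scoped Classical

namespace Pool.Agent.H467.HJ.Genh

section fld

/-- a polynomial of degree at most `n` with `n` distinct roots has no other roots. -/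
theorem roots_eq {Z : Type} [Field Z] {n : ℕ} (P : Z[X]) (hP : P ≠ 0) (hdeg : P.natDegree ≤ n)
    (u : Fin n → Z) (hu : Function.Injective u) (hr : ∀ j, P.eval (u j) = 0) (x : Z)
    (hx : P.eval x = 0) : ∃ j, x = u j := by
  have h1 : Finset.image u Finset.univ ⊆ P.roots.toFinset := by
    intro z hz
    obtain ⟨j, -, rfl⟩ := Finset.mem_image.mp hz
    rw [Multiset.mem_toFinset, mem_roots hP, IsRoot.def, hr]
  have h2 : (Finset.image u Finset.univ).card = n := by
    rw [Finset.card_image_of_injective _ hu, Finset.card_univ, Fintype.card_fin]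
  have h3 : P.roots.toFinset.card ≤ n :=
    (Multiset.toFinset_card_le _).trans ((card_roots' P).trans hdeg)
  have h4 : Finset.image u Finset.univ = P.roots.toFinset :=
    Finset.eq_of_subset_of_card_le h1 (by rw [h2]; exact h3)
  have h5 : x ∈ P.roots.toFinset := by
    rw [Multiset.mem_toFinset, mem_roots hP, IsRoot.def, hx]
  rw [← h4] at h5
  obtain ⟨j, -, hj⟩ := Finset.mem_image.mp h5
  exact ⟨j, hj.symm⟩

/-- a monic polynomial with `n` distinct roots, `n` the degree. -/
theorem eq_prod {Z : Type} [Field Z] {n : ℕ} (P : Z[X]) (hP : P.Monic) (hdeg : P.natDegree = n)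
    (u : Fin n → Z) (hu : Function.Injective u) (hr : ∀ j, P.eval (u j) = 0) :
    P = ∏ j, (X - C (u j)) := by
  refine eq_of_monic_of_dvd_of_natDegree_le (monic_prod_of_monic _ _ fun j _ => monic_X_sub_C _)
    hP ?_ ?_
  · refine Finset.prod_dvd_of_coprime ?_ fun j _ => dvd_iff_isRoot.2 (hr j)
    intro i _ j _ hij
    exact pairwise_coprime_X_sub_C hu hij
  · rw [hdeg, natDegree_prod_of_monic _ _ fun j _ => monic_X_sub_C _]
    simp

theorem aeval_pow {κ Z : Type} [Field κ] [Finite κ] [Field Z] [Algebra κ Z] (F : κ[X]) (x : Z)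
    (hx : aeval x F = 0) (e : ℕ) : aeval (x ^ Nat.card κ ^ e) F = 0 := by
  haveI := Fintype.ofFinite κ
  induction e with
  | zero => simpa using hx
  | succ e ih =>
    have h1 := congrArg (FiniteField.frobeniusAlgHom κ Z) ih
    rw [map_zero, ← aeval_algHom_apply] at h1
    have h2 : FiniteField.frobeniusAlgHom κ Z (x ^ Nat.card κ ^ e) =
        x ^ Nat.card κ ^ (e + 1) := by
      show (x ^ Nat.card κ ^ e) ^ Fintype.card κ = _
      rw [← Nat.card_eq_fintype_card, ← pow_mul, pow_succ]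
    rwa [h2] at h1

/-- Irreducibility over a finite field and the action of Frobenius on the roots. -/
theorem irr_iff {κ Z : Type} [Field κ] [Finite κ] [Field Z] [Algebra κ Z] {n : ℕ} (F : κ[X])
    (hF : F.Monic) (hdeg : F.natDegree = n + 1) (u : Fin (n + 1) → Z)
    (hu : Function.Injective u) (hr : ∀ j, aeval (u j) F = 0) :
    Irreducible F ↔ ∀ j j' : Fin (n + 1), ∃ e : ℕ, u j ^ Nat.card κ ^ e = u j' := by
  haveI := Fintype.ofFinite κ
  have hF0 : F.map (algebraMap κ Z) ≠ 0 := (hF.map _).ne_zero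
  have hall : ∀ x : Z, aeval x F = 0 → ∃ j, x = u j := by
    intro x hx
    refine roots_eq (F.map (algebraMap κ Z)) hF0 (by rw [hF.natDegree_map, hdeg]) u hu
      (fun j => ?_) x ?_
    · rw [eval_map_algebraMap]
      exact hr j
    · rw [eval_map_algebraMap]
      exact hx
  constructor
  · intro hirr j j'
    set φ : Z →ₐ[κ] Z := FiniteField.frobeniusAlgHom κ Z with hφ
    have hφa : ∀ x, φ x = x ^ Nat.card κ := by
      intro x
      show x ^ Fintype.card κ = _
      rw [← Nat.card_eq_fintype_card]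
    have hπ : ∀ i, ∃ i', φ (u i) = u i' := by
      intro i
      apply hall
      rw [aeval_algHom_apply, hr, map_zero]
    choose π hπ using hπ
    have hπinj : Function.Injective π := by
      intro i i' h
      apply hu
      apply φ.toRingHom.injective
      show φ (u i) = φ (u i')
      rw [hπ, hπ, h]
    set I : Finset (Fin (n + 1)) := Finset.univ.filter fun i => ∃ e : ℕ, u j ^ Nat.card κ ^ e = u i
      with hI
    have hIπ : I.image π = I := by
      refine Finset.eq_of_subset_of_card_le ?_ ?_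
      · intro i hi
        obtain ⟨i', hi', rfl⟩ := Finset.mem_image.1 hi
        obtain ⟨e, he⟩ := (Finset.mem_filter.1 hi').2
        refine Finset.mem_filter.2 ⟨Finset.mem_univ _, e + 1, ?_⟩
        rw [← hπ, ← he, hφa, ← pow_mul, pow_succ]
      · rw [Finset.card_image_of_injective _ hπinj]
    set h : Z[X] := ∏ i ∈ I, (X - C (u i)) with hh
    have hfix : h.map φ.toRingHom = h := by
      rw [hh, Polynomial.map_prod]
      have e1 : ∀ i ∈ I, (X - C (u i)).map φ.toRingHom = X - C (u (π i)) := by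
        intro i _
        rw [Polynomial.map_sub, map_X, map_C]
        have : φ.toRingHom (u i) = φ (u i) := rfl
        rw [this, hπ]
      rw [Finset.prod_congr rfl e1, ← Finset.prod_image (g := π) (f := fun i => X - C (u i))
        (fun a _ b _ hab => hπinj hab), hIπ]
    have hlift : h ∈ Polynomial.lifts (algebraMap κ Z) := by
      rw [Polynomial.lifts_iff_coeff_lifts]
      intro m
      have h1 := congrArg (fun p : Z[X] => p.coeff m) hfix
      simp only [coeff_map] at h1
      have h2 : h.coeff m ^ Nat.card κ = h.coeff m := by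
        rw [← hφa]
        exact h1
      obtain ⟨z, hz⟩ := Cheb.frob_fixed _ h2
      exact ⟨z, hz⟩
    obtain ⟨h₀, hh₀⟩ := (Polynomial.mem_lifts h).1 hlift
    have hj : aeval (u j) h₀ = 0 := by
      rw [← eval_map_algebraMap, hh₀, hh, eval_prod]
      refine Finset.prod_eq_zero (Finset.mem_filter.2 ⟨Finset.mem_univ j, 0, by simp⟩) ?_
      simp
    have hmin : F = minpoly κ (u j) := minpoly.eq_of_irreducible_of_monic hirr (hr j) hF
    have hdvd : F ∣ h₀ := by
      rw [hmin]
      exact minpoly.dvd κ _ hj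
    have hj' : aeval (u j') h₀ = 0 := by
      obtain ⟨p, rfl⟩ := hdvd
      rw [map_mul, hr, zero_mul]
    rw [← eval_map_algebraMap, hh₀, hh, eval_prod, Finset.prod_eq_zero_iff] at hj'
    obtain ⟨i, hi, hi'⟩ := hj'
    obtain ⟨e, he⟩ := (Finset.mem_filter.1 hi).2
    refine ⟨e, ?_⟩
    rw [eval_sub, eval_X, eval_C, sub_eq_zero] at hi'
    rw [he, hi']
  · intro htr
    have hint : IsIntegral κ (u 0) := ⟨F, hF, hr 0⟩
    have hdvd : minpoly κ (u 0) ∣ F := minpoly.dvd κ _ (hr 0)
    have hroot : ∀ j, aeval (u j) (minpoly κ (u 0)) = 0 := by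
      intro j
      obtain ⟨e, he⟩ := htr 0 j
      rw [← he]
      exact aeval_pow _ _ (minpoly.aeval κ _) e
    have hm0 : (minpoly κ (u 0)).map (algebraMap κ Z) ≠ 0 :=
      ((minpoly.monic hint).map _).ne_zero
    have hle : n + 1 ≤ (minpoly κ (u 0)).natDegree := by
      have h1 : Finset.image u Finset.univ ⊆
          ((minpoly κ (u 0)).map (algebraMap κ Z)).roots.toFinset := by
        intro z hz
        obtain ⟨j, -, rfl⟩ := Finset.mem_image.mp hz
        rw [Multiset.mem_toFinset, mem_roots hm0, IsRoot.def, eval_map_algebraMap, hroot]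
      have h2 : (Finset.image u Finset.univ).card = n + 1 := by
        rw [Finset.card_image_of_injective _ hu, Finset.card_univ, Fintype.card_fin]
      have h3 := (Finset.card_le_card h1).trans ((Multiset.toFinset_card_le _).trans
        (card_roots' _))
      rw [h2, (minpoly.monic hint).natDegree_map] at h3
      exact h3
    have heq : minpoly κ (u 0) = F :=
      (eq_of_monic_of_dvd_of_natDegree_le (minpoly.monic hint) hF hdvd
        (by rw [hdeg]; exact hle)).symm
    rw [← heq]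
    exact minpoly.irreducible hint

end fld

section one

variable {k K M : Type} [Field k] [Finite k] [Field K] [Algebra k[X] K] [Field M]
  [Algebra K M] [Algebra k[X] M] [IsScalarTower k[X] K M]

/-- `f` is separable modulo `Q` if `Q` does not divide the discriminant. -/
theorem sepQ {g : ℕ} (f : k[X][X]) (hdeg : f.natDegree = 2 * g + 1) (Q : Pr k)
    (hQ : ¬ Q.1 ∣ dsc g f) : (f.map (algebraMap k[X] (Om Q))).Separable := by
  obtain ⟨p, q, -, -, h⟩ := exists_mul_add_mul_eq_C_resultant (m := 2 * g + 1) (n := 2 * g) f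
    (derivative f) hdeg.le ((natDegree_derivative_le f).trans (by omega)) (Or.inl (by omega))
  have h1 := congrArg (Polynomial.map (algebraMap k[X] (Om Q))) h
  rw [Polynomial.map_add, Polynomial.map_mul, Polynomial.map_mul, map_C, ← derivative_map] at h1
  have h2 : algebraMap k[X] (Om Q) (f.resultant (derivative f) (2 * g + 1) (2 * g)) ≠ 0 :=
    fun h3 => hQ (Cheb.dvd_of_eq_zero Q _ h3)
  have hu : IsUnit (C (algebraMap k[X] (Om Q)
      (f.resultant (derivative f) (2 * g + 1) (2 * g))) : (Om Q)[X]) :=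
    isUnit_C.2 (isUnit_iff_ne_zero.2 h2)
  obtain ⟨v, hv⟩ := hu.exists_left_inv
  refine ⟨v * p.map (algebraMap k[X] (Om Q)), v * q.map (algebraMap k[X] (Om Q)), ?_⟩
  rw [← hv, ← h1]
  ring

theorem isInt {f : k[X][X]} (hf : f.Monic) (x : M) (h : eval₂ (algebraMap k[X] M) x f = 0) :
    IsIntegral k[X] x := ⟨f, hf, h⟩

variable {g : ℕ} {f : k[X][X]} {t : Fin (2 * g + 1) → M}

/-- The factorization over the integral closure. -/
theorem fac (hf : f.Monic) (hdeg : f.natDegree = 2 * g + 1) (ht : Function.Injective t)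
    (hr : ∀ j, eval₂ (algebraMap k[X] M) (t j) f = 0) :
    f.map (algebraMap k[X] (integralClosure k[X] M)) =
      ∏ j, (X - C (⟨t j, isInt hf _ (hr j)⟩ : integralClosure k[X] M)) := by
  have hinj : Function.Injective (algebraMap (integralClosure k[X] M) M) :=
    fun a b h => Subtype.ext h
  apply Polynomial.map_injective _ hinj
  rw [Polynomial.map_map, ← IsScalarTower.algebraMap_eq, Polynomial.map_prod]
  rw [eq_prod (f.map (algebraMap k[X] M)) (hf.map _) (by rw [hf.natDegree_map, hdeg]) t ht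
    (fun j => by rw [eval_map]; exact hr j)]
  refine Finset.prod_congr rfl fun j _ => ?_
  rw [Polynomial.map_sub, map_X, map_C]
  rfl

theorem facQ (hf : f.Monic) (hdeg : f.natDegree = 2 * g + 1) (ht : Function.Injective t)
    (hr : ∀ j, eval₂ (algebraMap k[X] M) (t j) f = 0) {Q : Pr k} (φ : XX M Q) :
    f.map (algebraMap k[X] (Om Q)) =
      ∏ j, (X - C (φ (⟨t j, isInt hf _ (hr j)⟩ : integralClosure k[X] M))) := by
  have h1 := congrArg (Polynomial.map φ.toRingHom) (fac hf hdeg ht hr)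
  rw [Polynomial.map_map, Polynomial.map_prod] at h1
  have h2 : φ.toRingHom.comp (algebraMap k[X] (integralClosure k[X] M)) =
      algebraMap k[X] (Om Q) := φ.comp_algebraMap
  rw [h2] at h1
  rw [h1]
  refine Finset.prod_congr rfl fun j _ => ?_
  rw [Polynomial.map_sub, map_X, map_C]
  rfl

theorem injQ (hf : f.Monic) (hdeg : f.natDegree = 2 * g + 1) (ht : Function.Injective t)
    (hr : ∀ j, eval₂ (algebraMap k[X] M) (t j) f = 0) {Q : Pr k} (hQ : ¬ Q.1 ∣ dsc g f)
    (φ : XX M Q) :
    Function.Injective fun j => φ (⟨t j, isInt hf _ (hr j)⟩ : integralClosure k[X] M) := by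
  have h1 := sepQ f hdeg Q hQ
  rw [facQ hf hdeg ht hr φ] at h1
  exact separable_prod_X_sub_C_iff.1 h1

/-- powers of the Frobenius element. -/
theorem fr_pow {Q : Pr k} (φ : XX M Q) (σ : M ≃ₐ[K] M) (hσ : IsFr φ σ) (e : ℕ)
    (x y : integralClosure k[X] M) (h : (y : M) = (σ ^ e) (x : M)) :
    φ y = φ x ^ Nat.card (Kp Q) ^ e := by
  induction e generalizing x y with
  | zero =>
    have : y = x := Subtype.ext (by rw [h]; rfl)
    rw [this]
    simp
  | succ e ih =>
    have hx : IsIntegral k[X] (σ (x : M)) := by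
      have h1 := x.2
      exact h1.map (σ.restrictScalars k[X])
    have h1 := hσ x ⟨σ (x : M), hx⟩ rfl
    have h2 := ih ⟨σ (x : M), hx⟩ y (by rw [h, pow_succ]; rfl)
    rw [h2, h1, ← pow_mul, pow_succ, mul_comm]

/-- One polynomial: the Frobenius elements permute the roots transitively if and only if the
polynomial is irreducible modulo `Q`. -/
theorem fr_iff (hf : f.Monic) (hdeg : f.natDegree = 2 * g + 1) (ht : Function.Injective t)
    (hr : ∀ j, eval₂ (algebraMap k[X] M) (t j) f = 0) {Q : Pr k} (hQ : ¬ Q.1 ∣ dsc g f)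
    (φ : XX M Q) (σ : M ≃ₐ[K] M) (hσ : IsFr φ σ) :
    Trv t (fun _ => True) σ ↔ Irm f Q.1 := by
  haveI := Cheb.fin_Kp Q
  set T : Fin (2 * g + 1) → integralClosure k[X] M := fun j => ⟨t j, isInt hf _ (hr j)⟩ with hT
  have hu : Function.Injective fun j => φ (T j) := injQ hf hdeg ht hr hQ φ
  have hroot : ∀ j, aeval (φ (T j)) (f.map (algebraMap k[X] (Kp Q))) = 0 := by
    intro j
    rw [aeval_map_algebraMap, aeval_algHom_apply]
    have h1 : aeval (T j) f = 0 := by
      apply Subtype.ext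
      have h2 := aeval_algHom_apply (integralClosure k[X] M).val (T j) f
      have h3 : (integralClosure k[X] M).val (T j) = t j := rfl
      rw [h3] at h2
      rw [← Subalgebra.coe_val, ← h2]
      exact hr j
    rw [h1, map_zero]
  have hirr := irr_iff (f.map (algebraMap k[X] (Kp Q))) (hf.map _)
    (by rw [hf.natDegree_map, hdeg]) (fun j => φ (T j)) hu hroot
  have hI : Irm f Q.1 ↔ Irreducible (f.map (algebraMap k[X] (Kp Q))) := Iff.rfl
  rw [hI, hirr]
  constructor
  · intro h j j'
    obtain ⟨e, he⟩ := h j j' trivial trivial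
    exact ⟨e, (fr_pow φ σ hσ e (T j) (T j') he.symm).symm⟩
  · intro h j j' _ _
    obtain ⟨e, he⟩ := h j j'
    refine ⟨e, ?_⟩
    have h1 : eval₂ (algebraMap k[X] M) ((σ ^ e) (t j)) f = 0 := by
      have h2 := congrArg ((σ ^ e).restrictScalars k[X]) (hr j)
      rw [map_zero] at h2
      have h3 := aeval_algHom_apply ((σ ^ e).restrictScalars k[X] : M →ₐ[k[X]] M) (t j) f
      rw [show aeval (t j) f = 0 from hr j, map_zero] at h3
      exact h3
    obtain ⟨j'', hj''⟩ := roots_eq (f.map (algebraMap k[X] M)) (hf.map _).ne_zero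
      (by rw [hf.natDegree_map, hdeg]) t ht (fun j => by rw [eval_map]; exact hr j)
      ((σ ^ e) (t j)) (by rw [eval_map]; exact h1)
    have h4 := fr_pow φ σ hσ e (T j) (T j'') hj''.symm
    have h5 : j'' = j' := hu (by
      show φ (T j'') = φ (T j')
      rw [h4, he])
    rw [hj'', h5]

theorem trv_zp {n : ℕ} {t : Fin n → M} {A : Fin n → Prop} [Finite (M ≃ₐ[K] M)]
    {σ τ : M ≃ₐ[K] M} (h : Subgroup.zpowers σ = Subgroup.zpowers τ) (hσ : Trv t A σ) :
    Trv t A τ := by
  intro j j' hj hj'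
  obtain ⟨e, he⟩ := hσ j j' hj hj'
  have h1 : σ ^ e ∈ Subgroup.zpowers τ := by
    rw [← h]
    exact Subgroup.pow_mem _ (Subgroup.mem_zpowers σ) e
  rw [← mem_powers_iff_mem_zpowers] at h1
  obtain ⟨e', he'⟩ := h1
  refine ⟨e', ?_⟩
  have he'' : τ ^ e' = σ ^ e := he'
  rw [he'', he]

end one

section many

variable {k K : Type} [Field k] [Finite k] [Field K] [Algebra k[X] K]
  [IsFractionRing k[X] K] {m : ℕ} {g : Fin m → ℕ} {f : Fin m → k[X][X]}

theorem fin_bad (hd : ∀ i, dsc (g i) (f i) ≠ 0) :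
    {Q : Pr k | ∃ i, Q.1 ∣ dsc (g i) (f i)}.Finite := by
  have : {Q : Pr k | ∃ i, Q.1 ∣ dsc (g i) (f i)} =
      ⋃ i, {Q : Pr k | Q.1 ∣ dsc (g i) (f i)} := by
    ext Q; simp
  rw [this]
  exact Set.finite_iUnion fun i => Cheb.fin_div _ (hd i)

/-- A finite Galois extension containing the roots. -/
theorem exists_M (hm : ∀ i, (f i).Monic) (hdeg : ∀ i, (f i).natDegree = 2 * g i + 1)
    (hs : ∀ i, ((f i).map (algebraMap k[X] K)).Separable) :
    ∃ (M : Type) (_ : Field M) (_ : Algebra K M) (_ : FiniteDimensional K M) (_ : IsGalois K M)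
      (_ : Algebra k[X] M) (_ : IsScalarTower k[X] K M) (t : ∀ i : Fin m, Fin (2 * g i + 1) → M),
      (∀ i, Function.Injective (t i)) ∧
      (∀ i j, eval₂ (algebraMap k[X] M) (t i j) (f i) = 0) := by
  set Z := AlgebraicClosure K with hZ
  have key : ∀ i, ∃ t : Fin (2 * g i + 1) → Z, Function.Injective t ∧ ∀ j,
      aeval (t j) ((f i).map (algebraMap k[X] K)) = 0 := by
    intro i
    have hc := card_rootSet_eq_natDegree (K := Z) (hs i) (IsAlgClosed.splits _)
    rw [(hm i).natDegree_map, hdeg i] at hc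
    obtain ⟨e⟩ := Fintype.card_eq.1 (hc.trans (Fintype.card_fin (2 * g i + 1)).symm)
    refine ⟨fun j => (e.symm j : Z), fun x y hxy => e.symm.injective (Subtype.ext hxy), fun j => ?_⟩
    exact aeval_eq_zero_of_mem_rootSet (e.symm j).2
  choose t ht hr using key
  set S : Set Z := Set.range fun p : (Σ i : Fin m, Fin (2 * g i + 1)) => t p.1 p.2 with hS
  have hSfin : S.Finite := Set.finite_range _
  have hSsep : ∀ x ∈ S, IsSeparable K x := by
    rintro x ⟨⟨i, j⟩, rfl⟩
    exact (hs i).of_dvd (minpoly.dvd K _ (hr i j))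
  set E : IntermediateField K Z := IntermediateField.adjoin K S with hE
  haveI : FiniteDimensional K E := IntermediateField.finiteDimensional_adjoin fun x _ =>
    Algebra.IsIntegral.isIntegral x
  haveI : Algebra.IsSeparable K E :=
    (IntermediateField.isSeparable_adjoin_iff_isSeparable K Z).2 hSsep
  set M : IntermediateField K Z := IntermediateField.normalClosure K E Z with hM
  have hEM : E ≤ M := IntermediateField.le_normalClosure E
  have hSM : ∀ x ∈ S, x ∈ M := fun x hx => hEM (IntermediateField.subset_adjoin K S hx)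
  haveI : FiniteDimensional K M := normalClosure.is_finiteDimensional K E Z
  haveI : Normal K M := normalClosure.normal K E Z
  have hMsep : M ≤ separableClosure K Z := by
    rw [hM]
    refine normalClosure_le_iff.2 fun i => ?_
    have : Algebra.IsSeparable K i.fieldRange :=
      (AlgEquiv.Algebra.isSeparable (AlgEquiv.ofInjectiveField i))
    exact le_separableClosure K Z _
  haveI : Algebra.IsSeparable K M := (le_separableClosure_iff K Z M).1 hMsep
  haveI : IsGalois K M := ⟨⟩
  letI alg : Algebra k[X] M := ((algebraMap K M).comp (algebraMap k[X] K)).toAlgebra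
  haveI tow : IsScalarTower k[X] K M := IsScalarTower.of_algebraMap_eq' rfl
  refine ⟨M, inferInstance, inferInstance, inferInstance, inferInstance, alg, tow,
    fun i j => ⟨t i j, hSM _ ⟨⟨i, j⟩, rfl⟩⟩, ?_, ?_⟩
  · intro i x y hxy
    exact ht i (congrArg Subtype.val hxy)
  · intro i j
    apply Subtype.ext
    have h1 := hr i j
    rw [aeval_def, eval₂_map] at h1
    have h2 := Polynomial.hom_eval₂ (f i) (algebraMap k[X] M) (algebraMap M Z)
      (⟨t i j, hSM _ ⟨⟨i, j⟩, rfl⟩⟩ : M)
    exact h2.trans h1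

end many

section dens

variable {k K M : Type} [Field k] [Finite k] [Field K] [Algebra k[X] K]
  [IsFractionRing k[X] K] [Field M] [Algebra K M] [FiniteDimensional K M] [IsGalois K M]
  [Algebra k[X] M] [IsScalarTower k[X] K M] {m : ℕ} {g : Fin m → ℕ} {f : Fin m → k[X][X]}
  {t : ∀ i : Fin m, Fin (2 * g i + 1) → M}

/-- The density of `InH`. -/
theorem dens (hC : S_CHEB) (hG : S_GRPH) (h2 : (2 : k) ≠ 0) (hg : ∀ i, 1 ≤ g i)
    (hm : ∀ i, (f i).Monic) (hdeg : ∀ i, (f i).natDegree = 2 * g i + 1)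
    (hd : ∀ i, dsc (g i) (f i) ≠ 0) (hfull : Full K g f)
    (ht : ∀ i, Function.Injective (t i))
    (hr : ∀ i j, eval₂ (algebraMap k[X] M) (t i j) (f i) = 0) :
    LogD (fun Q : Pr k => if Q ∈ InH f then (1 : ℝ) else 0) (∏ i, (1 / (2 * (g i : ℝ) + 1))) := by
  obtain ⟨hfin, hld⟩ := hC k K M
  have hcard := (hG k K M m g f t h2 hg hm hdeg hfull ht hr).1
  have h1 := hld {σ : M ≃ₐ[K] M | ∀ i, Trv (t i) (fun _ => True) σ} (by
    intro σ τ h hσ i
    exact trv_zp h (hσ i))
  have hG0 : (Nat.card (M ≃ₐ[K] M) : ℝ) ≠ 0 := by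
    exact_mod_cast Nat.card_pos.ne'
  have h2 : LogD (fun Q : Pr k => (Nat.card (M ≃ₐ[K] M) : ℝ) * if Q ∈ InH f then (1 : ℝ) else 0)
      (Nat.card {σ : M ≃ₐ[K] M | ∀ i, Trv (t i) (fun _ => True) σ}) := by
    refine Cheb.ld_congr h1
      ({Q : Pr k | ¬ Tor K M Q} ∪ {Q : Pr k | ∃ i, Q.1 ∣ dsc (g i) (f i)})
      (hfin.union (fin_bad hd)) fun Q hQ => ?_
    rw [Set.mem_union, not_or] at hQ
    obtain ⟨hQ1, hQ2⟩ := hQ
    have hT : Tor K M Q := by
      by_contra h; exact hQ1 h
    have hQ3 : ∀ i, ¬ Q.1 ∣ dsc (g i) (f i) := fun i hi => hQ2 ⟨i, hi⟩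
    by_cases hin : Q ∈ InH f
    · rw [if_pos hin, mul_one, ← hT.card]
      have : ∀ φ : XX M Q, ∃ σ ∈ {σ : M ≃ₐ[K] M | ∀ i, Trv (t i) (fun _ => True) σ}, IsFr φ σ := by
        intro φ
        obtain ⟨σ, hσ, -⟩ := hT.frob φ
        exact ⟨σ, fun i => (fr_iff (hm i) (hdeg i) (ht i) (hr i) (hQ3 i) φ σ hσ).2 (hin i), hσ⟩
      rw [Nat.card_congr (Equiv.subtypeUnivEquiv this)]
    · rw [if_neg hin, mul_zero]
      have : IsEmpty {φ : XX M Q // ∃ σ ∈ {σ : M ≃ₐ[K] M |
          ∀ i, Trv (t i) (fun _ => True) σ}, IsFr φ σ} := by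
        refine ⟨fun ⟨φ, σ, hσ, hf⟩ => hin fun i => ?_⟩
        exact (fr_iff (hm i) (hdeg i) (ht i) (hr i) (hQ3 i) φ σ hf).1 (hσ i)
      rw [Nat.card_of_isEmpty]
      simp
  have h3 := Cheb.ld_mul (1 / (Nat.card (M ≃ₐ[K] M) : ℝ)) h2
  have e1 : (fun Q : Pr k => 1 / (Nat.card (M ≃ₐ[K] M) : ℝ) *
      ((Nat.card (M ≃ₐ[K] M) : ℝ) * if Q ∈ InH f then (1 : ℝ) else 0)) =
      fun Q : Pr k => if Q ∈ InH f then (1 : ℝ) else 0 := by
    funext Q
    rw [← mul_assoc, one_div, inv_mul_cancel₀ hG0, one_mul]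
  have e2 : 1 / (Nat.card (M ≃ₐ[K] M) : ℝ) *
      (Nat.card {σ : M ≃ₐ[K] M | ∀ i, Trv (t i) (fun _ => True) σ} : ℝ) =
      ∏ i, (1 / (2 * (g i : ℝ) + 1)) := by
    have h4 : (Nat.card {σ : M ≃ₐ[K] M | ∀ i, Trv (t i) (fun _ => True) σ} : ℝ) *
        ∏ i, (2 * (g i : ℝ) + 1) = Nat.card (M ≃ₐ[K] M) := by exact_mod_cast hcard
    have h6 : ∏ i, (2 * (g i : ℝ) + 1) ≠ 0 := Finset.prod_ne_zero_iff.2 fun i _ => by positivity
    have h5 : (Nat.card {σ : M ≃ₐ[K] M | ∀ i, Trv (t i) (fun _ => True) σ} : ℝ) ≠ 0 := by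
      intro h; rw [h, zero_mul] at h4; exact hG0 h4.symm
    rw [Finset.prod_div_distrib, Finset.prod_const_one, ← h4]
    field_simp
  rw [e1, e2] at h3
  exact h3

end dens

theorem genh (hC : S_CHEB) (hG : S_GRPH) : S_GENH := by
  intro k K _ _ _ _ _ m g f h2 hg hm hdeg hd hs hfull
  obtain ⟨M, _, _, _, _, _, _, t, ht, hr⟩ := exists_M (K := K) hm hdeg hs
  exact dens (K := K) (M := M) hC hG h2 hg hm hdeg hd hfull ht hr

end Pool.Agent.H467.HJ.Genh
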