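import Pool.Agent.H467.HJ.Wt
import Pool.Graph.R_pool_sql_team_seeded_63374d34.N655.PJ.Gl

/-!
# The global Lagrangian, for a translate

After `N655/PJ/Gl.lean` (helper655) and the version of helper859.
-/

set_option autoImplicit false
set_option linter.all false

open Polynomial IsDedekindDomain Matrix WithZero
open scoped Classical

namespace Pool.Agent.H467.HJ

open Pool.Agent.N655.PJ Pool.Agent.H859.PJ
open Pool.Agent.N352.PJ
open Pool.Agent.N874.PP (Ov Ev Sq1 U0)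

/-- The global Lagrangian. -/
def S_GLB : Prop := ∀ (g : ℕ) (k K L O : Type) [Field k] [Finite k] [Field K] [Algebra k[X] K]
  [IsFractionRing k[X] K]
  [Field L] [Algebra K L] [Algebra k[X] L] [IsScalarTower k[X] K L] [CommRing O]
  [IsDedekindDomain O] [Algebra O L] [IsFractionRing O L] [Algebra k[X] O]
  [IsScalarTower k[X] O L] [IsIntegralClosure O k[X] L] (f₀ : k[X][X]) (θ₀ : L) (M : ℕ)
  (r R : k[X]) (S : Finset k[X]) (h : k[X] → k[X][X]), 1 ≤ g →
  ∀ hG : IsGen g K f₀ θ₀, Crv g M r f₀ → GoodSA g S h →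
  (∀ Q ∈ S, Cg Q (f₀.comp (X + C R)) (X * h Q)) →
  ∀ 𝔮 : k[X] → HeightOneSpectrum O, (∀ Q ∈ S, Ov Q (𝔮 Q) ∧
    (𝔮 Q).valuation L (θ₀ - algebraMap k[X] L R) = 1) →
  ∀ α : L, α ≠ 0 → IsSquare (Algebra.norm K α) → ∀ S₁ ⊆ S, S₁.Nonempty →
    (∀ Q ∈ S₁, ¬ Ev (𝔮 Q) α) →
    (∀ 𝔓 : HeightOneSpectrum O, 𝔓 ∉ S₁.image 𝔮 → Ev 𝔓 α) →
    ∃ x : Fin (g * (∏ Q ∈ S₁, Q).natDegree) → L,
      (∀ a, ∀ 𝔓 : HeightOneSpectrum O, 𝔓.valuation L (x a) ^ 2 ≤
        𝔓.valuation L α * (if 𝔓 ∈ S₁.image 𝔮 then exp (1 : ℤ) else 1)) ∧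
      (∀ a b, ∃ y : k[X], hG.top (algebraMap k[X] L (∏ Q ∈ S₁, Q) * (x a * x b) / α) =
        algebraMap k[X] K y ∧ res (∏ Q ∈ S₁, Q) y = 0) ∧
      ∀ c : Fin (g * (∏ Q ∈ S₁, Q).natDegree) → k,
        (∀ 𝔓 : HeightOneSpectrum O,
          𝔓.valuation L (∑ a, algebraMap k[X] L (C (c a)) * x a) ^ 2 ≤
            𝔓.valuation L α * (if 𝔓 ∈ S₁.image 𝔮 then exp (-1 : ℤ) else 1)) → c = 0

theorem wtn_constB {k : Type} [Field k] {g : ℕ} (N : ℕ) (p : k[X]) (hp : p ≠ 0) :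
    wtn (fun i : Fin (2 * g + 1) => N * (i : ℕ)) (fun i => if i = 0 then p else 0) =
      p.natDegree := by
  unfold wtn
  apply le_antisymm
  · refine Finset.sup_le fun j _ => ?_
    by_cases hj : j = 0
    · subst hj
      simp [hp]
    · simp [hj]
  · have := Finset.le_sup (f := fun j : Fin (2 * g + 1) =>
      if (if j = 0 then p else 0) = 0 then 0 else
        (if j = 0 then p else 0).natDegree + N * (j : ℕ)) (Finset.mem_univ 0)
    simpa [hp] using this

theorem sum_dB (g N : ℕ) : ∑ j : Fin (2 * g + 1), N * (j : ℕ) = N * (g * (2 * g + 1)) := by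
  rw [Fin.sum_univ_eq_sum_range (fun j => N * j), ← Finset.mul_sum]
  congr 1
  have h1 := Finset.sum_range_id_mul_two (2 * g + 1)
  have h2 : (2 * g + 1) * (2 * g + 1 - 1) = (g * (2 * g + 1)) * 2 := by
    rw [Nat.add_sub_cancel]
    ring
  rw [h2] at h1
  exact Nat.eq_of_mul_eq_mul_right (by norm_num) h1

theorem gl (hT : S_TRN) (h0 : S_INT) (h1 : S_LTI) (h2 : S_RED) (h3 : S_WTB) (h4 : S_NWB)
    (h5 : S_DET) (h6 : S_IDXA) (h7 : S_LAT) : S_GLB := by
  intro g k K L O _ _ _ _ _ _ _ _ _ _ _ _ _ _ _ _ f θ N r R S hh hg hG hF hS hcon 𝔮 h𝔮 α hα hsq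
    S₁ hS₁ hne hodd hev
  have hI := h0 g k K L f θ hG hF.sq
  obtain ⟨hdT, -, hG', htop⟩ := hT g k K L f θ R hG
  obtain ⟨P, hPdef⟩ : ∃ P : k[X], P = ∏ Q ∈ S₁, Q := ⟨_, rfl⟩
  obtain ⟨T, hT'⟩ : ∃ T : Finset (HeightOneSpectrum O), T = S₁.image 𝔮 := ⟨_, rfl⟩
  obtain ⟨e, hli, hchar⟩ := h1 g k K L O f θ hG hF.sq α T hα
  obtain ⟨G, hGdet, hGdeg, hGe⟩ := h6 g k K L O (f.comp (X + C R)) (θ - algebraMap k[X] L R) S hh
    hg hG' (by rw [hdT]; exact hF.sq) hS hcon 𝔮 h𝔮 α hα S₁ hS₁ hodd hev e hli (by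
      intro x
      rw [hchar x, hT'])
  rw [htop] at hGe
  rw [← hPdef] at hGdeg hGe ⊢
  rw [← hT']
  have hPm : P.Monic := by
    rw [hPdef]
    exact Polynomial.monic_prod_of_monic _ _ fun Q hQ => (hS Q (hS₁ hQ)).1
  have hP1 : 1 ≤ P.natDegree := by
    obtain ⟨Q, hQ⟩ := hne
    have h9 : Q.natDegree ≤ P.natDegree := by
      refine Polynomial.natDegree_le_of_dvd ?_ hPm.ne_zero
      rw [hPdef]
      exact Finset.dvd_prod_of_mem _ hQ
    have h10 : 0 < Q.natDegree := (hS Q (hS₁ hQ)).2.1.natDegree_pos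
    omega
  obtain ⟨δ, hδ⟩ : ∃ δ : ℕ, δ = P.natDegree := ⟨_, rfl⟩
  -- valuation of P
  have hvP : ∀ 𝔓 : HeightOneSpectrum O, 𝔓.valuation L (algebraMap k[X] L P) *
      (if 𝔓 ∈ T then exp (1 : ℤ) else 1) ≤ 1 := by
    intro 𝔓
    by_cases h9 : 𝔓 ∈ T
    · rw [if_pos h9]
      rw [hT', Finset.mem_image] at h9
      obtain ⟨Q, hQ, rfl⟩ := h9
      have h10 : 𝔮 Q = 𝔮 Q := rfl
      obtain ⟨R, hR⟩ : Q ∣ P := by
        rw [hPdef]
        exact Finset.dvd_prod_of_mem _ hQ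
      have h11 : (𝔮 Q).valuation L (algebraMap k[X] L P) ≤ exp (-1 : ℤ) := by
        rw [hR, map_mul, map_mul]
        calc _ ≤ exp (-1 : ℤ) * 1 :=
              mul_le_mul' (val_ov (h𝔮 Q (hS₁ hQ)).1) (val_le_one _ _)
          _ = _ := mul_one _
      calc _ ≤ exp (-1 : ℤ) * exp (1 : ℤ) := mul_le_mul' h11 le_rfl
        _ = 1 := by rw [← exp_add]; norm_num
    · rw [if_neg h9, mul_one]
      exact val_le_one _ _
  -- the lattice
  have hmemL : ∀ i, ∀ 𝔓 : HeightOneSpectrum O, 𝔓.valuation L (e i) ^ 2 ≤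
      𝔓.valuation L α * (if 𝔓 ∈ T then exp (1 : ℤ) else 1) := by
    intro i
    refine (hchar (e i)).1 ⟨Pi.single i 1, ?_⟩
    rw [Finset.sum_eq_single i]
    · simp
    · intro b _ hb
      rw [Pi.single_eq_of_ne hb, map_zero, zero_mul]
    · intro hn
      exact absurd (Finset.mem_univ _) hn
  -- scaling
  obtain ⟨c₁, hc₁, hE₁⟩ := exists_den (k := k) hG e
  obtain ⟨c₂, hc₂, hva₂⟩ := exists_den (k := k) hG (fun _ : Unit => α)
  obtain ⟨c, hc⟩ : ∃ c : k[X], c = c₁ * c₂ := ⟨_, rfl⟩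
  have hc0 : c ≠ 0 := by rw [hc]; exact mul_ne_zero hc₁ hc₂
  choose E₁ hE₁ using hE₁
  obtain ⟨va₂, hva₂⟩ := hva₂ ()
  obtain ⟨cL, hcL⟩ : ∃ cL : L, cL = algebraMap k[X] L c := ⟨_, rfl⟩
  have hinjL : Function.Injective (algebraMap k[X] L) := by
    intro x y hxy
    rw [algL (K := K) x, algL (K := K) y] at hxy
    exact inj (K := K) ((algebraMap K L).injective hxy)
  have hcL0 : cL ≠ 0 := by
    rw [hcL]
    intro h
    exact hc0 (hinjL (h.trans (map_zero _).symm))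
  obtain ⟨E, hEdef⟩ : ∃ E : Matrix (Fin (2 * g + 1)) (Fin (2 * g + 1)) k[X],
    E = Matrix.of fun i j => c₂ * E₁ i j := ⟨_, rfl⟩
  have hE : ∀ i, Crd g θ (E i) (cL * e i) := by
    intro i
    have h9 := crd_mul c₂ (hE₁ i)
    have e9 : cL * e i = algebraMap k[X] L c₂ * (algebraMap k[X] L c₁ * e i) := by
      rw [hcL, hc, map_mul]
      ring
    rw [e9, hEdef]
    exact h9
  obtain ⟨α', hα'⟩ : ∃ α' : L, α' = cL ^ 2 * α := ⟨_, rfl⟩
  have hα'0 : α' ≠ 0 := by rw [hα']; exact mul_ne_zero (pow_ne_zero 2 hcL0) hα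
  obtain ⟨va, hva⟩ : ∃ va : Fin (2 * g + 1) → k[X], Crd g θ va α' := by
    have h9 := crd_mul (c₁ ^ 2 * c₂) hva₂
    have e9 : α' = algebraMap k[X] L (c₁ ^ 2 * c₂) * (algebraMap k[X] L c₂ * α) := by
      rw [hα', hcL, hc, map_mul, map_mul, map_pow]
      ring
    rw [e9]
    exact ⟨_, h9⟩
  obtain ⟨d, hd⟩ : ∃ d : Fin (2 * g + 1) → ℕ,
    d = fun i : Fin (2 * g + 1) => N * (i : ℕ) := ⟨_, rfl⟩
  -- the weights
  have hwt : ∀ (x y : L) (u v w : Fin (2 * g + 1) → k[X]), x ≠ 0 → y ≠ 0 → Crd g θ u x →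
      Crd g θ v y → Crd g θ w (x * y) → wtn d w = wtn d u + wtn d v := by
    rw [hd]
    exact h3 g k L K f θ N r hG hF
  have hαint : IsIntegral k[X] α' := (hI α').2 ⟨va, hva⟩
  obtain ⟨n, hn⟩ := IsIntegrallyClosed.isIntegral_iff.1 (Algebra.isIntegral_norm K hαint)
  have hnw : n.natDegree = (2 * g + 1) * wtn d va := by
    rw [hd]
    exact h4 g k L K f θ N r hG hF α' va n hα'0 hva hn
  have hn0 : n ≠ 0 := by
    intro h9
    rw [h9, map_zero] at hn
    exact norm_ne' hα'0 hn.symm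
  -- the determinant
  have hdetE : G.det * n = P ^ (2 * g + 1) * ((-1) ^ g * E.det ^ 2) := by
    apply inj (k := k) (K := K)
    have h9 := h5 g k K L f θ hG α' (E.map (algebraMap k[X] K)) hα'0
    have h10 : G.map (algebraMap k[X] K) = (algebraMap k[X] K P) • (Matrix.of fun i j =>
        hG.top ((∑ a, algebraMap K L ((E.map (algebraMap k[X] K)) i a) * θ ^ (a : ℕ)) *
          (∑ a, algebraMap K L ((E.map (algebraMap k[X] K)) j a) * θ ^ (a : ℕ)) / α') : Mt g K) := by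
      refine Matrix.ext fun i j => ?_
      rw [Matrix.map_apply, Matrix.smul_apply, Matrix.of_apply, smul_eq_mul, hGe i j, ← top_mul]
      congr 1
      have h11 : ∀ i, ∑ a, algebraMap K L ((E.map (algebraMap k[X] K)) i a) * θ ^ (a : ℕ) =
          cL * e i := by
        intro i
        have h12 := hE i
        rw [Crd] at h12
        rw [h12]
        refine Finset.sum_congr rfl fun a _ => ?_
        rw [Matrix.map_apply, ← algL (K := K)]
      rw [h11, h11, hα']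
      field_simp
    have h11 : algebraMap k[X] K G.det = (G.map (algebraMap k[X] K)).det := by
      rw [RingHom.map_det]
      rfl
    have h12 : (E.map (algebraMap k[X] K)).det = algebraMap k[X] K E.det := by
      rw [RingHom.map_det]
      rfl
    rw [map_mul, h11, h10, Matrix.det_smul, h9, Fintype.card_fin, h12, hn]
    simp only [map_mul, map_pow, map_neg, map_one]
    have h13 := norm_ne' (K := K) hα'0
    field_simp
  have hE0 : E.det ≠ 0 := by
    intro h9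
    rw [h9] at hdetE
    have : G.det * n = 0 := by rw [hdetE]; ring
    exact mul_ne_zero hGdet hn0 this
  have hdegE : δ + (2 * g + 1) * wtn d va = (2 * g + 1) * δ + 2 * E.det.natDegree := by
    have h9 := congrArg Polynomial.natDegree hdetE
    rw [Polynomial.natDegree_mul hGdet hn0, hGdeg, hnw, Polynomial.natDegree_mul
      (pow_ne_zero _ hPm.ne_zero) (mul_ne_zero (pow_ne_zero _ (neg_ne_zero.2 one_ne_zero))
      (pow_ne_zero _ hE0)), Polynomial.natDegree_pow, Polynomial.natDegree_mul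
      (pow_ne_zero _ (neg_ne_zero.2 one_ne_zero)) (pow_ne_zero _ hE0), Polynomial.natDegree_pow,
      Polynomial.natDegree_pow, Polynomial.natDegree_neg, Polynomial.natDegree_one,
      mul_zero, zero_add, ← hδ] at h9
    exact h9
  -- reduction
  obtain ⟨U, hU, hmono, hsum⟩ := h2 (2 * g + 1) k d E hE0
  obtain ⟨W, hW⟩ : ∃ W : Fin (2 * g + 1) → ℕ, ∀ i, W i = wtn d ((U * E) i) := ⟨_, fun _ => rfl⟩
  have hsumW : ∑ i, W i = E.det.natDegree + N * (g * (2 * g + 1)) := by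
    have h9 : ∑ j, d j = N * (g * (2 * g + 1)) := by rw [hd]; exact sum_dB g N
    rw [← h9, ← hsum]
    exact Finset.sum_congr rfl fun i _ => hW i
  obtain ⟨wv, hwv⟩ : ∃ wv : ℕ, wv = wtn d va := ⟨_, rfl⟩
  rw [← hwv] at hdegE
  obtain ⟨u, hu⟩ : ∃ u, wv = 2 * u := by
    have h9 : Even ((2 * g + 1) * wv) := by
      refine ⟨g * δ + E.det.natDegree, ?_⟩
      have h10 : (2 * g + 1) * δ = 2 * (g * δ) + δ := by ring
      omega
    rcases Nat.even_mul.1 h9 with h10 | h10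
    · exfalso
      obtain ⟨z, hz⟩ := h10
      omega
    · obtain ⟨z, hz⟩ := h10
      exact ⟨z, by omega⟩
  obtain ⟨w', hw'⟩ : ∃ w' : Fin (2 * g + 1) → ℤ, ∀ i, w' i = (W i : ℤ) - u - g * N :=
    ⟨_, fun _ => rfl⟩
  have hsumw : ∑ i, w' i = -((g : ℤ) * δ) := by
    simp only [hw']
    rw [Finset.sum_sub_distrib, Finset.sum_sub_distrib, Finset.sum_const, Finset.sum_const,
      Finset.card_univ, Fintype.card_fin, ← Nat.cast_sum, hsumW]
    have h9 : (δ : ℤ) + (2 * g + 1) * (2 * u) = (2 * g + 1) * δ + 2 * E.det.natDegree := by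
      have := hdegE
      rw [hu] at this
      exact_mod_cast this
    push_cast
    simp only [nsmul_eq_mul]
    push_cast
    linarith
  -- the new basis
  obtain ⟨eb, heb⟩ : ∃ eb : Fin (2 * g + 1) → L,
    ∀ i, eb i = ∑ j, algebraMap k[X] L (U i j) * e j := ⟨_, fun _ => rfl⟩
  have hUdet0 : U.det ≠ 0 := hU.ne_zero
  have heb0 : ∀ i, eb i ≠ 0 := by
    intro i h9
    rw [heb] at h9
    have h10 : ∑ j, (algebraMap k[X] K (U i j)) • e j = 0 := by
      rw [← h9]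
      refine Finset.sum_congr rfl fun j _ => ?_
      rw [smul_alg (K := K)]
    have h11 := Fintype.linearIndependent_iff.1 hli _ h10
    refine hUdet0 (Matrix.det_eq_zero_of_row_eq_zero i fun j => ?_)
    exact inj (K := K) ((h11 j).trans (map_zero _).symm)
  have hEb : ∀ i, Crd g θ ((U * E) i) (cL * eb i) := by
    intro i
    have h9 := crd_sum (g := g) (θ := θ) Finset.univ (v := fun j l => U i j * E j l)
      (x := fun j => algebraMap k[X] L (U i j) * (cL * e j))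
      (fun j => crd_mul (U i j) (hE j))
    have e9 : cL * eb i = ∑ j, algebraMap k[X] L (U i j) * (cL * e j) := by
      rw [heb, Finset.mul_sum]
      refine Finset.sum_congr rfl fun j _ => ?_
      ring
    rw [e9]
    exact h9
  have hmemb : ∀ i, ∀ 𝔓 : HeightOneSpectrum O, 𝔓.valuation L (eb i) ^ 2 ≤
      𝔓.valuation L α * (if 𝔓 ∈ T then exp (1 : ℤ) else 1) := by
    intro i
    exact (hchar (eb i)).1 ⟨U i, heb i⟩
  have hva0 : ∀ 𝔓 : HeightOneSpectrum O, 𝔓.valuation L α ≠ 0 := by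
    intro 𝔓
    rw [Ne, map_eq_zero]
    exact hα
  have hintb : ∀ i j, IsIntegral k[X] (algebraMap k[X] L P * (eb i * eb j) / α) := by
    intro i j
    refine isInt_of_val (O := O) fun 𝔓 => ?_
    rw [map_div₀, map_mul, map_mul, div_le_one₀ (zero_lt_iff.2 (hva0 𝔓))]
    refine le_of_pow_le_pow_left₀ (n := 2) (by norm_num) zero_le ?_
    obtain ⟨σ, hσ⟩ : ∃ σ : WithZero (Multiplicative ℤ),
      σ = (if 𝔓 ∈ T then exp (1 : ℤ) else 1) := ⟨_, rfl⟩
    have t1 := hmemb i 𝔓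
    have t2 := hmemb j 𝔓
    have t3 := hvP 𝔓
    rw [← hσ] at t1 t2 t3
    calc (𝔓.valuation L (algebraMap k[X] L P) * (𝔓.valuation L (eb i) * 𝔓.valuation L (eb j))) ^ 2
        = 𝔓.valuation L (algebraMap k[X] L P) ^ 2 *
          (𝔓.valuation L (eb i) ^ 2 * 𝔓.valuation L (eb j) ^ 2) := m1 _ _ _
      _ ≤ 𝔓.valuation L (algebraMap k[X] L P) ^ 2 *
          ((𝔓.valuation L α * σ) * (𝔓.valuation L α * σ)) :=
            mul_le_mul' le_rfl (mul_le_mul' t1 t2)
      _ = (𝔓.valuation L (algebraMap k[X] L P) * σ) ^ 2 * 𝔓.valuation L α ^ 2 := m2 _ _ _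
      _ ≤ 1 ^ 2 * 𝔓.valuation L α ^ 2 := mul_le_mul' (pow_le_pow_left' t3 2) le_rfl
      _ = _ := by rw [one_pow, one_mul]
  choose V hV using fun i j => (hI _).1 (hintb i j)
  -- the new Gram matrix
  obtain ⟨G', hG'⟩ : ∃ G' : Mt g k[X], G' = Matrix.of fun i j => U i ⬝ᵥ (G *ᵥ U j) := ⟨_, rfl⟩
  have hG'e : ∀ i j, algebraMap k[X] K (G' i j) =
      hG.top (algebraMap k[X] L P * (eb i * eb j) / α) := by
    intro i j
    rw [heb i, heb j, gram_change hG P α e G hGe (U i) (U j), hG']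
    rfl
  have hG'U : G' = U * G * Uᵀ := by
    rw [hG']
    refine Matrix.ext fun i j => ?_
    rw [Matrix.of_apply, Matrix.mul_apply]
    simp only [dotProduct, Matrix.mulVec, Matrix.mul_apply, Matrix.transpose_apply,
      Finset.mul_sum, Finset.sum_mul]
    rw [Finset.sum_comm]
    refine Finset.sum_congr rfl fun l _ => Finset.sum_congr rfl fun m _ => ?_
    ring
  have hG'det : G'.det ≠ 0 := by
    rw [hG'U, Matrix.det_mul, Matrix.det_mul, Matrix.det_transpose]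
    exact mul_ne_zero (mul_ne_zero hUdet0 hGdet) hUdet0
  have hPL0 : algebraMap k[X] L P ≠ 0 := by
    intro h9
    exact hPm.ne_zero (hinjL (h9.trans (map_zero _).symm))
  have hbound : ∀ i j, G' i j = 0 ∨ ((G' i j).natDegree : ℤ) ≤ P.natDegree + w' i + w' j := by
    intro i j
    by_cases h9 : G' i j = 0
    · exact Or.inl h9
    · refine Or.inr ?_
      have hVl : V i j (Fin.last (2 * g)) = G' i j := by
        apply inj (k := k) (K := K)
        rw [← top_crd hG (hV i j), hG'e]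
      have t1 := le_wtn d (V i j) (Fin.last (2 * g)) (by rw [hVl]; exact h9)
      have t2 : d (Fin.last (2 * g)) = N * (2 * g) := by rw [hd]; rfl
      rw [hVl, t2] at t1
      have hei : ∀ i, IsIntegral k[X] (cL * eb i) := fun i => (hI _).2 ⟨_, hEb i⟩
      obtain ⟨Y, hY⟩ := (hI _).1 ((hei i).mul (hei j))
      have t3 := hwt (cL * eb i) (cL * eb j) _ _ Y (mul_ne_zero hcL0 (heb0 i))
        (mul_ne_zero hcL0 (heb0 j)) (hEb i) (hEb j) hY
      have hYP := crd_mul P hY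
      have t4 := hwt (algebraMap k[X] L P) (cL * eb i * (cL * eb j)) _ _ _ hPL0
        (mul_ne_zero (mul_ne_zero hcL0 (heb0 i)) (mul_ne_zero hcL0 (heb0 j)))
        (crd_const P) hY hYP
      have t5 : wtn d (fun i : Fin (2 * g + 1) => if i = 0 then P else 0) = P.natDegree := by
        rw [hd]
        exact wtn_constB N P hPm.ne_zero
      have e1 : α' * (algebraMap k[X] L P * (eb i * eb j) / α) =
          algebraMap k[X] L P * (cL * eb i * (cL * eb j)) := by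
        rw [hα']
        field_simp
      have t6 := hwt α' (algebraMap k[X] L P * (eb i * eb j) / α) va (V i j) _ hα'0
        (div_ne_zero (mul_ne_zero hPL0 (mul_ne_zero (heb0 i) (heb0 j))) hα) hva (hV i j)
        (by rw [e1]; exact hYP)
      rw [t4, t5, t3, ← hW, ← hW, ← hwv] at t6
      rw [hw', hw']
      have t7 : (N * (2 * g) : ℕ) = 2 * (g * N) := by ring
      rw [t7] at t1
      have t8 : (g : ℤ) * N = ((g * N : ℕ) : ℤ) := by push_cast; ring
      rw [t8]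
      omega
  obtain ⟨ξ, hres, hind⟩ := h7 (2 * g + 1) k G' P w' (g * P.natDegree) hPm hP1 hG'det hbound (by
    rw [hsumw, hδ]
    push_cast
    ring)
  refine ⟨fun a => ∑ i, algebraMap k[X] L (ξ a i) * eb i, ?_, ?_, ?_⟩
  · intro a
    refine (hchar _).1 ⟨fun j => ∑ i, ξ a i * U i j, ?_⟩
    simp only [heb, map_sum, map_mul, Finset.mul_sum, Finset.sum_mul]
    rw [Finset.sum_comm]
    refine Finset.sum_congr rfl fun j _ => Finset.sum_congr rfl fun i _ => ?_
    ring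
  · intro a b
    refine ⟨ξ a ⬝ᵥ (G' *ᵥ ξ b), ?_, hres a b⟩
    exact gram_change hG P α eb G' hG'e (ξ a) (ξ b)
  · intro cc hcc
    refine hind cc fun i => ?_
    obtain ⟨η, hη⟩ : ∃ η : Fin (2 * g + 1) → k[X], η = ∑ a, C (cc a) • ξ a := ⟨_, rfl⟩
    rw [← hη]
    obtain ⟨x, hx⟩ : ∃ x : L, x = ∑ a, algebraMap k[X] L (C (cc a)) *
      ∑ i, algebraMap k[X] L (ξ a i) * eb i := ⟨_, rfl⟩
    have hxη : x = ∑ i, algebraMap k[X] L (η i) * eb i := by
      rw [hx, hη]
      simp only [Finset.mul_sum, Finset.sum_apply, Pi.smul_apply, smul_eq_mul, map_sum, map_mul,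
        Finset.sum_mul]
      rw [Finset.sum_comm]
      refine Finset.sum_congr rfl fun j _ => Finset.sum_congr rfl fun i _ => ?_
      ring
    have hcc' : ∀ 𝔓 : HeightOneSpectrum O, 𝔓.valuation L x ^ 2 ≤
        𝔓.valuation L α * (if 𝔓 ∈ T then exp (-1 : ℤ) else 1) := by
      intro 𝔓
      rw [hx]
      exact hcc 𝔓
    have hint : IsIntegral k[X] (eb i * x / α) := by
      refine isInt_of_val (O := O) fun 𝔓 => ?_
      rw [map_div₀, map_mul, div_le_one₀ (zero_lt_iff.2 (hva0 𝔓))]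
      refine le_of_pow_le_pow_left₀ (n := 2) (by norm_num) zero_le ?_
      have t1 := hmemb i 𝔓
      have t2 := hcc' 𝔓
      have t3 : (if 𝔓 ∈ T then exp (1 : ℤ) else 1) * (if 𝔓 ∈ T then exp (-1 : ℤ) else 1) =
          (1 : WithZero (Multiplicative ℤ)) := by
        split_ifs
        · rw [← exp_add]; norm_num
        · rw [one_mul]
      calc (𝔓.valuation L (eb i) * 𝔓.valuation L x) ^ 2
          = 𝔓.valuation L (eb i) ^ 2 * 𝔓.valuation L x ^ 2 := mul_pow _ _ _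
        _ ≤ (𝔓.valuation L α * (if 𝔓 ∈ T then exp (1 : ℤ) else 1)) *
            (𝔓.valuation L α * (if 𝔓 ∈ T then exp (-1 : ℤ) else 1)) := mul_le_mul' t1 t2
        _ = 𝔓.valuation L α ^ 2 * ((if 𝔓 ∈ T then exp (1 : ℤ) else 1) *
            (if 𝔓 ∈ T then exp (-1 : ℤ) else 1)) := m4 _ _ _
        _ = _ := by rw [t3, mul_one]
    obtain ⟨v, hv⟩ := (hI _).1 hint
    refine ⟨v (Fin.last (2 * g)), ?_⟩
    apply inj (k := k) (K := K)
    rw [map_mul, ← top_crd hG hv, ← top_mul, ← gram_left hG P α eb G' hG'e i η, ← hxη]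
    congr 1
    ring


end Pool.Agent.H467.HJ
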