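import Pool.Agent.H467.HJ.Spec

/-!
# The Galois group: proportion of transitive elements, elements changing the sign of a square root

Project HJ of helper467: part `S_GRPH`, by helper588.
-/

set_option autoImplicit false
set_option linter.all false

open Polynomial

namespace Pool.Agent.H467.HJ.Grph

/-! ### Permutations -/

theorem cyc_of_trans {n : ℕ} (hn : 2 ≤ n) (p : Equiv.Perm (Fin n))
    (h : ∀ j j' : Fin n, ∃ e : ℕ, (p ^ e) j = j') : p.cycleType = {n} := by
  have hne : ∀ x, p x ≠ x := by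
    intro x hx
    obtain ⟨y, hy⟩ : ∃ y : Fin n, y ≠ x := by
      haveI : Nontrivial (Fin n) := Fin.nontrivial_iff_two_le.mpr hn
      exact exists_ne x
    obtain ⟨e, he⟩ := h x y
    rw [Equiv.Perm.pow_apply_eq_self_of_apply_eq_self hx] at he
    exact hy he.symm
  have hcyc : p.IsCycle := by
    refine ⟨⟨0, by omega⟩, hne _, ?_⟩
    intro y _
    obtain ⟨e, he⟩ := h ⟨0, by omega⟩ y
    exact ⟨e, by simpa using he⟩
  rw [hcyc.cycleType]
  have : p.support = Finset.univ := by
    ext x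
    simp [hne x]
  rw [this]
  simp

theorem trans_of_cyc {α : Type} [Fintype α] [DecidableEq α] (p : Equiv.Perm α)
    (h : p.cycleType = {Fintype.card α}) (a b : α) : ∃ e : ℕ, (p ^ e) a = b := by
  have hcyc : p.IsCycle := by
    rw [← Equiv.Perm.card_cycleType_eq_one, h]; simp
  have hsupp : p.support.card = Fintype.card α := by
    have := Equiv.Perm.sum_cycleType p
    rw [h] at this
    simpa using this.symm
  have hsupp' : p.support = Finset.univ := (Finset.card_eq_iff_eq_univ _).mp hsupp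
  have hm : ∀ a, p a ≠ a := by
    intro a
    rw [← Equiv.Perm.mem_support, hsupp']
    exact Finset.mem_univ _
  exact hcyc.exists_pow_eq (hm a) (hm b)

theorem exists_cyc {α : Type} [Fintype α] [DecidableEq α] (h2 : 2 ≤ Fintype.card α) :
    ∃ p : Equiv.Perm α, (∀ a b : α, ∃ e : ℕ, (p ^ e) a = b) ∧
      Equiv.Perm.sign p = -(-1) ^ Fintype.card α := by
  obtain ⟨p, hp⟩ := (Equiv.Perm.exists_with_cycleType_iff α (m := {Fintype.card α})).mpr
    ⟨by simp, by simpa using h2⟩
  refine ⟨p, trans_of_cyc p hp, ?_⟩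
  rw [Equiv.Perm.sign_of_cycleType, hp]
  simp [pow_add]

theorem card_trans {n : ℕ} (hn : 2 ≤ n) [DecidablePred fun p : Equiv.Perm (Fin n) =>
    ∀ j j' : Fin n, ∃ e : ℕ, (p ^ e) j = j'] :
    (Finset.univ.filter (fun p : Equiv.Perm (Fin n) =>
      ∀ j j' : Fin n, ∃ e : ℕ, (p ^ e) j = j')).card = (n - 1).factorial := by
  classical
  have h1 := Equiv.Perm.card_of_cycleType_singleton (α := Fin n) hn (by simp)
  rw [Fintype.card_fin, Nat.choose_self, mul_one] at h1
  rw [← h1]
  congr 1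
  ext p
  simp only [Finset.mem_filter, Finset.mem_univ, true_and]
  constructor
  · exact cyc_of_trans hn p
  · intro h j j'
    exact trans_of_cyc p (by rw [h, Fintype.card_fin]) j j'

theorem hom_sign {α : Type} [Fintype α] [DecidableEq α] (χ : Equiv.Perm α →* ℤˣ) :
    χ = 1 ∨ χ = Equiv.Perm.sign := by
  by_cases h : Function.Surjective χ
  · exact Or.inr (Equiv.Perm.eq_sign_of_surjective_hom h)
  · left
    ext p
    rcases Int.units_eq_one_or (χ p) with h1 | h1
    · rw [h1]; rfl
    · exfalso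
      apply h
      intro u
      rcases Int.units_eq_one_or u with hu | hu
      · exact ⟨1, by rw [map_one, hu]⟩
      · exact ⟨p, by rw [h1, hu]⟩

/-! ### The homomorphism to the permutations of the roots -/

section rho

variable {K M : Type} [Field K] [Field M] [Algebra K M]

theorem root_eq {n : ℕ} (t : Fin n → M) (ht : Function.Injective t) (f : M[X]) (hf : f.Monic)
    (hd : f.natDegree = n) (h : ∀ j, f.eval (t j) = 0) :
    f = ∏ j, (X - C (t j)) := by
  classical
  have h1 : (∏ j, (X - C (t j))) ∣ f := by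
    apply Finset.prod_dvd_of_coprime
    · intro i _ j _ hij
      exact isCoprime_X_sub_C_of_isUnit_sub (sub_ne_zero.mpr (ht.ne hij)).isUnit
    · intro j _
      exact dvd_iff_isRoot.mpr (h j)
  have h2 : (∏ j, (X - C (t j))).Monic := monic_prod_of_monic _ _ fun j _ => monic_X_sub_C _
  apply Polynomial.eq_of_monic_of_dvd_of_natDegree_le h2 hf h1
  rw [hd, natDegree_prod_of_monic _ _ fun j _ => monic_X_sub_C _]
  simp

theorem exists_rho {n : ℕ} (t : Fin n → M) (ht : Function.Injective t) (f : K[X])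
    (hf : f.Monic) (hd : f.natDegree = n) (h : ∀ j, aeval (t j) f = 0) :
    ∃ ρ : (M ≃ₐ[K] M) →* Equiv.Perm (Fin n), ∀ σ j, σ (t j) = t (ρ σ j) := by
  have hprod := root_eq t ht (f.map (algebraMap K M)) (hf.map _) (by rw [natDegree_map, hd])
    (fun j => by rw [eval_map_algebraMap]; exact h j)
  have key : ∀ (σ : M ≃ₐ[K] M) (j : Fin n), ∃ j', σ (t j) = t j' := by
    intro σ j
    have hw : (f.map (algebraMap K M)).eval (σ (t j)) = 0 := by
      rw [eval_map_algebraMap]
      have h1 := aeval_algHom_apply (σ : M →ₐ[K] M) (t j) f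
      rw [h j, map_zero] at h1
      exact h1
    rw [hprod, eval_prod, Finset.prod_eq_zero_iff] at hw
    obtain ⟨j', -, hj'⟩ := hw
    refine ⟨j', ?_⟩
    rw [eval_sub, eval_X, eval_C] at hj'
    exact sub_eq_zero.mp hj'
  choose r hr using key
  let φ : (M ≃ₐ[K] M) →* Function.End (Fin n) :=
    { toFun := r
      map_one' := by
        funext j
        apply ht
        rw [← hr]; rfl
      map_mul' := by
        intro σ τ
        funext j
        apply ht
        show t (r (σ * τ) j) = t (r σ (r τ j))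
        rw [← hr, ← hr, ← hr]; rfl }
  exact ⟨φ.toHomPerm, fun σ j => hr σ j⟩

/-- A homomorphism to the product, surjective if the Galois group is as large as possible. -/
theorem exists_rhos [FiniteDimensional K M] [IsGalois K M] {m : ℕ} (d : Fin m → ℕ)
    (t : ∀ i, Fin (d i) → M) (ht : ∀ i, Function.Injective (t i)) (f : Fin m → K[X])
    (hf : ∀ i, (f i).Monic) (hd : ∀ i, (f i).natDegree = d i)
    (h : ∀ i j, aeval (t i j) (f i) = 0)
    (hc : Nat.card (∏ i, f i).Gal = ∏ i, (d i).factorial) :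
    ∃ ρ : (M ≃ₐ[K] M) →* (∀ i, Equiv.Perm (Fin (d i))),
      (∀ σ i j, σ (t i j) = t i (ρ σ i j)) ∧ Function.Surjective ρ := by
  classical
  have h1 : ∀ i, ∃ ρ : (M ≃ₐ[K] M) →* Equiv.Perm (Fin (d i)),
      ∀ σ j, σ (t i j) = t i (ρ σ j) := fun i =>
    exists_rho (t i) (ht i) (f i) (hf i) (hd i) (h i)
  choose ρ' hρ' using h1
  let ρ : (M ≃ₐ[K] M) →* (∀ i, Equiv.Perm (Fin (d i))) := Pi.monoidHom ρ'
  have hρ : ∀ σ i j, σ (t i j) = t i (ρ σ i j) := fun σ i j => hρ' i σ j
  refine ⟨ρ, hρ, ?_⟩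
  set F : K[X] := ∏ i, f i with hF
  have hFm : F.Monic := monic_prod_of_monic _ _ fun i _ => hf i
  have hmap : F.map (algebraMap K M) = ∏ i, ∏ j, (X - C (t i j)) := by
    rw [hF, Polynomial.map_prod]
    refine Finset.prod_congr rfl fun i _ => ?_
    exact root_eq (t i) (ht i) _ ((hf i).map _) (by rw [natDegree_map, hd])
      (fun j => by rw [eval_map_algebraMap]; exact h i j)
  have hspl : (F.map (algebraMap K M)).Splits := by
    rw [hmap]
    exact Splits.prod fun i _ => Splits.prod fun j _ => Splits.X_sub_C _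
  haveI : Fact ((F.map (algebraMap K M)).Splits) := ⟨hspl⟩
  have hroot : ∀ x, x ∈ F.rootSet M ↔ ∃ i j, x = t i j := by
    intro x
    rw [mem_rootSet]
    constructor
    · rintro ⟨-, hx⟩
      rw [← eval_map_algebraMap, hmap, eval_prod, Finset.prod_eq_zero_iff] at hx
      obtain ⟨i, -, hi⟩ := hx
      rw [eval_prod, Finset.prod_eq_zero_iff] at hi
      obtain ⟨j, -, hj⟩ := hi
      refine ⟨i, j, ?_⟩
      rw [eval_sub, eval_X, eval_C] at hj
      exact sub_eq_zero.mp hj
    · rintro ⟨i, j, rfl⟩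
      refine ⟨hFm.ne_zero, ?_⟩
      rw [hF, map_prod]
      exact Finset.prod_eq_zero (Finset.mem_univ i) (h i j)
  have hker : (Gal.restrict F M).ker = ρ.ker := by
    ext σ
    rw [MonoidHom.mem_ker, MonoidHom.mem_ker]
    have e1 : Gal.restrict F M σ = 1 ↔ ∀ x ∈ F.rootSet M, σ x = x := by
      constructor
      · intro h1 x hx
        have := Gal.restrict_smul (p := F) (E := M) σ ⟨x, hx⟩
        rw [h1, one_smul] at this
        exact this.symm
      · intro h1
        apply Gal.galActionHom_injective F M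
        rw [map_one]
        ext x
        rw [Gal.galActionHom_restrict]
        exact h1 x.1 x.2
    rw [e1]
    constructor
    · intro h1
      funext i
      ext j
      have := h1 (t i j) ((hroot _).mpr ⟨i, j, rfl⟩)
      rw [hρ] at this
      rw [ht i this]
      rfl
    · intro h1 x hx
      obtain ⟨i, j, rfl⟩ := (hroot x).mp hx
      rw [hρ, h1]
      rfl
  have hidx : Nat.card ρ.range = Nat.card (∀ i, Equiv.Perm (Fin (d i))) := by
    rw [← Subgroup.index_ker, ← hker, Subgroup.index_ker,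
      MonoidHom.range_eq_top.mpr (Gal.restrict_surjective F M)]
    rw [Nat.card_congr (Subgroup.topEquiv (G := F.Gal)).toEquiv, hc]
    rw [Nat.card_pi]
    refine Finset.prod_congr rfl fun i _ => ?_
    rw [Nat.card_eq_fintype_card, Fintype.card_perm, Fintype.card_fin]
  rw [← MonoidHom.range_eq_top]
  exact Subgroup.eq_top_of_card_eq _ hidx

end rho

section main

variable {K M : Type} [Field K] [Field M] [Algebra K M] [FiniteDimensional K M] [IsGalois K M]
  {m : ℕ} {g : Fin m → ℕ} {t : ∀ i : Fin m, Fin (2 * g i + 1) → M}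

theorem pow_t (ρ : (M ≃ₐ[K] M) →* (∀ i, Equiv.Perm (Fin (2 * g i + 1))))
    (hρ : ∀ σ i j, σ (t i j) = t i (ρ σ i j)) (σ : M ≃ₐ[K] M) (i : Fin m)
    (j : Fin (2 * g i + 1)) (e : ℕ) : (σ ^ e) (t i j) = t i ((ρ σ i ^ e) j) := by
  rw [hρ, map_pow]
  rfl

theorem claim1 (hg : ∀ i, 1 ≤ g i) (ht : ∀ i, Function.Injective (t i))
    (ρ : (M ≃ₐ[K] M) →* (∀ i, Equiv.Perm (Fin (2 * g i + 1))))
    (hρ : ∀ σ i j, σ (t i j) = t i (ρ σ i j)) (hsur : Function.Surjective ρ) :
    Nat.card {σ : M ≃ₐ[K] M // ∀ i, Trv (t i) (fun _ => True) σ} * ∏ i, (2 * g i + 1) =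
      Nat.card (M ≃ₐ[K] M) := by
  classical
  haveI : Fintype (M ≃ₐ[K] M) := Fintype.ofFinite _
  let X : Finset (∀ i, Equiv.Perm (Fin (2 * g i + 1))) :=
    Fintype.piFinset (fun i => Finset.univ.filter (fun p : Equiv.Perm (Fin (2 * g i + 1)) =>
      ∀ j j' : Fin (2 * g i + 1), ∃ e : ℕ, (p ^ e) j = j'))
  have hX : X.card = ∏ i, (2 * g i).factorial := by
    rw [Fintype.card_piFinset]
    refine Finset.prod_congr rfl fun i _ => ?_
    have h1 := hg i
    rw [card_trans (by omega)]
    rfl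
  obtain ⟨c, hc⟩ : ∃ c : ℕ, ∀ p, (Finset.univ.filter (fun σ => ρ σ = p)).card = c := by
    refine ⟨(Finset.univ.filter (fun σ => ρ σ = 1)).card, fun p => ?_⟩
    exact MonoidHom.card_fiber_eq_of_mem_range ρ (hsur p) (hsur 1)
  have h1 : Nat.card {σ : M ≃ₐ[K] M // ∀ i, Trv (t i) (fun _ => True) σ} =
      (∏ i, (2 * g i).factorial) * c := by
    rw [Nat.card_eq_fintype_card, Fintype.card_subtype]
    have h2 : (Finset.univ.filter (fun σ : M ≃ₐ[K] M => ∀ i, Trv (t i) (fun _ => True) σ)) =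
        Finset.univ.filter (fun σ => ρ σ ∈ X) := by
      apply Finset.filter_congr
      intro σ _
      simp only [X, Fintype.mem_piFinset, Finset.mem_filter, Finset.mem_univ, true_and]
      refine forall_congr' fun i => ?_
      constructor
      · intro h j j'
        obtain ⟨e, he⟩ := h j j' trivial trivial
        refine ⟨e, ?_⟩
        rw [pow_t ρ hρ] at he
        exact ht i he
      · intro h j j' _ _
        obtain ⟨e, he⟩ := h j j'
        exact ⟨e, by rw [pow_t ρ hρ, he]⟩
    rw [h2, Finset.card_eq_sum_card_fiberwise (f := ρ) (t := X) (by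
      intro σ hσ
      simpa using hσ)]
    rw [← hX, ← smul_eq_mul, ← Finset.sum_const]
    apply Finset.sum_congr rfl
    intro p hp
    rw [← hc p]
    congr 1
    ext σ
    simp only [Finset.mem_filter, Finset.mem_univ, true_and]
    constructor
    · exact fun h => h.2
    · exact fun h => ⟨h ▸ hp, h⟩
  have h2 : Nat.card (M ≃ₐ[K] M) = (∏ i, (2 * g i + 1).factorial) * c := by
    rw [Nat.card_eq_fintype_card, ← Finset.card_univ,
      Finset.card_eq_sum_card_fiberwise (f := ρ) (t := Finset.univ) (by intro σ _; simp)]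
    rw [Finset.sum_congr rfl (fun p _ => hc p), Finset.sum_const, smul_eq_mul, Finset.card_univ,
      Fintype.card_pi]
    congr 1
    refine Finset.prod_congr rfl fun i _ => ?_
    rw [Fintype.card_perm, Fintype.card_fin]
  rw [h1, h2, mul_right_comm, ← Finset.prod_mul_distrib]
  congr 1
  refine Finset.prod_congr rfl fun i _ => ?_
  rw [Nat.factorial_succ, mul_comm]

/-- An automorphism maps a square root of an element which it fixes to plus or minus itself. -/
theorem pm {s x : M} (hs : s ^ 2 = x) (σ : M ≃ₐ[K] M) (hx : σ x = x) : σ s = s ∨ σ s = -s := by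
  have h1 : (σ s) ^ 2 = s ^ 2 := by rw [← map_pow, hs, hx]
  exact sq_eq_sq_iff_eq_or_eq_neg.mp h1

/-- The character. -/
theorem exists_chi {H G : Type} [Group H] [Group G] (ρ : (M ≃ₐ[K] M) →* H)
    (hsur : Function.Surjective ρ) (ι : G →* H) (s : M) (h1 : ∀ v, ρ v = 1 → v s = s)
    (h2 : ∀ w x, ρ w = ι x → w s = s ∨ w s = -s) (hs : s ≠ -s) :
    ∃ χ : G →* ℤˣ, ∀ w x, ρ w = ι x → (χ x = 1 → w s = s) ∧ (χ x = -1 → w s = -s) := by
  classical
  have hdep : ∀ w w' : M ≃ₐ[K] M, ρ w = ρ w' → w s = w' s := by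
    intro w w' hw
    have := h1 (w'⁻¹ * w) (by rw [map_mul, map_inv, hw, inv_mul_cancel])
    have h3 : w' ((w'⁻¹ * w) s) = w' s := by rw [this]
    rw [← h3]
    show w s = w' (w'.symm (w s))
    rw [w'.apply_symm_apply]
  choose w hw using fun x : G => hsur (ι x)
  let f : G → ℤˣ := fun x => if w x s = s then 1 else -1
  have hf1 : ∀ x, w x s = s → f x = 1 := fun x hx => if_pos hx
  have hf2 : ∀ x, w x s = -s → f x = -1 := fun x hx => if_neg (by rw [hx]; exact hs.symm)
  have hmul : ∀ x y, w (x * y) s = w x (w y s) := by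
    intro x y
    exact hdep (w (x * y)) (w x * w y) (by rw [map_mul, hw, hw, hw, map_mul])
  let χ : G →* ℤˣ :=
    { toFun := f
      map_one' := hf1 1 (h1 _ (by rw [hw, map_one]))
      map_mul' := by
        intro x y
        rcases h2 (w x) x (hw x) with hx | hx <;> rcases h2 (w y) y (hw y) with hy | hy
        · rw [hf1 x hx, hf1 y hy, hf1 (x * y) (by rw [hmul, hy, hx])]; rfl
        · rw [hf1 x hx, hf2 y hy, hf2 (x * y) (by rw [hmul, hy, map_neg, hx])]; rfl
        · rw [hf2 x hx, hf1 y hy, hf2 (x * y) (by rw [hmul, hy, hx])]; rfl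
        · rw [hf2 x hx, hf2 y hy, hf1 (x * y) (by rw [hmul, hy, map_neg, hx, neg_neg])]; rfl }
  refine ⟨χ, fun v x hv => ?_⟩
  have hv' : v s = w x s := hdep v (w x) (by rw [hv, hw])
  have hχ : χ x = f x := rfl
  rw [hv', hχ]
  rcases h2 (w x) x (hw x) with hx | hx
  · refine ⟨fun _ => hx, fun h => ?_⟩
    rw [hf1 x hx] at h
    exact absurd h (by decide)
  · refine ⟨fun h => ?_, fun _ => hx⟩
    rw [hf2 x hx] at h
    exact absurd h (by decide)

theorem claim2 (h2M : (2 : M) ≠ 0) (hg : ∀ i, 1 ≤ g i) (ht : ∀ i, Function.Injective (t i))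
    (ρ : (M ≃ₐ[K] M) →* (∀ i, Equiv.Perm (Fin (2 * g i + 1))))
    (hρ : ∀ σ i j, σ (t i j) = t i (ρ σ i j)) (hsur : Function.Surjective ρ)
    (i : Fin m) (h : K[X]) (n : K) (s : M)
    (hn : ∏ j, aeval (t i j) h = algebraMap K M n ^ 2) (h0 : aeval (t i 0) h ≠ 0)
    (hns : ∀ p : K[X], aeval (t i 0) h ≠ aeval (t i 0) p ^ 2) (hs : s ^ 2 = aeval (t i 0) h) :
    ∃ σ : M ≃ₐ[K] M, (∀ i', i' ≠ i → Trv (t i') (fun _ => True) σ) ∧ σ (t i 0) = t i 0 ∧
      Trv (t i) (fun j => j ≠ 0) σ ∧ σ s = -s := by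
  classical
  have hae : ∀ (σ : M ≃ₐ[K] M) (x : M), σ (aeval x h) = aeval (σ x) h := by
    intro σ x
    exact (aeval_algHom_apply (σ : M →ₐ[K] M) x h).symm
  have hs0 : s ≠ 0 := by
    rintro rfl
    apply h0
    rw [← hs]; simp
  have hsne : s ≠ -s := by
    intro h1
    have h2 : (2 : M) * s = 0 := by linear_combination h1
    rcases mul_eq_zero.mp h2 with h3 | h3
    · exact h2M h3
    · exact hs0 h3
  have hpm : ∀ σ : M ≃ₐ[K] M, ρ σ i 0 = 0 → σ s = s ∨ σ s = -s := by
    intro σ hσ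
    exact pm hs σ (by rw [hae, hρ, hσ])
  -- the cycles
  obtain ⟨c, hc1, hc2⟩ := exists_cyc (α := {j : Fin (2 * g i + 1) // j ≠ 0}) (by
    have := hg i
    rw [Fintype.card_subtype_compl, Fintype.card_fin, Fintype.card_subtype_eq]
    omega)
  have hcard : Fintype.card {j : Fin (2 * g i + 1) // j ≠ 0} = 2 * g i := by
    rw [Fintype.card_subtype_compl, Fintype.card_fin, Fintype.card_subtype_eq]
    omega
  have hcs : Equiv.Perm.sign c = -1 := by
    rw [hc2, hcard, pow_mul]
    simp
  have hcyc : ∀ j : Fin m, ∃ p : Equiv.Perm (Fin (2 * g j + 1)), ∀ a b, ∃ e : ℕ, (p ^ e) a = b := by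
    intro j
    have := hg j
    obtain ⟨p, hp, -⟩ := exists_cyc (α := Fin (2 * g j + 1)) (by rw [Fintype.card_fin]; omega)
    exact ⟨p, hp⟩
  choose cy hcy using hcyc
  let c' : Equiv.Perm (Fin (2 * g i + 1)) := Equiv.Perm.ofSubtype c
  have hc'0 : c' 0 = 0 := Equiv.Perm.ofSubtype_apply_of_not_mem c (by simp)
  have hc'e : ∀ (e : ℕ) (j : {j : Fin (2 * g i + 1) // j ≠ 0}), (c' ^ e) j = (c ^ e) j := by
    intro e j
    show ((Equiv.Perm.ofSubtype c) ^ e) (j : Fin (2 * g i + 1)) = _
    rw [← map_pow, Equiv.Perm.ofSubtype_apply_coe]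
  obtain ⟨τ, hτ⟩ := hsur (Function.update cy i c')
  have hτi : ρ τ i = c' := by rw [hτ, Function.update_self]
  have hτj : ∀ j, j ≠ i → ρ τ j = cy j := fun j hj => by rw [hτ, Function.update_of_ne hj]
  have key : ∀ σ : M ≃ₐ[K] M, ρ σ = ρ τ → σ s = -s →
    ∃ σ : M ≃ₐ[K] M, (∀ i', i' ≠ i → Trv (t i') (fun _ => True) σ) ∧ σ (t i 0) = t i 0 ∧
      Trv (t i) (fun j => j ≠ 0) σ ∧ σ s = -s := by
    intro σ hσ hσs
    refine ⟨σ, ?_, ?_, ?_, hσs⟩
    · intro i' hi' j j' _ _
      obtain ⟨e, he⟩ := hcy i' j j'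
      exact ⟨e, by rw [pow_t ρ hρ, hσ, hτj i' hi', he]⟩
    · rw [hρ, hσ, hτi, hc'0]
    · intro j j' hj hj'
      obtain ⟨e, he⟩ := hc1 ⟨j, hj⟩ ⟨j', hj'⟩
      refine ⟨e, ?_⟩
      rw [pow_t ρ hρ, hσ, hτi]
      have := hc'e e ⟨j, hj⟩
      rw [he] at this
      exact congrArg (t i) this
  rcases hpm τ (by rw [hτi]; exact hc'0) with hτs | hτs
  swap
  · exact key τ rfl hτs
  by_cases hv : ∃ v : M ≃ₐ[K] M, ρ v = 1 ∧ v s ≠ s
  · obtain ⟨v, hv1, hv2⟩ := hv
    have hvs : v s = -s := (hpm v (by rw [hv1]; rfl)).resolve_left hv2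
    apply key (τ * v)
    · rw [map_mul, hv1, mul_one]
    · show τ (v s) = -s
      rw [hvs, map_neg, hτs]
  exfalso
  push Not at hv
  have hdep : ∀ w w' : M ≃ₐ[K] M, ρ w = ρ w' → w s = w' s := by
    intro w w' hw
    have := hv (w'⁻¹ * w) (by rw [map_mul, map_inv, hw, inv_mul_cancel])
    have h3 : w' ((w'⁻¹ * w) s) = w' s := by rw [this]
    rw [← h3]
    show w s = w' (w'.symm (w s))
    rw [w'.apply_symm_apply]
  -- the other components act trivially
  have hoth : ∀ j, j ≠ i → ∀ (p : Equiv.Perm (Fin (2 * g j + 1))) (w : M ≃ₐ[K] M),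
      ρ w = Pi.mulSingle j p → w s = s := by
    intro j hj
    obtain ⟨χ, hχ⟩ := exists_chi ρ hsur
      (MonoidHom.mulSingle (fun i : Fin m => Equiv.Perm (Fin (2 * g i + 1))) j) s hv (by
        intro w x hw
        apply hpm
        rw [hw]
        show (Pi.mulSingle j x : ∀ i : Fin m, Equiv.Perm (Fin (2 * g i + 1))) i 0 = 0
        rw [Pi.mulSingle_eq_of_ne hj.symm]
        rfl) hsne
    rcases hom_sign χ with h1 | h1
    · intro p w hw
      exact (hχ w p hw).1 (by rw [h1]; rfl)
    exfalso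
    have hgj := hg j
    let a0 : Fin (2 * g j + 1) := ⟨0, by omega⟩
    let a1 : Fin (2 * g j + 1) := ⟨1, by omega⟩
    have ha : a0 ≠ a1 := by simp [a0, a1]
    obtain ⟨μ, hμ⟩ := hsur (Pi.mulSingle j (Equiv.swap a0 a1))
    have hneg : ∀ w : M ≃ₐ[K] M, ρ w = Pi.mulSingle j (Equiv.swap a0 a1) → w s = -s := by
      intro w hw
      refine (hχ w (Equiv.swap a0 a1) hw).2 ?_
      rw [h1, Equiv.Perm.sign_swap ha]
    choose w hw using fun l : Fin (2 * g i + 1) =>
      hsur (Pi.mulSingle i (Equiv.swap 0 l))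
    have hwt : ∀ l, w l (t i 0) = t i l := by
      intro l
      rw [hρ, hw, Pi.mulSingle_eq_same, Equiv.swap_apply_left]
    have hμw : ∀ l, μ (w l s) = -(w l s) := by
      intro l
      have h3 : ρ ((w l)⁻¹ * μ * w l) = Pi.mulSingle j (Equiv.swap a0 a1) := by
        rw [map_mul, map_mul, map_inv, hw, hμ]
        have hcomm : Commute (Pi.mulSingle i (Equiv.swap 0 l) :
            ∀ i : Fin m, Equiv.Perm (Fin (2 * g i + 1))) (Pi.mulSingle j (Equiv.swap a0 a1)) :=
          Pi.mulSingle_commute hj.symm _ _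
        rw [mul_assoc, ← hcomm.eq, inv_mul_cancel_left]
      have h4 := hneg _ h3
      have h5 : w l (((w l)⁻¹ * μ * w l) s) = μ (w l s) := by
        show w l ((w l).symm (μ (w l s))) = _
        rw [(w l).apply_symm_apply]
      rw [← h5, h4, map_neg]
    set P : M := ∏ l, w l s with hP
    have hP2 : P ^ 2 = algebraMap K M n ^ 2 := by
      rw [hP, ← Finset.prod_pow, ← hn]
      refine Finset.prod_congr rfl fun l _ => ?_
      rw [← map_pow, hs, hae, hwt]
    have hP0 : P ≠ 0 := by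
      rw [hP, Finset.prod_ne_zero_iff]
      intro l _ h3
      exact hs0 ((w l).injective (by rw [h3, map_zero]))
    have hPfix : μ P = P := by
      rcases sq_eq_sq_iff_eq_or_eq_neg.mp hP2 with h3 | h3
      · rw [h3, μ.commutes]
      · rw [h3, map_neg, μ.commutes]
    have hPneg : μ P = -P := by
      rw [hP, map_prod, Finset.prod_congr rfl fun l _ => hμw l, Finset.prod_neg]
      rw [Finset.card_univ, Fintype.card_fin, pow_succ, pow_mul]
      simp
    rw [hPfix] at hPneg
    have h3 : (2 : M) * P = 0 := by linear_combination hPneg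
    rcases mul_eq_zero.mp h3 with h4 | h4
    · exact h2M h4
    · exact hP0 h4
  -- the elements with trivial component `i`
  have hone : ∀ w : M ≃ₐ[K] M, ρ w i = 1 → w s = s := by
    intro w hw
    let St : Subgroup (M ≃ₐ[K] M) := MulAction.stabilizer (M ≃ₐ[K] M) s
    have hmem : ρ w ∈ St.map ρ := by
      apply Subgroup.pi_mem_of_mulSingle_mem
      intro j
      obtain ⟨v, hv'⟩ := hsur (Pi.mulSingle j (ρ w j))
      refine ⟨v, ?_, hv'⟩
      show v s = s
      by_cases hj : j = i
      · subst hj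
        apply hv
        rw [hv', hw, Pi.mulSingle_one]
      · exact hoth j hj _ v hv'
    obtain ⟨v, hv1, hv2⟩ := hmem
    have hv1' : v s = s := hv1
    rw [hdep w v hv2.symm, hv1']
  have hdepi : ∀ w w' : M ≃ₐ[K] M, ρ w i = ρ w' i → w s = w' s := by
    intro w w' hw
    have := hone (w'⁻¹ * w) (by
      rw [map_mul, map_inv, Pi.mul_apply, Pi.inv_apply, hw, inv_mul_cancel])
    have h3 : w' ((w'⁻¹ * w) s) = w' s := by rw [this]
    rw [← h3]
    show w s = w' (w'.symm (w s))
    rw [w'.apply_symm_apply]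
  -- the character of the stabiliser
  obtain ⟨χ, hχ⟩ := exists_chi ρ hsur
    ((MonoidHom.mulSingle (fun i : Fin m => Equiv.Perm (Fin (2 * g i + 1))) i).comp
      (Equiv.Perm.ofSubtype (p := fun j : Fin (2 * g i + 1) => j ≠ 0))) s hv (by
      intro w x hw
      apply hpm
      rw [hw]
      show (Pi.mulSingle i (Equiv.Perm.ofSubtype x) :
        ∀ i : Fin m, Equiv.Perm (Fin (2 * g i + 1))) i 0 = 0
      rw [Pi.mulSingle_eq_same]
      exact Equiv.Perm.ofSubtype_apply_of_not_mem x (by simp)) hsne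
  have hχ1 : χ = 1 := by
    rcases hom_sign χ with h1 | h1
    · exact h1
    exfalso
    obtain ⟨v, hv'⟩ := hsur (Pi.mulSingle i c')
    have h3 : v s = -s := (hχ v c hv').2 (by rw [h1, hcs])
    have h4 : v s = τ s := hdepi v τ (by rw [hv', hτi, Pi.mulSingle_eq_same])
    rw [h4, hτs] at h3
    exact hsne h3
  have hstab : ∀ w : M ≃ₐ[K] M, w (t i 0) = t i 0 → w s = s := by
    intro w hw
    have hw0 : ρ w i 0 = 0 := by
      rw [hρ] at hw
      exact ht i hw
    have hmem : ∀ x, (ρ w i) x ≠ 0 ↔ x ≠ 0 := by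
      intro x
      rw [not_iff_not]
      constructor
      · intro hx
        exact (ρ w i).injective (by rw [hx, hw0])
      · rintro rfl
        exact hw0
    obtain ⟨v, hv'⟩ := hsur (Pi.mulSingle i (Equiv.Perm.ofSubtype
      (Equiv.Perm.subtypePerm (p := fun j : Fin (2 * g i + 1) => j ≠ 0) (ρ w i) hmem)))
    have h3 : v s = s := (hχ v _ hv').1 (by rw [hχ1]; rfl)
    have h4 : w s = v s := hdepi w v (by
      rw [hv', Pi.mulSingle_eq_same, Equiv.Perm.ofSubtype_subtypePerm]
      intro x hx h5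
      rw [h5] at hx
      exact hx hw0)
    rw [h4, h3]
  have hsmem : s ∈ IntermediateField.adjoin K {t i 0} := by
    have hfix : IntermediateField.fixedField (IntermediateField.adjoin K {t i 0}).fixingSubgroup =
        IntermediateField.adjoin K {t i 0} := IsGalois.fixedField_fixingSubgroup _
    rw [← hfix]
    intro ⟨τ, hτ⟩
    show τ s = s
    apply hstab
    exact hτ ⟨t i 0, IntermediateField.mem_adjoin_simple_self K (t i 0)⟩
  rw [← IntermediateField.mem_toSubalgebra,
    IntermediateField.adjoin_simple_toSubalgebra_of_isAlgebraic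
      (Algebra.IsAlgebraic.isAlgebraic (t i 0)), Algebra.adjoin_singleton_eq_range_aeval] at hsmem
  obtain ⟨q, hq⟩ := hsmem
  apply hns q
  rw [← hs]
  congr 1
  exact hq.symm

end main

theorem grph : S_GRPH := by
  intro k K M _ _ _ _ _ _ _ _ _ _ _ m g f t h2 hg hf hd hfull ht hr
  have h2M : (2 : M) ≠ 0 := by
    have hinj : Function.Injective (algebraMap k[X] M) := by
      rw [IsScalarTower.algebraMap_eq k[X] K M]
      exact (algebraMap K M).injective.comp (IsFractionRing.injective k[X] K)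
    have e1 : algebraMap k[X] M (C 2) = 2 := by rw [C_ofNat, map_ofNat]
    rw [← e1]
    intro h0
    have := hinj (h0.trans (map_zero _).symm)
    exact h2 (by simpa using this)
  obtain ⟨ρ, hρ, hsur⟩ := exists_rhos (K := K) (fun i => 2 * g i + 1) t ht
    (fun i => (f i).map (algebraMap k[X] K)) (fun i => (hf i).map _)
    (fun i => by
      rw [(hf i).natDegree_map, hd])
    (fun i j => by
      rw [aeval_map_algebraMap, aeval_def]
      exact hr i j) hfull
  refine ⟨claim1 hg ht ρ hρ hsur, ?_⟩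
  intro i h n s hn h0 hns hs
  exact claim2 h2M hg ht ρ hρ hsur i h n s hn h0 hns hs

end Pool.Agent.H467.HJ.Grph
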