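import Pool.Agent.H467.HJ.Fld

/-!
# Preparations for the choice of the auxiliary primes

Project HJ (helper467).
-/

set_option autoImplicit false
set_option linter.all false

open Polynomial IsDedekindDomain
open Pool.Agent.N352.PJ
open Pool.Agent.N874.PP (nm Ov Ev Sq1 U0)
open scoped Classical

namespace Pool.Agent.H467.HJ

open Pool.Agent.H859.PJ Pool.Agent.H467.MR

section pol

variable {k : Type} [Field k]

theorem cg_iff {Q : k[X]} {f f' : k[X][X]} :
    Cg Q f f' ↔ f.map (Ideal.Quotient.mk (Ideal.span {Q})) =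
      f'.map (Ideal.Quotient.mk (Ideal.span {Q})) := by
  constructor
  · intro h
    ext j
    rw [coeff_map, coeff_map, Ideal.Quotient.eq, Ideal.mem_span_singleton]
    exact h j
  · intro h j
    have h1 := congrArg (fun p => p.coeff j) h
    simp only [coeff_map] at h1
    rwa [Ideal.Quotient.eq, Ideal.mem_span_singleton] at h1

/-- Translation to the root zero. -/
theorem cg_trans {Q R R₀ : k[X]} {f s : k[X][X]} (h : Cg Q f ((X - C R) * s)) (hR : Q ∣ R₀ - R) :
    Cg Q (f.comp (X + C R₀)) (X * s.comp (X + C R₀)) := by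
  rw [cg_iff] at h ⊢
  rw [Polynomial.map_comp, h, Polynomial.map_mul, Polynomial.map_mul, mul_comp, Polynomial.map_comp]
  congr 1
  have e : Ideal.Quotient.mk (Ideal.span {Q}) R = Ideal.Quotient.mk (Ideal.span {Q}) R₀ :=
    (Ideal.Quotient.eq.2 (Ideal.mem_span_singleton.2 hR)).symm
  simp [e]

theorem irm_comp {Q : k[X]} {s : k[X][X]} (h : Irm s Q) (R₀ : k[X]) :
    Irm (s.comp (X + C R₀)) Q := by
  unfold Irm at h ⊢
  rw [Polynomial.map_comp, Polynomial.map_add, map_X, map_C]
  exact irr_comp h _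

section fld

variable {Q : k[X]} (hQ : Irreducible Q)

include hQ

/-- An irreducible polynomial of degree at least two has no root modulo `Q`. -/
theorem no_root {s : k[X][X]} (hm : s.Monic) (hd : 2 ≤ s.natDegree) (h : Irm s Q) (c : k[X]) :
    ¬ Q ∣ s.eval c := by
  intro h0
  haveI : (Ideal.span {Q}).IsMaximal := PrincipalIdealRing.isMaximal_of_irreducible hQ
  letI : Field (k[X] ⧸ Ideal.span {Q}) := Ideal.Quotient.field _
  have hroot : (s.map (Ideal.Quotient.mk (Ideal.span {Q}))).IsRoot
      (Ideal.Quotient.mk (Ideal.span {Q}) c) := by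
    rw [IsRoot, eval_map, eval₂_at_apply, Ideal.Quotient.eq_zero_iff_mem, Ideal.mem_span_singleton]
    exact h0
  have hdeg := degree_eq_one_of_irreducible_of_root h hroot
  rw [hm.degree_map, degree_eq_natDegree hm.ne_zero] at hdeg
  have : s.natDegree = 1 := by exact_mod_cast hdeg
  omega

theorem not_irm {R : k[X]} {f s : k[X][X]} (hm : s.Monic) (hd : 1 ≤ s.natDegree)
    (h : Cg Q f ((X - C R) * s)) : ¬ Irm f Q := by
  intro hi
  haveI : (Ideal.span {Q}).IsMaximal := PrincipalIdealRing.isMaximal_of_irreducible hQ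
  letI : Field (k[X] ⧸ Ideal.span {Q}) := Ideal.Quotient.field _
  unfold Irm at hi
  rw [cg_iff.1 h, Polynomial.map_mul] at hi
  rcases hi.isUnit_or_isUnit rfl with h1 | h1
  · have h2 := natDegree_eq_zero_of_isUnit h1
    rw [(monic_X_sub_C R).natDegree_map, natDegree_X_sub_C] at h2
    exact one_ne_zero h2
  · have h2 := natDegree_eq_zero_of_isUnit h1
    rw [hm.natDegree_map] at h2
    omega

/-- The root is unique. -/
theorem root_uniqH {R R' : k[X]} {f s s' : k[X][X]} (hm : s.Monic) (hd : 2 ≤ s.natDegree)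
    (hs : Irm s Q) (h : Cg Q f ((X - C R) * s)) (h' : Cg Q f ((X - C R') * s')) : Q ∣ R' - R := by
  have h1 : Q ∣ ((X - C R) * s).eval R' := by
    have h2 : ((X - C R) * s).map (Ideal.Quotient.mk (Ideal.span {Q})) =
        ((X - C R') * s').map (Ideal.Quotient.mk (Ideal.span {Q})) := by
      rw [← cg_iff.1 h, ← cg_iff.1 h']
    have h3 := congrArg (fun p => p.eval (Ideal.Quotient.mk (Ideal.span {Q}) R')) h2
    simp only [eval_map, eval₂_at_apply] at h3
    rw [eval_mul (p := X - C R'), eval_sub, eval_X, eval_C, sub_self, zero_mul, map_zero,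
      Ideal.Quotient.eq_zero_iff_mem, Ideal.mem_span_singleton] at h3
    exact h3
  rw [eval_mul, eval_sub, eval_X, eval_C] at h1
  rcases hQ.prime.dvd_or_dvd h1 with h2 | h2
  · exact h2
  · exact absurd h2 (no_root hQ hm hd hs R')

end fld

/-- The Chinese remainder theorem. -/
theorem exists_crt (S : Finset k[X]) (hS : ∀ Q ∈ S, Q.Monic ∧ Irreducible Q) (R : k[X] → k[X]) :
    ∃ R₀ : k[X], ∀ Q ∈ S, Q ∣ R₀ - R Q := by
  induction S using Finset.induction_on with
  | empty => exact ⟨0, fun Q hQ => absurd hQ (Finset.notMem_empty Q)⟩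
  | insert Q S hQ ih =>
    obtain ⟨R₁, h1⟩ := ih fun P hP => hS P (Finset.mem_insert_of_mem hP)
    obtain ⟨hQm, hQi⟩ := hS Q (Finset.mem_insert_self _ _)
    have hnd : ¬ Q ∣ ∏ P ∈ S, P := by
      intro hd
      obtain ⟨P, hP, hQP⟩ := hQi.prime.exists_mem_finset_dvd hd
      have hPS := hS P (Finset.mem_insert_of_mem hP)
      have := eq_of_monic_of_associated hQm hPS.1 (hQi.associated_of_dvd hPS.2 hQP)
      exact hQ (this ▸ hP)
    obtain ⟨a, b, hab⟩ := (hQi.coprime_iff_not_dvd).2 hnd
    refine ⟨R₁ + b * (∏ P ∈ S, P) * (R Q - R₁), fun P hP => ?_⟩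
    rcases Finset.mem_insert.1 hP with rfl | hPS
    · refine ⟨a * (R₁ - R P), ?_⟩
      linear_combination (R P - R₁) * hab
    · obtain ⟨c, hc⟩ := h1 P hPS
      obtain ⟨d, hd⟩ := Finset.dvd_prod_of_mem (fun P : k[X] => P) hPS
      refine ⟨c + b * d * (R Q - R₁), ?_⟩
      have hd' : ∏ P ∈ S, P = P * d := hd
      rw [hd']
      linear_combination hc

end pol

section gen

variable {k K L : Type} [Field k] [Field K] [Algebra k[X] K] [IsFractionRing k[X] K]
  [Field L] [Algebra K L] [Algebra k[X] L] [IsScalarTower k[X] K L] {g : ℕ} {f : k[X][X]} {θ : L}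

variable (K) in
include K in
theorem algL_neH {c : k[X]} (hc : c ≠ 0) : algebraMap k[X] L c ≠ 0 := by
  rw [IsScalarTower.algebraMap_apply k[X] K L, Ne, map_eq_zero_iff _ (algebraMap K L).injective,
    map_eq_zero_iff _ (IsFractionRing.injective k[X] K)]
  exact hc

/-- An element of `L` is, up to the square of a polynomial, the value of a polynomial with
polynomial coefficients. -/
theorem exists_polH (h : IsGen g K f θ) (x : L) : ∃ (p : k[X][X]) (c : k[X]), c ≠ 0 ∧
    eval₂ (algebraMap k[X] L) θ p = x * (algebraMap k[X] L c) ^ 2 := by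
  obtain ⟨c, hc⟩ := h.gen x
  obtain ⟨s, hs⟩ := IsLocalization.exist_integer_multiples_of_finite (nonZeroDivisors k[X])
    (fun i : Fin (2 * g + 1) => c i)
  choose u hu using hs
  have hu' : ∀ i, algebraMap k[X] K (u i) = algebraMap k[X] K s * c i := by
    intro i
    rw [hu i, Algebra.smul_def]
  refine ⟨∑ i : Fin (2 * g + 1), C ((s : k[X]) * u i) * X ^ (i : ℕ), s,
    nonZeroDivisors.ne_zero s.2, ?_⟩
  have e : ∀ c : k[X], algebraMap k[X] L c = algebraMap K L (algebraMap k[X] K c) := fun c =>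
    IsScalarTower.algebraMap_apply k[X] K L c
  rw [eval₂_finset_sum, hc, Finset.sum_mul]
  refine Finset.sum_congr rfl fun i _ => ?_
  rw [eval₂_mul, eval₂_C, eval₂_pow, eval₂_X, map_mul, e (u i), hu', map_mul, ← e]
  ring

end gen

end Pool.Agent.H467.HJ
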