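import Pool.Agent.H467.HJ.Gl
import Pool.Agent.H859.SC.N622PJRec

/-!
# The reciprocity law, for a translate

After `N622/PJ/Rec.lean` (helper622) and the version of helper859.
-/

set_option autoImplicit false
set_option linter.all false

open Polynomial IsDedekindDomain Matrix WithZero
open scoped Classical

namespace Pool.Agent.H467.HJ

open Pool.Agent.N622.PJ Pool.Agent.H859.PJ
open Pool.Agent.N874.PP (Ov Ev Sq1 U0)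
open Pool.Agent.N352.PJ

attribute [local instance] algF

/-- **The reciprocity law.** -/
theorem recp (hT : S_TRN) (h0 : S_INT) (h1 : S_EXQA) (h2 : S_CSQA) (h3 : S_PRY) (h4 : S_GLB) :
    S_RECB := by
  intro g k K L O _ _ _ _ _ _ _ _ _ _ _ _ _ _ _ _ f₀ θ₀ N r R S h hg h2k hG₀ hF hS hcon 𝔮 h𝔮 α hα
    hsqn hev
  obtain ⟨hdT, -, hG, htop⟩ := hT g k K L f₀ θ₀ R hG₀
  obtain ⟨θ, hθ⟩ : ∃ θ : L, θ = θ₀ - algebraMap k[X] L R := ⟨_, rfl⟩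
  obtain ⟨f, hf⟩ : ∃ f : k[X][X], f = f₀.comp (X + C R) := ⟨_, rfl⟩
  have h𝔮' := h𝔮
  rw [← hθ] at hG h𝔮 ⊢
  rw [← hf] at hG hdT hcon
  have hsq : Squarefree (dsc g f) := by rw [hdT]; exact hF.sq
  have hinj : Function.Injective (algebraMap k[X] L) := by
    rw [IsScalarTower.algebraMap_eq k[X] K L]
    exact (algebraMap K L).injective.comp (IsFractionRing.injective k[X] K)
  -- the other primes
  have hex : ∀ Q : k[X], ∃ 𝔓₁ : HeightOneSpectrum O, Q ∈ S → (Ov Q 𝔓₁ ∧ 𝔓₁.valuation L θ < 1 ∧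
      𝔓₁.valuation L (algebraMap k[X] L Q) = exp (-1 : ℤ) ∧
      (𝔮 Q).valuation L (algebraMap k[X] L Q) = exp (-1 : ℤ) ∧
      ∀ 𝔓 : HeightOneSpectrum O, Ov Q 𝔓 → 𝔓 = 𝔮 Q ∨ 𝔓 = 𝔓₁) := by
    intro Q
    by_cases hQ : Q ∈ S
    · obtain ⟨𝔓₁, 𝔮', o1, o2, v1, v2, w1, w2, hall⟩ :=
        h1 g k K L O f θ S h hg hG hsq hS Q hQ (hcon Q hQ)
      have e1 : 𝔮 Q = 𝔮' := by
        rcases hall (𝔮 Q) (h𝔮 Q hQ).1 with h5 | h5
        · exfalso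
          have h6 := (h𝔮 Q hQ).2
          rw [h5] at h6
          exact absurd h6 v1.ne
        · exact h5
      refine ⟨𝔓₁, fun _ => ⟨o1, v1, w1, by rw [e1]; exact w2, fun 𝔓 h5 => ?_⟩⟩
      rcases hall 𝔓 h5 with h6 | h6
      · exact Or.inr h6
      · exact Or.inl (by rw [e1]; exact h6)
    · exact ⟨𝔮 Q, fun h5 => absurd h5 hQ⟩
  choose 𝔭 h𝔭 using hex
  set S₁ := S.filter fun Q => ¬ Ev (𝔮 Q) α with hS₁
  have hsub : S₁ ⊆ S := Finset.filter_subset _ _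
  have D : Dat θ S₁ 𝔮 𝔭 :=
    { inj := hinj
      mon := fun Q hQ => (hS Q (hsub hQ)).1
      irr := fun Q hQ => (hS Q (hsub hQ)).2.1
      ovq := fun Q hQ => (h𝔮 Q (hsub hQ)).1
      ovp := fun Q hQ => (h𝔭 Q (hsub hQ)).1
      tq := fun Q hQ => (h𝔮 Q (hsub hQ)).2
      tp := fun Q hQ => (h𝔭 Q (hsub hQ)).2.1
      vq := fun Q hQ => (h𝔭 Q (hsub hQ)).2.2.2.1
      vp := fun Q hQ => (h𝔭 Q (hsub hQ)).2.2.1
      two := fun Q hQ => (h𝔭 Q (hsub hQ)).2.2.2.2 }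
  have hfil : (S.filter fun Q => ¬ Ev (𝔮 Q) α ∧ ¬ Sq1 (𝔮 Q) (α * (algebraMap k[X] L Q * θ))) =
      S₁.filter fun Q => ¬ Sq1 (𝔮 Q) (α * (algebraMap k[X] L Q * θ)) := by
    rw [hS₁, Finset.filter_filter]
  rw [hfil]
  by_cases hne : S₁.Nonempty
  swap
  · rw [Finset.not_nonempty_iff_eq_empty] at hne
    rw [hne]
    simp
  have hodd : ∀ Q ∈ S₁, ¬ Ev (𝔮 Q) α := fun Q hQ => (Finset.mem_filter.1 hQ).2
  have hev' : ∀ 𝔓 : HeightOneSpectrum O, 𝔓 ∉ S₁.image 𝔮 → Ev 𝔓 α := by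
    intro 𝔓 h5
    by_contra h6
    have h7 : ¬ ∀ Q ∈ S, 𝔓 ≠ 𝔮 Q := fun h8 => h6 (hev 𝔓 h8)
    push Not at h7
    obtain ⟨Q, hQ, rfl⟩ := h7
    exact h5 (Finset.mem_image_of_mem 𝔮 (Finset.mem_filter.2 ⟨hQ, h6⟩))
  obtain ⟨x, hx1, hx2, hx3⟩ := h4 g k K L O f₀ θ₀ N r R S h hg hG₀ hF hS
    (by rw [← hf]; exact hcon) 𝔮 h𝔮' α hα hsqn S₁ hsub hne hodd hev'
  have htop' : hG.top = hG₀.top := by
    subst hθ
    subst hf
    exact htop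
  rw [← htop'] at hx2
  obtain ⟨β, hβ0, hβ⟩ := D.exists_beta hα hodd
  obtain ⟨η, hη⟩ := D.exists_eta
  obtain ⟨t, ht⟩ := theta_ex (O := O) hG
  have hvb : ∀ Q, 0 < (𝔮 Q).valuation L β := fun Q => zero_lt_iff.2 (val_ne _ hβ0)
  -- approximations
  obtain ⟨κ, hκ⟩ : ∃ κ : O, ∀ Q ∈ S₁, (𝔮 Q).valuation L
      (algebraMap O L κ - algebraMap k[X] L (∏ Q ∈ S₁, Q) * β ^ 2 / α) < 1 := by
    obtain ⟨κ, h5⟩ := crtL (S₁.image 𝔮) (algebraMap k[X] L (∏ Q ∈ S₁, Q) * β ^ 2 / α) (by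
      intro 𝔓 h6
      obtain ⟨Q, hQ, rfl⟩ := Finset.mem_image.1 h6
      apply le_of_eq
      rw [map_div₀, map_mul, map_pow, hβ Q hQ, D.valP hQ (D.ovq Q hQ),
        div_eq_one_iff_eq (val_ne _ hα), mul_left_comm, ← exp_add]
      simp)
    exact ⟨κ, fun Q hQ => h5 _ (Finset.mem_image_of_mem 𝔮 hQ)⟩
  have hζe : ∀ a, ∃ ζ : O, ∀ Q ∈ S₁, (𝔮 Q).valuation L (algebraMap O L ζ - x a / β) < 1 := by
    intro a
    obtain ⟨ζ, h5⟩ := crtL (S₁.image 𝔮) (x a / β) (by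
      intro 𝔓 h6
      obtain ⟨Q, hQ, rfl⟩ := Finset.mem_image.1 h6
      rw [map_div₀, div_le_one₀ (hvb Q)]
      apply le_of_sq_le
      rw [hβ Q hQ]
      have h7 := hx1 a (𝔮 Q)
      rwa [if_pos h6] at h7)
    exact ⟨ζ, fun Q hQ => h5 _ (Finset.mem_image_of_mem 𝔮 hQ)⟩
  choose ζ hζ using hζe
  obtain ⟨hfin, hrank⟩ := finrank_prod g S₁ 𝔮 D.mon fun Q hQ =>
    (h2 g k K L O f θ S h hg hG hsq hS Q (hsub hQ) (hcon Q (hsub hQ)) (𝔮 Q) (D.ovq Q hQ)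
      (D.tq Q hQ)).2
  have hcl := fun (Q : k[X]) (hQ : Q ∈ S₁) => class_iff D hα hβ0 hβ ht hκ hQ
    (h2 g k K L O f θ S h hg hG hsq hS Q (hsub hQ) (hcon Q (hsub hQ)) (𝔮 Q) (D.ovq Q hQ)
      (D.tq Q hQ)).1
  have key := h3 k S₁ (fun i : S₁ => FF (𝔮 i)) (sL h0 hG hsq D hη) (redA S₁ 𝔮 κ) (redA S₁ 𝔮 t)
    (g * (∏ Q ∈ S₁, Q).natDegree) (fun a => redA S₁ 𝔮 (ζ a))
    (fun a => redA S₁ 𝔮 (yO (k := k) g (∏ Q ∈ S₁, Q).natDegree t a)) h2k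
    (fun i h5 => (hcl i i.2).1 ((red_zero _ _).1 h5))
    (fun i h5 => D.t_notMem ht i.2 ((red_zero _ _).1 h5)) hrank
    (sL_nondeg h0 hG hsq D hη)
    (first_ind D hα hβ0 hβ hx1 hζ hx3)
    (second_ind h0 hG hsq D ht)
    (fun a b => first_iso h0 hG hsq D hη hα hβ0 hβ hκ (hx1 a) (hx1 b) (hζ a) (hζ b) (hx2 a b))
    (fun a b => second_iso h0 hG hsq D hη ht _ a b)
  have hcard : (Finset.univ.filter fun i : S₁ => ¬ IsSquare (redA S₁ 𝔮 κ i * redA S₁ 𝔮 t i)).card =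
      (S₁.filter fun Q => ¬ Sq1 (𝔮 Q) (α * (algebraMap k[X] L Q * θ))).card := by
    rw [← Finset.card_map (Function.Embedding.subtype fun Q => Q ∈ S₁)]
    congr 1
    ext Q
    simp only [Finset.mem_map, Finset.mem_filter, Finset.mem_univ, true_and]
    constructor
    · rintro ⟨⟨Q', hQ'⟩, h5, rfl⟩
      exact ⟨hQ', fun h6 => h5 ((hcl Q' hQ').2.2 h6)⟩
    · rintro ⟨hQ, h5⟩
      exact ⟨⟨Q, hQ⟩, fun h6 => h5 ((hcl Q hQ).2.1 h6), rfl⟩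
  rw [← hcard]
  exact key


end Pool.Agent.H467.HJ
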