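import Pool.Agent.H467.HJ.Spec
import Pool.Agent.H467.MR.Stq

/-!
# Primes of mixed type where a given element is a nonsquare

Project HJ (helper467), part Stqh (helper215).
-/

set_option autoImplicit false
set_option linter.all false

open Polynomial IsDedekindDomain
open Pool.Agent.N352.PJ (IsGen Cg dsc)
open Pool.Agent.H467.MR Pool.Agent.TH115.GD
open scoped Classical

namespace Pool.Agent.H467.HJ.Stqh

/-! ### The field of roots -/

theorem gen_facts {k K L : Type} [Field k] [Field K] [Algebra k[X] K] [Field L] [Algebra K L]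
    [Algebra k[X] L] [IsScalarTower k[X] K L] {g : ℕ} {f : k[X][X]} {θ : L}
    (h : IsGen g K f θ) :
    FiniteDimensional K L ∧ IntermediateField.adjoin K ({θ} : Set L) = ⊤ ∧
      minpoly K θ = f.map (algebraMap k[X] K) ∧ ∀ x : L, ∃ p : K[X], aeval θ p = x := by
  have hfd : FiniteDimensional K L := FiniteDimensional.of_finrank_pos (by rw [h.rank]; omega)
  have hgen : ∀ x : L, ∃ p : K[X], aeval θ p = x := by
    intro x
    obtain ⟨c, rfl⟩ := h.gen x
    refine ⟨∑ i, C (c i) * X ^ (i : ℕ), ?_⟩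
    simp [map_sum]
  have htop : IntermediateField.adjoin K ({θ} : Set L) = ⊤ := by
    rw [eq_top_iff]
    intro x _
    obtain ⟨p, rfl⟩ := hgen x
    have ht : IsAlgebraic K θ := Algebra.IsAlgebraic.isAlgebraic θ
    rw [← IntermediateField.mem_toSubalgebra,
      IntermediateField.adjoin_simple_toSubalgebra_of_isAlgebraic ht,
      Algebra.adjoin_singleton_eq_range_aeval]
    exact ⟨p, rfl⟩
  refine ⟨hfd, htop, ?_, hgen⟩
  have hdeg := (Field.primitive_element_iff_minpoly_natDegree_eq K θ).1 htop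
  rw [h.rank] at hdeg
  have hroot : aeval θ (f.map (algebraMap k[X] K)) = 0 := by
    rw [aeval_def, eval₂_map, ← IsScalarTower.algebraMap_eq]
    exact h.root
  refine (eq_of_monic_of_dvd_of_natDegree_le (minpoly.monic (Algebra.IsIntegral.isIntegral θ))
    (h.mon.map _) (minpoly.dvd K θ hroot) ?_).symm
  rw [hdeg, h.mon.natDegree_map, h.deg]

/-- The norm of a polynomial in `θ`. -/
theorem norm_poly {K L : Type} [Field K] [Field L] [Algebra K L] [FiniteDimensional K L] {F : K[X]}
    {θ : L} (hsep : F.Separable) (htop : IntermediateField.adjoin K ({θ} : Set L) = ⊤)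
    (hmin : minpoly K θ = F) {n : ℕ} (hn : F.natDegree = n) (hF0 : F ≠ 0) {T : Fin n → Sep K}
    (hT : Function.Injective T) (hr : ∀ j, aeval (T j) F = 0) (p : K[X]) :
    algebraMap K (Sep K) (Algebra.norm K (aeval θ p)) = ∏ j, aeval (T j) p := by
  haveI : Algebra.IsSeparable K L := by
    have h1 : Algebra.IsSeparable K (IntermediateField.adjoin K ({θ} : Set L)) := by
      rw [IntermediateField.isSeparable_adjoin_simple_iff_isSeparable, IsSeparable, hmin]
      exact hsep
    rw [htop] at h1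
    exact AlgEquiv.Algebra.isSeparable (IntermediateField.topEquiv (F := K) (E := L))
  have hgen : ∀ x : L, ∃ p : K[X], aeval θ p = x := by
    intro x
    have hx : x ∈ IntermediateField.adjoin K ({θ} : Set L) := by rw [htop]; trivial
    have ht' : IsAlgebraic K θ := Algebra.IsAlgebraic.isAlgebraic θ
    rw [← IntermediateField.mem_toSubalgebra,
      IntermediateField.adjoin_simple_toSubalgebra_of_isAlgebraic ht',
      Algebra.adjoin_singleton_eq_range_aeval] at hx
    exact hx
  set E := AlgebraicClosure (Sep K) with hE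
  let j : Sep K →ₐ[K] E := IsScalarTower.toAlgHom K (Sep K) E
  have jinj : Function.Injective j := (j : Sep K →+* E).injective
  apply jinj
  have e1 : j (algebraMap K (Sep K) (Algebra.norm K (aeval θ p))) =
      algebraMap K E (Algebra.norm K (aeval θ p)) := j.commutes _
  rw [e1, Algebra.norm_eq_prod_embeddings]
  have hext : ∀ σ τ : L →ₐ[K] E, σ θ = τ θ → σ = τ := by
    intro σ τ h
    apply AlgHom.ext
    intro x
    obtain ⟨q, rfl⟩ := hgen x
    rw [← aeval_algHom_apply, ← aeval_algHom_apply, h]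
  have hfin : Module.finrank K L = n := by
    rw [← (Field.primitive_element_iff_minpoly_natDegree_eq K θ).1 htop, hmin, hn]
  set Z : Finset E := (F.map (algebraMap K E)).roots.toFinset with hZ
  have hZc : Z.card ≤ n := by
    refine (Multiset.toFinset_card_le _).trans ((card_roots' _).trans ?_)
    rw [natDegree_map, hn]
  have hZm : ∀ z : E, aeval z F = 0 → z ∈ Z := by
    intro z hz
    rw [hZ, Multiset.mem_toFinset, mem_roots (map_ne_zero hF0), IsRoot, eval_map]
    exact hz
  have him1 : (Finset.univ : Finset (L →ₐ[K] E)).image (fun σ => σ θ) = Z := by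
    apply Finset.eq_of_subset_of_card_le
    · intro y hy
      rw [Finset.mem_image] at hy
      obtain ⟨σ, -, rfl⟩ := hy
      apply hZm
      rw [aeval_algHom_apply, ← hmin, minpoly.aeval, map_zero]
    · rw [Finset.card_image_of_injective _ (fun σ τ h => hext σ τ h), Finset.card_univ,
        AlgHom.card, hfin]
      exact hZc
  have him2 : (Finset.univ : Finset (Fin n)).image (fun i => j (T i)) = Z := by
    apply Finset.eq_of_subset_of_card_le
    · intro y hy
      rw [Finset.mem_image] at hy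
      obtain ⟨i, -, rfl⟩ := hy
      apply hZm
      rw [aeval_algHom_apply, hr, map_zero]
    · rw [Finset.card_image_of_injective _ (fun a b h => hT (jinj h)), Finset.card_univ,
        Fintype.card_fin]
      exact hZc
  have e2 : ∀ σ : L →ₐ[K] E, σ (aeval θ p) =
      (fun y : E => aeval y p) ((fun σ : L →ₐ[K] E => σ θ) σ) :=
    fun σ => (aeval_algHom_apply σ θ p).symm
  rw [Finset.prod_congr rfl (fun σ _ => e2 σ),
    ← Finset.prod_image (f := fun y : E => aeval y p) (g := fun σ : L →ₐ[K] E => σ θ)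
      (fun σ _ τ _ h => hext σ τ h), him1, ← him2,
    Finset.prod_image (fun a _ b _ h => hT (jinj h)), map_prod]
  exact Finset.prod_congr rfl (fun i _ => aeval_algHom_apply j (T i) p)

/-- The finite Galois extension with all the elements needed. -/
theorem exists_M {K : Type} [Field K] (h2 : (2 : K) ≠ 0) {m : ℕ} (g : Fin m → ℕ)
    (F : Fin m → K[X]) (hmon : ∀ i, (F i).Monic) (hsep : ∀ i, (F i).Separable)
    (hdeg : ∀ i, (F i).natDegree = 2 * g i + 1) (i : Fin m) {L : Type} [Field L] [Algebra K L]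
    [FiniteDimensional K L] {θ : L} (htop : IntermediateField.adjoin K ({θ} : Set L) = ⊤)
    (hmin : minpoly K θ = F i) (p : K[X]) :
    ∃ (M : Type) (_ : Field M) (_ : Algebra K M) (_ : FiniteDimensional K M) (_ : IsGalois K M)
      (t : ∀ i : Fin m, Fin (2 * g i + 1) → M) (s : M), (∀ i, Function.Injective (t i)) ∧
      (∀ i j, aeval (t i j) (F i) = 0) ∧ s ^ 2 = aeval (t i 0) p ∧
      ∏ j, aeval (t i j) p = algebraMap K M (Algebra.norm K (aeval θ p)) := by
  haveI : IsSepClosed (Sep K) := IsSepClosure.sep_closed K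
  haveI : IsGalois K (Sep K) := IsSepClosure.isGalois
  have hT : ∀ i, ∃ T : Fin (2 * g i + 1) → Sep K, Function.Injective T ∧
      ∀ j, aeval (T j) (F i) = 0 := by
    intro i
    have hc : Fintype.card ((F i).rootSet (Sep K)) = 2 * g i + 1 := by
      rw [card_rootSet_eq_natDegree (hsep i) (IsSepClosed.splits_codomain _ (hsep i)), hdeg]
    let e := (Fintype.equivFinOfCardEq hc).symm
    refine ⟨fun j => (e j : Sep K), fun a b h => e.injective (Subtype.ext h), fun j => ?_⟩
    exact aeval_eq_zero_of_mem_rootSet (e j).2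
  choose T Tinj Trt using hT
  have h2' : (2 : Sep K) ≠ 0 := by
    intro h
    apply h2
    apply (algebraMap K (Sep K)).injective
    rw [map_zero, map_ofNat]
    exact h
  haveI : NeZero ((2 : ℕ) : Sep K) := ⟨by exact_mod_cast h2'⟩
  obtain ⟨s, hs⟩ := IsSepClosed.exists_pow_nat_eq (aeval (T i 0) p : Sep K) 2
  set S : Set (Sep K) := (⋃ i, Set.range (T i)) ∪ {s} with hS
  haveI : Finite S := by
    rw [hS]
    exact Set.Finite.to_subtype ((Set.finite_iUnion fun i => Set.finite_range (T i)).union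
      (Set.finite_singleton s))
  set M := FiniteGaloisIntermediateField.adjoin K S with hM
  have hsub : ∀ x ∈ S, x ∈ M.toIntermediateField := fun x hx =>
    FiniteGaloisIntermediateField.subset_adjoin K S hx
  have m1 : ∀ i j, T i j ∈ M.toIntermediateField := fun i j =>
    hsub _ (Or.inl (Set.mem_iUnion.2 ⟨i, ⟨j, rfl⟩⟩))
  have ms : s ∈ M.toIntermediateField := hsub _ (Or.inr rfl)
  let v : M.toIntermediateField →ₐ[K] Sep K := M.toIntermediateField.val
  have vinj : Function.Injective v := (v : M.toIntermediateField →+* Sep K).injective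
  refine ⟨M.toIntermediateField, inferInstance, inferInstance, M.finiteDimensional, M.isGalois,
    fun i j => ⟨T i j, m1 i j⟩, ⟨s, ms⟩, ?_, ?_, ?_, ?_⟩
  · intro i x y h
    exact Tinj i (congrArg v h)
  · intro i j
    apply vinj
    rw [← aeval_algHom_apply, map_zero]
    exact Trt i j
  · apply vinj
    rw [map_pow, ← aeval_algHom_apply]
    exact hs
  · apply vinj
    rw [map_prod, AlgHom.commutes, norm_poly (hsep i) htop hmin (hdeg i) (hmon i).ne_zero (Tinj i)
      (Trt i) p]
    exact Finset.prod_congr rfl (fun j _ => (aeval_algHom_apply v _ p).symm)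

/-! ### Reduction -/

theorem eq_prod {M : Type} [Field M] {n : ℕ} {F : M[X]} (hm : F.Monic) (hd : F.natDegree = n)
    {t : Fin n → M} (ht : Function.Injective t) (hr : ∀ j, F.eval (t j) = 0) :
    F = ∏ j, (X - C (t j)) := by
  refine eq_of_monic_of_dvd_of_natDegree_le (monic_prod_of_monic _ _ fun j _ => monic_X_sub_C _)
    hm ?_ ?_
  · refine Finset.prod_dvd_of_coprime (fun a _ b _ hab => pairwise_coprime_X_sub_C ht hab)
      (fun j _ => dvd_iff_isRoot.2 (hr j))
  · rw [natDegree_prod_of_monic _ _ fun j _ => monic_X_sub_C _, hd]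
    simp

section frob

variable {k K M : Type} [Field k] [Field K] [Algebra k[X] K] [Field M] [Algebra K M]
  [Algebra k[X] M] [IsScalarTower k[X] K M]

theorem map_eq {g : ℕ} {f : k[X][X]} (hm : f.Monic) (hd : f.natDegree = 2 * g + 1)
    {t : Fin (2 * g + 1) → M} (ht : Function.Injective t)
    (hr : ∀ j, eval₂ (algebraMap k[X] M) (t j) f = 0)
    (x : Fin (2 * g + 1) → integralClosure k[X] M) (hx : ∀ j, (x j : M) = t j)
    {Q : Pr k} (φ : XX M Q) :
    f.map (algebraMap k[X] (Om Q)) = ∏ j, (X - C (φ (x j))) := by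
  have h1 : f.map (algebraMap k[X] M) = ∏ j, (X - C (t j)) := by
    refine eq_prod (hm.map _) ?_ ht (fun j => ?_)
    · rw [hm.natDegree_map, hd]
    · rw [eval_map]; exact hr j
  have h2 : f.map (algebraMap k[X] (integralClosure k[X] M)) = ∏ j, (X - C (x j)) := by
    apply map_injective (algebraMap (integralClosure k[X] M) M) Subtype.val_injective
    rw [Polynomial.map_map, ← IsScalarTower.algebraMap_eq, h1, Polynomial.map_prod]
    refine Finset.prod_congr rfl (fun j _ => ?_)
    rw [Polynomial.map_sub, map_X, map_C]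
    congr 2
    exact (hx j).symm
  have h3 := congrArg (Polynomial.map (φ : integralClosure k[X] M →+* Om Q)) h2
  rw [Polynomial.map_map, Polynomial.map_prod] at h3
  have h4 : (φ : integralClosure k[X] M →+* Om Q).comp
      (algebraMap k[X] (integralClosure k[X] M)) = algebraMap k[X] (Om Q) := φ.comp_algebraMap
  rw [h4] at h3
  rw [h3]
  refine Finset.prod_congr rfl (fun j _ => ?_)
  rw [Polynomial.map_sub, map_X, map_C]
  rfl

theorem inj_red {g : ℕ} {f : k[X][X]} (hm : f.Monic) (hd : f.natDegree = 2 * g + 1)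
    {Q : Pr k} (hQ : ¬ Q.1 ∣ dsc g f) {r : Fin (2 * g + 1) → Om Q}
    (h : f.map (algebraMap k[X] (Om Q)) = ∏ j, (X - C (r j))) : Function.Injective r := by
  rw [← separable_prod_X_sub_C_iff, ← h]
  obtain ⟨p, q, -, -, e⟩ := exists_mul_add_mul_eq_C_resultant (m := 2 * g + 1) (n := 2 * g) f
    (derivative f) hd.le ((natDegree_derivative_le f).trans (by omega)) (Or.inl (by omega))
  have e' := congrArg (Polynomial.map (algebraMap k[X] (Om Q))) e
  rw [Polynomial.map_add, Polynomial.map_mul, Polynomial.map_mul, map_C,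
    ← derivative_map] at e'
  have hne : algebraMap k[X] (Om Q) (f.resultant (derivative f) (2 * g + 1) (2 * g)) ≠ 0 :=
    fun h' => hQ (Cheb.dvd_of_eq_zero Q _ h')
  refine ⟨C (algebraMap k[X] (Om Q) (f.resultant (derivative f) (2 * g + 1) (2 * g)))⁻¹ *
    p.map (algebraMap k[X] (Om Q)), C (algebraMap k[X] (Om Q)
    (f.resultant (derivative f) (2 * g + 1) (2 * g)))⁻¹ * q.map (algebraMap k[X] (Om Q)), ?_⟩
  have : C (algebraMap k[X] (Om Q) (f.resultant (derivative f) (2 * g + 1) (2 * g)))⁻¹ *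
      C (algebraMap k[X] (Om Q) (f.resultant (derivative f) (2 * g + 1) (2 * g))) = 1 := by
    rw [← C_mul, inv_mul_cancel₀ hne, C_1]
  rw [← e'] at this
  linear_combination this

/-- Powers of Frobenius. -/
theorem fr_pow {Q : Pr k} {φ : XX M Q} {τ : M ≃ₐ[K] M} (hF : IsFr φ τ) (e : ℕ) :
    ∀ x y : integralClosure k[X] M, (y : M) = (τ ^ e) (x : M) →
      φ y = φ x ^ (Nat.card (Kp Q) ^ e) := by
  induction e with
  | zero =>
    intro x y h
    have : y = x := Subtype.ext h
    rw [this, pow_zero, pow_one]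
  | succ e ih =>
    intro x y h
    have hz : IsIntegral k[X] ((τ ^ e) (x : M)) :=
      x.2.map (((τ ^ e : M ≃ₐ[K] M) : M →ₐ[K] M).restrictScalars k[X])
    have h1 := ih x ⟨_, hz⟩ rfl
    have h2 := hF ⟨_, hz⟩ y (by rw [h, pow_succ']; rfl)
    rw [h2, h1, ← pow_mul, pow_succ]

theorem root_pow [Finite k] (Q : Pr k) (P : (Kp Q)[X]) (z : Om Q) (hz : aeval z P = 0) (e : ℕ) :
    aeval (z ^ (Nat.card (Kp Q) ^ e)) P = 0 := by
  haveI := Cheb.fin_Kp Q
  letI := Fintype.ofFinite (Kp Q)
  induction e with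
  | zero => rwa [pow_zero, pow_one]
  | succ e ih =>
    have h1 : z ^ (Nat.card (Kp Q) ^ (e + 1)) =
        FiniteField.frobeniusAlgHom (Kp Q) (Om Q) (z ^ (Nat.card (Kp Q) ^ e)) := by
      rw [pow_succ, pow_mul, Nat.card_eq_fintype_card]
      rfl
    rw [h1, aeval_algHom_apply, ih, map_zero]

/-- Irreducibility from transitivity. -/
theorem irr [Finite k] (Q : Pr k) {n : ℕ} {h : (Kp Q)[X]} (hm : h.Monic) (hd : h.natDegree = n)
    {ι : Type} (S : Finset ι) (hS : S.card = n) (hn : 0 < n) (r : ι → Om Q)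
    (hinj : Function.Injective r) (hr : ∀ j ∈ S, aeval (r j) h = 0)
    (htr : ∀ j ∈ S, ∀ j' ∈ S, ∃ e : ℕ, r j' = r j ^ (Nat.card (Kp Q) ^ e)) : Irreducible h := by
  obtain ⟨j0, hj0⟩ := Finset.card_pos.1 (hS.symm ▸ hn : 0 < S.card)
  have hint : IsIntegral (Kp Q) (r j0) := ⟨h, hm, hr j0 hj0⟩
  have hP0 := minpoly.ne_zero hint
  have hdvd : minpoly (Kp Q) (r j0) ∣ h := minpoly.dvd _ _ (hr j0 hj0)
  have hsub : S.image r ⊆ ((minpoly (Kp Q) (r j0)).map (algebraMap (Kp Q) (Om Q))).roots.toFinset := by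
    intro y hy
    obtain ⟨j, hj, rfl⟩ := Finset.mem_image.1 hy
    rw [Multiset.mem_toFinset, mem_roots (map_ne_zero hP0), IsRoot, eval_map]
    obtain ⟨e, he⟩ := htr j0 hj0 j hj
    rw [he]
    exact root_pow Q _ _ (minpoly.aeval _ _) e
  have hcard := Finset.card_le_card hsub
  rw [Finset.card_image_of_injective _ hinj, hS] at hcard
  have h1 := hcard.trans ((Multiset.toFinset_card_le _).trans (card_roots' _))
  rw [natDegree_map] at h1
  have h2 := eq_of_monic_of_dvd_of_natDegree_le (minpoly.monic hint) hm hdvd (by rw [hd]; exact h1)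
  rw [h2]
  exact minpoly.irreducible hint

end frob

theorem stqh (hC : S_CHEB) (hG : S_GRPH) : S_STQH := by
  intro k K _ _ _ _ _ m g f h2 hg hmon hdeg hdsc hsep hfull i L _ _ _ _ θ hθ h hne hsq hnsq N hN
  have hinjK : Function.Injective (algebraMap k[X] K) := IsFractionRing.injective k[X] K
  have h2K : (2 : K) ≠ 0 := by
    intro h'
    have h1 : algebraMap k[X] K (C 2) = 0 := by
      rw [show (C (2 : k) : k[X]) = 2 from map_ofNat C 2, map_ofNat]; exact h'
    rw [map_eq_zero_iff _ hinjK, C_eq_zero] at h1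
    exact h2 h1
  set p : K[X] := h.map (algebraMap k[X] K) with hp
  have hpev : ∀ (E : Type) [Field E] [Algebra K E] [Algebra k[X] E] [IsScalarTower k[X] K E] (x : E)
      (q : k[X][X]), eval₂ (algebraMap k[X] E) x q = aeval x (q.map (algebraMap k[X] K)) := by
    intro E _ _ _ _ x q
    rw [aeval_def, eval₂_map, ← IsScalarTower.algebraMap_eq]
  rw [hpev] at hne hsq hnsq
  obtain ⟨n, hn⟩ := hsq
  obtain ⟨hfd, htop, hmin, hgen⟩ := gen_facts hθ
  haveI := hfd
  obtain ⟨M, _, _, _, _, t, s, tinj, trt, hs, hprod⟩ := exists_M h2K g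
    (fun i => (f i).map (algebraMap k[X] K)) (fun i => (hmon i).map _) hsep
    (fun i => by rw [(hmon i).natDegree_map, hdeg]) i htop hmin p
  letI : Algebra k[X] M := ((algebraMap K M).comp (algebraMap k[X] K)).toAlgebra
  haveI : IsScalarTower k[X] K M := IsScalarTower.of_algebraMap_eq' rfl
  have trt' : ∀ i j, eval₂ (algebraMap k[X] M) (t i j) (f i) = 0 := by
    intro i j
    rw [hpev]
    exact trt i j
  -- the minimal polynomial
  have hminT : minpoly K (t i 0) = (f i).map (algebraMap k[X] K) := by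
    have hirr : Irreducible ((f i).map (algebraMap k[X] K)) := by
      rw [← hmin]; exact minpoly.irreducible (Algebra.IsIntegral.isIntegral θ)
    exact (minpoly.eq_of_irreducible_of_monic hirr (trt i 0) ((hmon i).map _)).symm
  have hmin' : ∀ q : K[X], aeval (t i 0) q = 0 → aeval θ q = 0 := by
    intro q hq
    have h1 := minpoly.dvd K (t i 0) hq
    rw [hminT, ← hmin] at h1
    obtain ⟨r, rfl⟩ := h1
    rw [map_mul, minpoly.aeval, zero_mul]
  have hne' : aeval (t i 0) p ≠ 0 := fun h' => hne (hmin' p h')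
  have hnsq' : ∀ q : K[X], aeval (t i 0) p ≠ aeval (t i 0) q ^ 2 := by
    intro q hq
    have h1 := hmin' (p - q ^ 2) (by rw [map_sub, map_pow, hq, sub_self])
    rw [map_sub, map_pow, sub_eq_zero] at h1
    exact hnsq ⟨aeval θ q, by rw [h1, sq]⟩
  have hprod' : ∏ j, aeval (t i j) p = algebraMap K M n ^ 2 := by
    rw [hprod, hn, map_mul, sq]
  obtain ⟨σ, hσ1, hσ0, hσ2, hσs⟩ := (hG k K M m g f t h2 hg hmon hdeg hfull tinj trt').2 i p n s
    hprod' hne' hnsq' hs
  have hs0 : s ≠ 0 := by
    rintro rfl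
    apply hne'
    rw [← hs]; simp
  have h2M : (2 : M) ≠ 0 := by
    intro h'
    apply h2K
    apply (algebraMap K M).injective
    rw [map_zero, map_ofNat]
    exact h'
  -- elements generating the same subgroup have the same fixed points and orbits
  have hfix : ∀ τ : M ≃ₐ[K] M, Subgroup.zpowers σ = Subgroup.zpowers τ →
      ∀ x : M, τ x = x ↔ σ x = x := by
    have key : ∀ τ τ' : M ≃ₐ[K] M, τ' ∈ Subgroup.zpowers τ → ∀ x : M, τ x = x → τ' x = x := by
      intro τ τ' h x hx
      have hsub : Subgroup.zpowers τ ≤ MulAction.stabilizer (M ≃ₐ[K] M) x := by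
        rw [Subgroup.zpowers_le]
        exact hx
      exact hsub h
    intro τ hτ x
    exact ⟨key τ σ (hτ ▸ Subgroup.mem_zpowers σ) x, key σ τ (hτ.symm ▸ Subgroup.mem_zpowers τ) x⟩
  have hTrv : ∀ τ : M ≃ₐ[K] M, Subgroup.zpowers σ = Subgroup.zpowers τ →
      ∀ (n : ℕ) (t : Fin n → M) (A : Fin n → Prop), Trv t A σ → Trv t A τ := by
    intro τ hτ n t A h j j' hj hj'
    obtain ⟨e, he⟩ := h j j' hj hj'
    have h1 : σ ^ e ∈ Subgroup.zpowers τ := by
      rw [← hτ]
      exact Subgroup.pow_mem _ (Subgroup.mem_zpowers σ) e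
    rw [← mem_powers_iff_mem_zpowers] at h1
    obtain ⟨e', he'⟩ := h1
    refine ⟨e', ?_⟩
    have he'' : τ ^ e' = σ ^ e := he'
    rw [he'', he]
  obtain ⟨hTor, hLog⟩ := hC k K M
  have hLog := hLog {τ | Subgroup.zpowers σ = Subgroup.zpowers τ} (fun τ τ' h1 h2 => h2.trans h1)
  have hcard : (0 : ℝ) < Nat.card {τ : M ≃ₐ[K] M | Subgroup.zpowers σ = Subgroup.zpowers τ} := by
    have : Nonempty {τ : M ≃ₐ[K] M | Subgroup.zpowers σ = Subgroup.zpowers τ} := ⟨⟨σ, rfl⟩⟩
    exact_mod_cast Nat.card_pos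
  have hinf := Stq.infinite_of_logD hcard hLog
  -- integral elements
  have hint : ∀ i j, IsIntegral k[X] (t i j) := fun i j => ⟨f i, hmon i, trt' i j⟩
  have hhcoe : ((aeval (⟨t i 0, hint i 0⟩ : integralClosure k[X] M) h : integralClosure k[X] M) : M) =
      aeval (t i 0) p := by
    rw [← hpev M (t i 0) h, ← aeval_def]
    exact (aeval_algHom_apply (integralClosure k[X] M).val ⟨t i 0, hint i 0⟩ h).symm
  have hsint : IsIntegral k[X] s := by
    apply IsIntegral.of_pow (n := 2) (by norm_num)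
    rw [hs, ← hhcoe]
    exact (aeval (⟨t i 0, hint i 0⟩ : integralClosure k[X] M) h).2
  set x : ∀ i : Fin m, Fin (2 * g i + 1) → integralClosure k[X] M :=
    fun i j => ⟨t i j, hint i j⟩ with hx
  set y : integralClosure k[X] M := ⟨s, hsint⟩ with hy
  have hy2 : y ^ 2 = aeval (x i 0) h := by
    apply Subtype.ext
    refine Eq.trans ?_ hhcoe.symm
    rw [← hs]
    rfl
  have hy0 : y ≠ 0 := fun h' => hs0 (congrArg (fun z : integralClosure k[X] M => (z : M)) h')
  obtain ⟨c, hc0, hcd⟩ : ∃ c : k[X], c ≠ 0 ∧ y ∣ algebraMap k[X] (integralClosure k[X] M) c := by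
    have h1 := Ideal.comap_ne_bot_of_integral_mem (R := k[X]) hy0
      (Ideal.mem_span_singleton_self y) (Algebra.IsIntegral.isIntegral _)
    obtain ⟨c, hc, hc0⟩ := Submodule.exists_mem_ne_zero_of_ne_bot h1
    exact ⟨c, hc0, Ideal.mem_span_singleton.mp hc⟩
  have hbad : {Q : Pr k | Q.1 ∣ N * c * ∏ j, dsc (g j) (f j)}.Finite :=
    Cheb.fin_div _ (mul_ne_zero (mul_ne_zero hN hc0) (Finset.prod_ne_zero_iff.2 fun j _ => hdsc j))
  obtain ⟨Q, hQ, hQb⟩ := (hinf.diff hbad).nonempty
  have hQ' : Nat.card {φ : XX M Q // ∃ τ ∈ {τ : M ≃ₐ[K] M | Subgroup.zpowers σ = Subgroup.zpowers τ},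
      IsFr φ τ} ≠ 0 := by
    intro h'
    apply hQ
    show ((Nat.card {φ : XX M Q // ∃ τ ∈ {τ : M ≃ₐ[K] M | Subgroup.zpowers σ = Subgroup.zpowers τ},
      IsFr φ τ} : ℕ) : ℝ) = 0
    rw [h', Nat.cast_zero]
  obtain ⟨⟨φ, τ, hτ, hF⟩⟩ := (Nat.card_ne_zero.1 hQ').1
  have hτ' : Subgroup.zpowers σ = Subgroup.zpowers τ := hτ
  have hf := hfix τ hτ'
  have hQN : ¬ Q.1 ∣ N := fun h' => hQb ((h'.mul_right c).mul_right _)
  have hQc : ¬ Q.1 ∣ c := fun h' => hQb ((h'.mul_left N).mul_right _)
  have hQd : ∀ j, ¬ Q.1 ∣ dsc (g j) (f j) := fun j h' =>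
    hQb ((h'.trans (Finset.dvd_prod_of_mem (fun j => dsc (g j) (f j)) (Finset.mem_univ j))).mul_left _)
  have hφy : φ y ≠ 0 := by
    intro h'
    obtain ⟨w, hw⟩ := hcd
    have h1 := congrArg φ hw
    rw [AlgHom.commutes, map_mul, h', zero_mul] at h1
    exact hQc (Cheb.dvd_of_eq_zero Q _ h1)
  have h2O : (2 : Om Q) ≠ 0 := by
    intro h'
    have h1 : algebraMap k[X] (Om Q) (C 2) = 0 := by
      rw [show (C (2 : k) : k[X]) = 2 from map_ofNat C 2, map_ofNat]; exact h'
    have h3 := Cheb.dvd_of_eq_zero Q _ h1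
    exact Q.2.2.not_isUnit (isUnit_of_dvd_unit h3 (isUnit_C.2 (isUnit_iff_ne_zero.2 h2)))
  have hτs : τ s = -s := by
    have h1 : τ s = s ∨ τ s = -s := Grp.pm hs τ (by
      have h5 := aeval_algHom_apply (τ : M →ₐ[K] M) (t i 0) p
      simp only [AlgEquiv.coe_algHom] at h5
      rw [← h5, (hf _).2 hσ0])
    refine h1.resolve_left fun h' => ?_
    have h2 := (hf s).1 h'
    rw [hσs] at h2
    apply hs0
    have : (2 : M) * s = 0 := by linear_combination -h2
    exact (mul_eq_zero.1 this).resolve_left h2M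
  have hτ0 : τ (t i 0) = t i 0 := (hf _).2 hσ0
  obtain ⟨R, hR⟩ := Stq.res_of_fixed (x := x i 0) hF hτ0
  have hmapf : ∀ i', (f i').map (algebraMap k[X] (Om Q)) = ∏ j, (X - C (φ (x i' j))) :=
    fun i' => map_eq (hmon i') (hdeg i') (tinj i') (trt' i') (x i') (fun _ => rfl) φ
  have hdist : ∀ i', Function.Injective fun j => φ (x i' j) := fun i' =>
    inj_red (hmon i') (hdeg i') (hQd i') (hmapf i')
  have hzero : ∀ c : k[X], Q.1 ∣ c → algebraMap k[X] (Om Q) c = 0 := by
    rintro c ⟨w, hw⟩
    have h0 : algebraMap k[X] (Om Q) Q.1 = 0 := by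
      rw [IsScalarTower.algebraMap_apply k[X] (Kp Q) (Om Q)]
      have : algebraMap k[X] (Kp Q) Q.1 = 0 :=
        Ideal.Quotient.eq_zero_iff_mem.2 (Ideal.mem_span_singleton_self Q.1)
      rw [this, map_zero]
    rw [hw, map_mul, h0, zero_mul]
  -- the reduction of a polynomial
  have hmm : ∀ q : k[X][X], (q.map (algebraMap k[X] (Kp Q))).map (algebraMap (Kp Q) (Om Q)) =
      q.map (algebraMap k[X] (Om Q)) := by
    intro q
    rw [Polynomial.map_map, ← IsScalarTower.algebraMap_eq]
  have hae : ∀ (q : k[X][X]) (z : Om Q), aeval z (q.map (algebraMap k[X] (Kp Q))) =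
      (q.map (algebraMap k[X] (Om Q))).eval z := by
    intro q z
    rw [← hmm q, eval_map]
    rfl
  have htrans : ∀ (i' : Fin m) (A : Fin (2 * g i' + 1) → Prop), Trv (t i') A τ →
      ∀ j j', A j → A j' → ∃ e : ℕ, φ (x i' j') = φ (x i' j) ^ (Nat.card (Kp Q) ^ e) := by
    intro i' A hA j j' hj hj'
    obtain ⟨e, he⟩ := hA j j' hj hj'
    exact ⟨e, fr_pow hF e (x i' j) (x i' j') he.symm⟩
  have hroot0 : (f i).eval R ∈ Ideal.span {Q.1} := by
    rw [Ideal.mem_span_singleton]
    apply Cheb.dvd_of_eq_zero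
    have h1 := congrArg (Polynomial.eval (φ (x i 0))) (hmapf i)
    rw [eval_prod, Finset.prod_eq_zero (Finset.mem_univ (0 : Fin (2 * g i + 1))) (by simp),
      hR, eval_map, ← aeval_def, aeval_algebraMap_apply, coe_aeval_eq_eval] at h1
    exact h1
  set S : k[X][X] := (f i) /ₘ (X - C R) with hS
  have hdiv : (f i) = C ((f i).eval R) + (X - C R) * S := by
    have := modByMonic_add_div (f i) (X - C R)
    rw [modByMonic_X_sub_C_eq_C_eval] at this
    exact this.symm
  have hXdeg : (X - C R : k[X][X]).natDegree = 1 := natDegree_X_sub_C R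
  have hSmon : S.Monic := by
    have h1 := leadingCoeff_divByMonic_of_monic (p := f i) (monic_X_sub_C R) (by
      rw [degree_X_sub_C, degree_eq_natDegree (hmon i).ne_zero, hdeg]
      have := hg i
      exact_mod_cast (by omega : 1 ≤ 2 * g i + 1))
    rw [Monic, hS, h1]
    exact hmon i
  have hSdeg : S.natDegree = 2 * g i := by
    rw [hS, natDegree_divByMonic _ (monic_X_sub_C R), hdeg, hXdeg]
    rfl
  refine ⟨Q, R, S, hQN, hSmon, hSdeg, ?_, ?_, ?_, ?_⟩
  · -- S is irreducible modulo Q
    show Irreducible (S.map (algebraMap k[X] (Kp Q)))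
    have hSroot : ∀ j : Fin (2 * g i + 1), j ≠ 0 →
        aeval (φ (x i j)) (S.map (algebraMap k[X] (Kp Q))) = 0 := by
      intro j hj
      rw [hae]
      have h1 := congrArg (Polynomial.eval (φ (x i j))) (hmapf i)
      rw [eval_prod, Finset.prod_eq_zero (Finset.mem_univ j) (by simp)] at h1
      rw [hdiv, Polynomial.map_add, Polynomial.map_mul, Polynomial.map_sub, map_X, map_C, map_C,
        hzero _ (Ideal.mem_span_singleton.1 hroot0), C_0, zero_add, eval_mul, eval_sub, eval_X,
        eval_C, ← hR] at h1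
      refine (mul_eq_zero.1 h1).resolve_left (sub_ne_zero.2 fun h' => hj (hdist i h'))
    refine irr Q (hSmon.map _) (by rw [hSmon.natDegree_map, hSdeg])
      (Finset.univ.erase (0 : Fin (2 * g i + 1))) ?_ ?_ (fun j => φ (x i j)) (hdist i) ?_ ?_
    · rw [Finset.card_erase_of_mem (Finset.mem_univ _), Finset.card_univ, Fintype.card_fin]
      rfl
    · have := hg i
      omega
    · intro j hj
      exact hSroot j (Finset.ne_of_mem_erase hj)
    · intro j hj j' hj'
      exact htrans i (fun j => j ≠ 0) (hTrv τ hτ' _ _ _ hσ2) j j' (Finset.ne_of_mem_erase hj)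
        (Finset.ne_of_mem_erase hj')
  · -- congruence
    intro j
    have h1 : f i - (X - C R) * S = C ((f i).eval R) := by
      nth_rewrite 1 [hdiv]
      ring
    rw [← coeff_sub, h1, coeff_C]
    split_ifs
    · exact Ideal.mem_span_singleton.1 hroot0
    · exact dvd_zero _
  · -- the others
    intro i' hi'
    show Irreducible ((f i').map (algebraMap k[X] (Kp Q)))
    refine irr Q ((hmon i').map _) (by rw [(hmon i').natDegree_map, hdeg]) Finset.univ
      (by rw [Finset.card_univ, Fintype.card_fin]) (by omega) (fun j => φ (x i' j)) (hdist i') ?_ ?_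
    · intro j _
      rw [hae, hmapf i', eval_prod, Finset.prod_eq_zero (Finset.mem_univ j) (by simp)]
    · intro j _ j' _
      exact htrans i' (fun _ => True) (hTrv τ hτ' _ _ _ (hσ1 i' hi')) j j' trivial trivial
  · rintro z hz
    have e1 : algebraMap k[X] (Om Q) (z ^ 2 - h.eval R) = 0 := hzero _ hz
    have e2 : φ y ^ 2 = algebraMap k[X] (Om Q) (h.eval R) := by
      rw [← map_pow, hy2, ← aeval_algHom_apply, hR, aeval_algebraMap_apply, coe_aeval_eq_eval]
    rw [map_sub, map_pow, ← e2] at e1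
    have e3 : (φ y - algebraMap k[X] (Om Q) z) * (φ y + algebraMap k[X] (Om Q) z) = 0 := by
      linear_combination -e1
    have hex : ∃ c : k[X], φ y = algebraMap k[X] (Om Q) c := by
      rcases mul_eq_zero.1 e3 with e | e
      · exact ⟨z, by linear_combination e⟩
      · exact ⟨-z, by rw [map_neg]; linear_combination e⟩
    have e4 : φ (-y) = φ y := Stq.fixed_of_res hF (by
      show -s = τ s
      rw [hτs]) hex
    rw [map_neg] at e4
    apply hφy
    have : (2 : Om Q) * φ y = 0 := by linear_combination -e4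
    exact (mul_eq_zero.1 this).resolve_left h2O

end Pool.Agent.H467.HJ.Stqh
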