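import Pool.Agent.H467.HJ.Spec
import Pool.Agent.H859.SC.N415PJWT
import Pool.Agent.H859.SC.N134PJIrk

/-!
# The weight at the place at infinity for arbitrary height

After `N415/PJ/WT.lean` (helper415), `N134/PJ/Irk.lean` and the versions of helper859.
-/

set_option autoImplicit false
set_option linter.all false

open Polynomial Matrix
open scoped Classical

namespace Pool.Agent.H467.HJ.Wt

open Pool.Agent.H859.PJ Pool.Agent.H859.N415.PJWT
open Pool.Agent.N352.PJ
open Pool.Agent.N530.PP (Lc)

/-- the leading coefficients of the coefficients of `f` -/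
theorem lead_f {k : Type} [Field k] {g : ℕ} {f : k[X][X]} {N : ℕ} {r : k[X]} (hf : Crv g N r f)
    (j : Fin (2 * g + 1)) :
    Lc (f.coeff j) 0 (N * (2 * g + 1 - j)) (r.coeff j) := by
  have hj : (j : ℕ) ≤ 2 * g := Nat.lt_succ_iff.1 j.2
  refine ⟨Or.inr ?_, ?_⟩
  · have := hf.ht j hj
    omega
  · rw [if_pos (Nat.zero_le _), Nat.sub_zero]
    exact hf.inf j hj

/-- PJ-WT -/
theorem wt : S_WTB := by
  intro g k L _ _ _ K _ _ _ _ _ f θ N r h hf x y u v w hx hy hu hv hw
  have hu0 : u ≠ 0 := by
    rintro rfl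
    apply hx
    have h1 : x = _ := hu
    rw [h1]
    simp
  have hv0 : v ≠ 0 := by
    rintro rfl
    apply hy
    have h1 : y = _ := hv
    rw [h1]
    simp
  have hwe : w = v ᵥ* MM (fun j : Fin (2 * g + 1) => f.coeff j) u :=
    crd_unique h hw (crd_mul h hu hv)
  set d : Fin (2 * g + 1) → ℕ := fun i => N * (i : ℕ) with hd
  have hUc := fun j => lc_of_wt (d := d) (v := u) le_rfl j
  have hVc := fun j => lc_of_wt (d := d) (v := v) le_rfl j
  have hU0 := lc_ne (d := d) hu0
  have hV0 := lc_ne (d := d) hv0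
  have hE := rows (N := N) (lead_f hf) hUc
  refine wt_eq (c := ld d v (wtn d v) ᵥ*
    MM (fun j : Fin (2 * g + 1) => r.coeff j) (ld d u (wtn d u))) ?_ ?_
  · intro j
    rw [hwe]
    show Lc (∑ i, v i * rw' (fun j : Fin (2 * g + 1) => f.coeff j) u (i : ℕ) j) (d j)
      (wtn d u + wtn d v) (∑ i, ld d v (wtn d v) i *
        rw' (fun j : Fin (2 * g + 1) => r.coeff j) (ld d u (wtn d u)) (i : ℕ) j)
    refine lc_sum _ _ _ _ _ fun i _ => ?_
    refine ((hVc i).mul (hE (i : ℕ) j)).cast ?_
    show d i + N * (j : ℕ) + (wtn d u + wtn d v) =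
      d j + (wtn d v + (wtn d u + N * (i : ℕ)))
    have h1 : d i = N * (i : ℕ) := rfl
    have h2 : d j = N * (j : ℕ) := rfl
    rw [h1, h2]
    ring
  · intro h1
    rcases no_zero hf.rirr hf.rmon hf.rdeg h1 with h2 | h2
    · exact hU0 h2
    · exact hV0 h2

/-- the degree of the norm -/
theorem nw : S_NWB := by
  intro g k L _ _ _ K _ _ _ _ _ f θ N r h hf x u n hx hu hn
  have hu0 : u ≠ 0 := by
    rintro rfl
    apply hx
    have h1 : x = _ := hu
    rw [h1]
    simp
  -- the norm
  have hdet : n = (MM (fun j : Fin (2 * g + 1) => f.coeff j) u).det := by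
    apply IsFractionRing.injective k[X] K
    rw [hn, Algebra.norm_eq_matrix_det h.basis]
    have h1 : Algebra.leftMulMatrix h.basis x =
        ((MM (fun j : Fin (2 * g + 1) => f.coeff j) u).map (algebraMap k[X] K))ᵀ := by
      ext i j
      rw [Algebra.leftMulMatrix_eq_repr_mul]
      have hv : Crd g θ (fun i => if i = j then 1 else 0 : Fin (2 * g + 1) → k[X])
          (h.basis j) := by
        unfold Crd
        refine Eq.trans ?_
          (crd_sum h (fun i => if i = j then 1 else 0 : Fin (2 * g + 1) → k[X])).symm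
        rw [Finset.sum_eq_single j]
        · simp
        · intro i _ hij
          simp [hij]
        · intro h1
          exact absurd (Finset.mem_univ j) h1
      have h2 : x * h.basis j = _ := crd_mul h hu hv
      rw [crd_sum h] at h2
      rw [h2, h.basis.repr_sum_self]
      rw [Matrix.transpose_apply, Matrix.map_apply]
      congr 1
      rw [Matrix.vecMul, dotProduct, Finset.sum_eq_single j]
      · simp
      · intro l _ hl
        simp [hl]
      · intro h1
        exact absurd (Finset.mem_univ j) h1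
    rw [h1, Matrix.det_transpose]
    exact ((algebraMap k[X] K).map_det _).symm
  set d : Fin (2 * g + 1) → ℕ := fun i => N * (i : ℕ) with hd
  have hUc := fun j => lc_of_wt (d := d) (v := u) le_rfl j
  have hU0 := lc_ne (d := d) hu0
  have hE := rows (N := N) (lead_f hf) hUc
  obtain ⟨m, hm⟩ : ∃ m, m = wtn d u := ⟨_, rfl⟩
  rw [← hm] at hE hU0 ⊢
  have hL : Lc (MM (fun j : Fin (2 * g + 1) => f.coeff j) u).det 0 ((2 * g + 1) * m)
      (MM (fun j : Fin (2 * g + 1) => r.coeff j) (ld d u m)).det := by
    rw [Matrix.det_apply', Matrix.det_apply']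
    refine lc_sum _ _ _ _ _ fun σ _ => ?_
    have h1 := (lc_int (k := k) (Equiv.Perm.sign σ : ℤ)).mul
      (lc_prod Finset.univ (fun i => MM (fun j : Fin (2 * g + 1) => f.coeff j) u (σ i) i)
      (fun i => MM (fun j : Fin (2 * g + 1) => r.coeff j) (ld d u m) (σ i) i)
      (fun i => N * (i : ℕ)) (fun i => m + N * (σ i : ℕ))
      (fun i _ => hE (σ i : ℕ) i))
    refine h1.cast ?_
    have h2 : ∑ i : Fin (2 * g + 1), (m + N * (σ i : ℕ)) =
        (2 * g + 1) * m + ∑ i : Fin (2 * g + 1), N * (i : ℕ) := by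
      rw [Finset.sum_add_distrib, Finset.sum_const, Finset.card_univ, Fintype.card_fin,
        smul_eq_mul, Equiv.sum_comp σ (fun i : Fin (2 * g + 1) => N * (i : ℕ))]
    rw [h2]
    ring
  rw [hdet]
  have h1 := det_ne hf.rirr hf.rmon hf.rdeg hU0
  obtain ⟨h2, h3⟩ := hL
  rw [if_pos (Nat.zero_le _), Nat.sub_zero] at h3
  apply le_antisymm
  · rcases h2 with h2 | h2
    · rw [h2, natDegree_zero]
      exact Nat.zero_le _
    · omega
  · apply le_natDegree_of_ne_zero
    rw [h3]
    exact h1


/-- PJ/IRK -/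
theorem irk : S_IRKB := by
  intro g k K _ _ _ _ f N r D hf hD
  have hinj : Function.Injective (algebraMap k[X] K) := IsFractionRing.injective _ _
  have h1 : Irreducible f := by
    refine Pool.Agent.H859.N134.PJ.irr N (n := 2 * g + 1) hf.mon hf.deg (fun j hj => hf.ht j (by omega)) hf.rmon
      hf.rdeg hf.rirr (fun j hj => hf.inf j (by omega))
  have h2 : Irreducible (f.map (algebraMap k[X] K)) :=
    (hf.mon.irreducible_iff_irreducible_map_fraction_map (K := K)).1 h1
  have hD' : algebraMap k[X] K D ≠ 0 := (map_ne_zero_iff _ hinj).2 hD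
  have hsc : (f.scaleRoots D).map (algebraMap k[X] K) =
      (f.map (algebraMap k[X] K)).scaleRoots (algebraMap k[X] K D) := by
    apply map_scaleRoots
    have : f.leadingCoeff = 1 := hf.mon
    rw [this, map_one]
    exact one_ne_zero
  have h3 : Irreducible ((f.scaleRoots D).map (algebraMap k[X] K)) := by
    rw [hsc]
    exact Pool.Agent.H859.N134.PJ.irr_scale h2 hD'
  have hdsc := hf.sq.ne_zero
  refine ⟨h2, h3, ?_⟩
  have hder : derivative (f.map (algebraMap k[X] K)) ≠ 0 := by
    rw [derivative_map]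
    intro h
    apply hdsc
    have h4 : derivative f = 0 := by
      rwa [Polynomial.map_eq_zero_iff hinj] at h
    unfold dsc
    rw [h4, resultant_zero_right, zero_pow (by omega), zero_mul]
  refine ⟨?_, ?_⟩
  · rw [separable_iff_derivative_ne_zero h2]
    exact hder
  · rw [separable_iff_derivative_ne_zero h3, hsc]
    exact Pool.Agent.H859.N134.PJ.der_scale hder hD'


end Pool.Agent.H467.HJ.Wt
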