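import Pool.Agent.H467.HJ.Chs
import Pool.Agent.H467.HJ.Rec
import Pool.Agent.H467.HJ.Wt
import Pool.Agent.H467.HJ.Grph
import Pool.Agent.H467.HJ.Genh
import Pool.Agent.H467.HJ.Stqh
import Pool.Agent.H467.MR.Zeta
import Pool.Agent.H467.MR.Cheb
import Pool.Agent.H467.MR.Cnt
import Pool.Agent.H467.MR.Asm
import Pool.Agent.H467.UM.Cnt
import Pool.Agent.H859.SC.N874JMPar

/-!
# Simultaneous quadratic twists of hyperelliptic Jacobians

Project HJ (helper467).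
-/

set_option autoImplicit false
set_option linter.all false

open Polynomial IsDedekindDomain
open Pool.Agent.N352.PJ
open scoped Classical

namespace Pool.Agent.H467.HJ

open Pool.Agent.H859.PJ Pool.Agent.H467.MR Pool.Agent.H859.N874.TW

theorem pr_dvdH {k : Type} [Field k] {U : Finset (Pr k)} {P : k[X]} (hPm : P.Monic)
    (hP : Irreducible P) : P ∣ ∏ Q ∈ U, Q.1 ↔ ∃ Q ∈ U, P = Q.1 := by
  constructor
  · intro h
    obtain ⟨Q, hQ, hd⟩ := (hP.prime.dvd_finset_prod_iff _).1 h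
    exact ⟨Q, hQ, eq_of_monic_of_associated hPm Q.2.1 (hP.associated_of_dvd Q.2.2 hd)⟩
  · rintro ⟨Q, hQ, rfl⟩
    exact Finset.dvd_prod_of_mem _ hQ

/-- The monic irreducible elements of a finite set. -/
noncomputable def toPrH {k : Type} [Field k] (F : Finset k[X]) : Finset (Pr k) :=
  Finset.subtype (fun Q : k[X] => Q.Monic ∧ Irreducible Q) F

theorem mem_toPrH {k : Type} [Field k] {F : Finset k[X]} {Q : Pr k} : Q ∈ toPrH F ↔ Q.1 ∈ F :=
  Finset.mem_subtype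

theorem pr_sqfH {k : Type} [Field k] (U : Finset (Pr k)) : Squarefree (∏ Q ∈ U, Q.1) := by
  refine Finset.squarefree_prod_of_pairwise_isCoprime ?_ fun Q _ => Q.2.2.squarefree
  intro Q _ Q' _ hne
  show IsRelPrime Q.1 Q'.1
  refine IsCoprime.isRelPrime ?_
  rw [Q.2.2.coprime_iff_not_dvd]
  intro hd
  exact hne (Subtype.ext (eq_of_monic_of_associated Q.2.1 Q'.2.1 (Q.2.2.associated_of_dvd Q'.2.2 hd)))

theorem uni_mono {k : Type} [Field k] {K : Type} [Field K] [Algebra k[X] K] [IsFractionRing k[X] K]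
    {S T : Finset k[X]} {f F : k[X][X]} (hST : S ⊆ T) (h : Uni K S f F) : Uni K T f F := by
  intro M _ _ _ _ _ _ R _ _ _ _ _ _ _ n hn hQ hP
  exact h M R n hn (fun Q hQS => hQ Q (hST hQS)) hP

theorem prodsplit {k : Type} [Field k] (A B : Finset (Pr k)) (h : B ⊆ A) :
    ∏ Q ∈ A, Q.1 = (∏ Q ∈ B, Q.1) * ∏ Q ∈ A \ B, Q.1 := by
  rw [mul_comm, Finset.prod_sdiff h]

/-- The twists `D` for which all the Selmer groups are zero over all the extensions. -/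
theorem simH (hTRN : S_TRN) (hSELT : S_SELT) {k : Type} [Field k] [Finite k] (K : Type) [Field K]
    [Algebra k[X] K] [IsFractionRing k[X] K] {m : ℕ} {g M : Fin m → ℕ} {r : Fin m → k[X]}
    {f : Fin m → k[X][X]} (h2 : (2 : k) ≠ 0) (hg : ∀ i, 1 ≤ g i)
    (hF : ∀ i, Crv (g i) (M i) (r i) (f i)) (hfull : Full K g f) :
    ∃ S : Finset k[X], (∀ Q ∈ S, Q.Monic ∧ Irreducible Q) ∧
    (∃ U ⊆ S, ∀ B : k[X], B ≠ 0 → (∀ P : k[X], P.Monic → Irreducible P → P ∣ B → ∀ i, Irm (f i) P) →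
      ∀ i, Uni K S (f i) ((f i).scaleRoots ((∏ Q ∈ U, Q) * B))) ∧
    ∃ c : ℝ, 0 < c ∧ ∃ n₀ : ℕ, ∀ n : ℕ, n₀ ≤ n →
      {D : k[X] | D.Monic ∧ D.natDegree ≤ n ∧
        (Squarefree D ∧ ∀ i, Uni K S (f i) ((f i).scaleRoots D))}.Finite ∧
      c * (n : ℝ) ^ (∏ i, (1 / (2 * (g i : ℝ) + 1))) ≤
        ∑ᶠ D ∈ {D : k[X] | D.Monic ∧ D.natDegree ≤ n ∧
          (Squarefree D ∧ ∀ i, Uni K S (f i) ((f i).scaleRoots D))},
          ((Nat.card k : ℝ) ^ D.natDegree)⁻¹ := by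
  have hINT : S_INT := Pool.Agent.N769.PJ.int
  have hEXQ : S_EXQA := Pool.Agent.H859.N765.PJ.exq hINT
  have hCSQ : S_CSQA := Pool.Agent.H859.N765.PJ.csq hINT
  have hGLB : S_GLB := gl hTRN hINT (Pool.Agent.N588.PJ.lti hINT) Pool.Agent.N50.PJ.red Wt.wt Wt.nw
    Pool.Agent.N262.PJ.det (Pool.Agent.H859.N227.PJ.idx hINT hEXQ) Pool.Agent.N738.PJ.lat
  have hREC : S_RECB := recp hTRN hINT hEXQ hCSQ Pool.Agent.N434.PJ.pry hGLB
  have hIRK : S_IRKB := Wt.irk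
  have hCHEB : S_CHEB := Cheb.cheb Zeta.zeta
  have hGRP : S_GRPH := Grph.grph
  have hGEN : S_GENH := Genh.genh hCHEB hGRP
  have hSTQ : S_STQH := Stqh.stqh hCHEB hGRP
  have hone := fun i => oneH Fint.fint hSTQ hINT hEXQ Pool.Agent.H859.N874.JM.parts hTRN hREC hIRK
    hSELT K h2 hg hF hfull i
  choose S J hJS hS hgood using hone
  have hmem : ∀ Q ∈ Finset.univ.biUnion J, ∃ i, Q ∈ J i := by
    intro Q hQ
    obtain ⟨i, -, hi⟩ := Finset.mem_biUnion.1 hQ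
    exact ⟨i, hi⟩
  have hsubU : Finset.univ.biUnion J ⊆ Finset.univ.biUnion S := by
    intro Q hQ
    obtain ⟨i, hi⟩ := hmem Q hQ
    exact Finset.mem_biUnion.2 ⟨i, Finset.mem_univ i, hJS i hi⟩
  have hUpr : ∀ Q ∈ Finset.univ.biUnion J, Q.Monic ∧ Irreducible Q := by
    intro Q hQ
    obtain ⟨i, hi⟩ := hmem Q hQ
    exact ⟨(hS i Q (hJS i hi)).1, (hS i Q (hJS i hi)).2.1⟩
  have hmain : ∀ B : k[X], B ≠ 0 →
      (∀ P : k[X], P.Monic → Irreducible P → P ∣ B → ∀ i, Irm (f i) P) →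
      ∀ i, Uni K (Finset.univ.biUnion S) (f i)
        ((f i).scaleRoots ((∏ Q ∈ Finset.univ.biUnion J, Q) * B)) := by
    intro B hB0 hB i
    have hsub : J i ⊆ Finset.univ.biUnion J := Finset.subset_biUnion_of_mem J (Finset.mem_univ i)
    have e : (∏ Q ∈ Finset.univ.biUnion J, Q) * B =
        (∏ Q ∈ J i, Q) * ((∏ Q ∈ Finset.univ.biUnion J \ J i, Q) * B) := by
      rw [← Finset.prod_sdiff hsub]
      ring
    rw [e]
    refine uni_mono (Finset.subset_biUnion_of_mem S (Finset.mem_univ i)) (hgood i _ ?_ ?_)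
    · refine mul_ne_zero (Finset.prod_ne_zero_iff.2 fun Q hQ => ?_) hB0
      exact (hUpr Q (Finset.mem_sdiff.1 hQ).1).2.ne_zero
    · intro P hPm hPi hPd
      rcases hPi.prime.dvd_or_dvd hPd with h | h
      · obtain ⟨Q, hQ, hPQ⟩ := (hPi.prime.dvd_finset_prod_iff _).1 h
        obtain ⟨hQ1, hQ2⟩ := Finset.mem_sdiff.1 hQ
        obtain ⟨j, hj⟩ := hmem Q hQ1
        have hPQ' : P = Q := eq_of_monic_of_associated hPm (hUpr Q hQ1).1
          (hPi.associated_of_dvd (hUpr Q hQ1).2 hPQ)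
        rw [hPQ']
        by_cases hij : j = i
        · subst hij
          exact absurd hj hQ2
        · exact (hS j Q (hJS j hj)).2.2.2 i (Ne.symm hij)
      · exact hB P hPm hPi h i
  refine ⟨Finset.univ.biUnion S, fun Q hQ => ?_, ⟨_, hsubU, hmain⟩, ?_⟩
  · obtain ⟨i, -, hi⟩ := Finset.mem_biUnion.1 hQ
    exact ⟨(hS i Q hi).1, (hS i Q hi).2.1⟩
  -- the set `JJ`
  let JJ : Finset (Pr k) := toPrH (Finset.univ.biUnion J)
  have hJJ : ∀ Q : Pr k, Q ∈ JJ ↔ ∃ i, Q.1 ∈ J i := by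
    intro Q
    rw [mem_toPrH, Finset.mem_biUnion]
    simp
  have hJin : ∀ Q ∈ JJ, Q ∉ InH f := by
    intro Q hQ hin
    obtain ⟨i, hi⟩ := (hJJ Q).1 hQ
    exact (hS i Q.1 (hJS i hi)).2.2.1 (hin i)
  have hJJp : ∏ Q ∈ JJ, Q.1 = ∏ Q ∈ Finset.univ.biUnion J, Q := by
    refine Finset.prod_nbij (fun Q : Pr k => Q.1) (fun Q hQ => mem_toPrH.1 hQ)
      (fun Q _ Q' _ h => Subtype.ext h) (fun Q hQ => ?_) (fun Q _ => rfl)
    exact ⟨⟨Q, hUpr Q hQ⟩, mem_toPrH.2 hQ, rfl⟩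
  have hδ : (0 : ℝ) < ∏ i, (1 / (2 * (g i : ℝ) + 1)) := Finset.prod_pos fun i _ => by positivity
  have hLog := hGEN k K m g f h2 hg (fun i => (hF i).mon) (fun i => (hF i).deg)
    (fun i => (hF i).sq.ne_zero)
    (fun i => (hIRK (g i) k K (f i) (M i) (r i) 1 (hF i) one_ne_zero).2.2.1) hfull
  obtain ⟨c, hc, n₀, hcnt⟩ := Cnt.cnt k (InH f) _ hδ hLog 0 (fun _ => 0) 0
    ⟨∅, by simp, by simp⟩
  have hD₀m : (∏ Q ∈ JJ, Q.1).Monic := monic_prod_of_monic _ _ fun Q _ => Q.2.1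
  refine Asm.asm k (InH f) (∏ Q ∈ JJ, Q.1)
    (fun D => Squarefree D ∧ ∀ i, Uni K (Finset.univ.biUnion S) (f i) ((f i).scaleRoots D))
    (fun A => ∑ Q ∈ A, (0 : Fin 0 → ZMod 2) = 0) _ c n₀ hδ hc hD₀m hcnt ?_
  intro A hA hχ
  have hdisj : Disjoint JJ A := by
    rw [Finset.disjoint_left]
    intro Q hQ hQA
    exact hJin Q hQ (hA Q hQA)
  refine ⟨?_, ?_⟩
  · rw [← Finset.prod_union hdisj]
    exact pr_sqfH _
  · rw [hJJp]
    refine hmain _ (Finset.prod_ne_zero_iff.2 fun Q _ => Q.2.2.ne_zero) ?_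
    intro P hPm hPi hPd i
    obtain ⟨Q, hQ, rfl⟩ := (pr_dvdH hPm hPi).1 hPd
    exact hA Q hQ i

end Pool.Agent.H467.HJ
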