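import Pool.Agent.H467.MR.Spec
import Pool.Agent.H859.SC.N352PJIdx
import Pool.Graph.R_pool_sql_team_seeded_63374d34.N874.JM.Stm

/-!
# Simultaneous quadratic twists of hyperelliptic Jacobians over `k(t)`: statements of the parts

Project HJ (helper467). `Pr`, `LogD`, `XX`, `IsFr`, `Tor`, `S_CHEB`, `S_FINT` are in
`H467/MR/Spec.lean`, `IsGen`, `Cg`, `dsc` in `N352/PJ/Def.lean`, `N352/PJ/Lat.lean`.
-/

set_option autoImplicit false
set_option linter.all false

open Polynomial IsDedekindDomain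
open Pool.Agent.N874.PP (Ov Ev Sq1 U0)
open Pool.Agent.N352.PJ (IsGen Cg dsc)
open Pool.Agent.H467.MR
open scoped Classical

namespace Pool.Agent.H467.HJ

/-- The curve `y ^ 2 = f(x)`: height `M`, irreducible reduction `r` at infinity, squarefree
discriminant. -/
structure Crv (g M : ℕ) {k : Type} [Field k] (r : k[X]) (f : k[X][X]) : Prop where
  mon : f.Monic
  deg : f.natDegree = 2 * g + 1
  ht : ∀ j ≤ 2 * g, (f.coeff j).natDegree ≤ M * (2 * g + 1 - j)
  inf : ∀ j ≤ 2 * g, (f.coeff j).coeff (M * (2 * g + 1 - j)) = r.coeff j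
  rmon : r.Monic
  rirr : Irreducible r
  rdeg : r.natDegree = 2 * g + 1
  sq : Squarefree (dsc g f)

/-- `f` is irreducible modulo `Q`. -/
def Irm {k : Type} [Field k] (f : k[X][X]) (Q : k[X]) : Prop :=
  Irreducible (f.map (Ideal.Quotient.mk (Ideal.span {Q})))

/-- The Galois group of the product of the `f i` is the product of the full symmetric groups. -/
def Full {k : Type} [Field k] (K : Type) [Field K] [Algebra k[X] K] {m : ℕ} (g : Fin m → ℕ)
    (f : Fin m → k[X][X]) : Prop :=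
  Nat.card (∏ i, (f i).map (algebraMap k[X] K)).Gal = ∏ i, (2 * g i + 1).factorial

/-- `σ` permutes the `t j`, `j ∈ A`, transitively. -/
def Trv {K M : Type} [Field K] [Field M] [Algebra K M] {n : ℕ} (t : Fin n → M)
    (A : Fin n → Prop) (σ : M ≃ₐ[K] M) : Prop :=
  ∀ j j' : Fin n, A j → A j' → ∃ e : ℕ, (σ ^ e) (t j) = t j'

/-- The Galois group: the proportion of the elements which permute the roots of all `f i`
transitively, and elements which fix one root of `f i`, permute the others transitively, the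
roots of the other polynomials too, and change the sign of a square root. -/
def S_GRPH : Prop := ∀ (k K M : Type) [Field k] [Finite k] [Field K] [Algebra k[X] K]
  [IsFractionRing k[X] K] [Field M] [Algebra K M] [FiniteDimensional K M] [IsGalois K M]
  [Algebra k[X] M] [IsScalarTower k[X] K M] (m : ℕ) (g : Fin m → ℕ) (f : Fin m → k[X][X])
  (t : ∀ i : Fin m, Fin (2 * g i + 1) → M), (2 : k) ≠ 0 → (∀ i, 1 ≤ g i) → (∀ i, (f i).Monic) →
  (∀ i, (f i).natDegree = 2 * g i + 1) → Full K g f →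
  (∀ i, Function.Injective (t i)) → (∀ i j, eval₂ (algebraMap k[X] M) (t i j) (f i) = 0) →
  Nat.card {σ : M ≃ₐ[K] M // ∀ i, Trv (t i) (fun _ => True) σ} * ∏ i, (2 * g i + 1) =
    Nat.card (M ≃ₐ[K] M) ∧
  ∀ (i : Fin m) (h : K[X]) (n : K) (s : M), ∏ j, aeval (t i j) h = algebraMap K M n ^ 2 →
    aeval (t i 0) h ≠ 0 → (∀ p : K[X], aeval (t i 0) h ≠ aeval (t i 0) p ^ 2) →
    s ^ 2 = aeval (t i 0) h →
    ∃ σ : M ≃ₐ[K] M, (∀ i', i' ≠ i → Trv (t i') (fun _ => True) σ) ∧ σ (t i 0) = t i 0 ∧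
      Trv (t i) (fun j => j ≠ 0) σ ∧ σ s = -s

/-- The primes modulo which all the `f i` are irreducible. -/
def InH {k : Type} [Field k] {m : ℕ} (f : Fin m → k[X][X]) : Set (Pr k) :=
  {Q | ∀ i, Irm (f i) Q.1}

/-- The density of these primes. -/
def S_GENH : Prop := ∀ (k K : Type) [Field k] [Finite k] [Field K] [Algebra k[X] K]
  [IsFractionRing k[X] K] (m : ℕ) (g : Fin m → ℕ) (f : Fin m → k[X][X]), (2 : k) ≠ 0 →
  (∀ i, 1 ≤ g i) → (∀ i, (f i).Monic) → (∀ i, (f i).natDegree = 2 * g i + 1) →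
  (∀ i, dsc (g i) (f i) ≠ 0) → (∀ i, ((f i).map (algebraMap k[X] K)).Separable) → Full K g f →
  LogD (fun Q : Pr k => if Q ∈ InH f then (1 : ℝ) else 0) (∏ i, (1 / (2 * (g i : ℝ) + 1)))

/-- Primes `Q` with `f i = (x - R) s` modulo `Q`, `s` irreducible modulo `Q`, the other `f j`
irreducible modulo `Q`, such that the value at `R` of a given nonsquare of square norm is not a
square. -/
def S_STQH : Prop := ∀ (k K : Type) [Field k] [Finite k] [Field K] [Algebra k[X] K]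
  [IsFractionRing k[X] K] (m : ℕ) (g : Fin m → ℕ) (f : Fin m → k[X][X]), (2 : k) ≠ 0 →
  (∀ i, 1 ≤ g i) →
  (∀ i, (f i).Monic) → (∀ i, (f i).natDegree = 2 * g i + 1) → (∀ i, dsc (g i) (f i) ≠ 0) →
  (∀ i, ((f i).map (algebraMap k[X] K)).Separable) → Full K g f →
  ∀ (i : Fin m) (L : Type) [Field L] [Algebra K L] [Algebra k[X] L] [IsScalarTower k[X] K L]
  (θ : L), IsGen (g i) K (f i) θ → ∀ h : k[X][X],
  eval₂ (algebraMap k[X] L) θ h ≠ 0 →
  IsSquare (Algebra.norm K (eval₂ (algebraMap k[X] L) θ h)) →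
  ¬ IsSquare (eval₂ (algebraMap k[X] L) θ h) → ∀ N : k[X], N ≠ 0 →
  ∃ (Q : Pr k) (R : k[X]) (s : k[X][X]), ¬ Q.1 ∣ N ∧ s.Monic ∧ s.natDegree = 2 * g i ∧
    Irm s Q.1 ∧ Cg Q.1 (f i) ((X - C R) * s) ∧ (∀ j, j ≠ i → Irm (f j) Q.1) ∧
    ∀ z : k[X], ¬ Q.1 ∣ z ^ 2 - h.eval R

/-! ### Translations -/

/-- Translation: the generator, the discriminant, the irreducibility modulo `P`. -/
def S_TRN : Prop := ∀ (g : ℕ) (k K L : Type) [Field k] [Field K] [Algebra k[X] K]
  [IsFractionRing k[X] K] [Field L] [Algebra K L] [Algebra k[X] L] [IsScalarTower k[X] K L]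
  (f : k[X][X]) (θ : L) (R : k[X]) (hG : IsGen g K f θ),
  dsc g (f.comp (X + C R)) = dsc g f ∧ (∀ P : k[X], Irm (f.comp (X + C R)) P ↔ Irm f P) ∧
  ∃ hG' : IsGen g K (f.comp (X + C R)) (θ - algebraMap k[X] L R), hG'.top = hG.top

/-- Translation: the Selmer group. -/
def S_SELT : Prop := ∀ (M R : Type) [Field M] [CommRing R] [IsDedekindDomain R] [Algebra R M]
  [IsFractionRing R M] (F : M[X]) (c : M), F.Monic →
  Pool.Agent.N874.JM.SelF R (F.comp (X + C c)) → Pool.Agent.N874.JM.SelF R F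

/-! ### Height `M` instead of `2 N` -/

/-- The weight is multiplicative: the place at infinity is inert. -/
def S_WTB : Prop := ∀ (g : ℕ) (k L : Type) [Field k] [Field L] [Algebra k[X] L] (K : Type) [Field K]
  [Algebra K L] [Algebra k[X] K] [IsFractionRing k[X] K] [IsScalarTower k[X] K L]
  (f : k[X][X]) (θ : L) (M : ℕ) (r : k[X]), IsGen g K f θ → Crv g M r f →
  ∀ (x y : L) (u v w : Fin (2 * g + 1) → k[X]), x ≠ 0 → y ≠ 0 →
    Pool.Agent.N352.PJ.Crd g θ u x → Pool.Agent.N352.PJ.Crd g θ v y →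
    Pool.Agent.N352.PJ.Crd g θ w (x * y) →
    Pool.Agent.N352.PJ.wtn (fun i => M * (i : ℕ)) w =
      Pool.Agent.N352.PJ.wtn (fun i => M * (i : ℕ)) u +
        Pool.Agent.N352.PJ.wtn (fun i => M * (i : ℕ)) v

/-- The degree of the norm. -/
def S_NWB : Prop := ∀ (g : ℕ) (k L : Type) [Field k] [Field L] [Algebra k[X] L] (K : Type) [Field K]
  [Algebra K L] [Algebra k[X] K] [IsFractionRing k[X] K] [IsScalarTower k[X] K L]
  (f : k[X][X]) (θ : L) (M : ℕ) (r : k[X]), IsGen g K f θ → Crv g M r f →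
  ∀ (x : L) (u : Fin (2 * g + 1) → k[X]) (n : k[X]), x ≠ 0 → Pool.Agent.N352.PJ.Crd g θ u x →
    algebraMap k[X] K n = Algebra.norm K x →
    n.natDegree = (2 * g + 1) * Pool.Agent.N352.PJ.wtn (fun i => M * (i : ℕ)) u

/-- Irreducibility over `K`. -/
def S_IRKB : Prop := ∀ (g : ℕ) (k K : Type) [Field k] [Field K] [Algebra k[X] K]
  [IsFractionRing k[X] K] (f : k[X][X]) (M : ℕ) (r D : k[X]), Crv g M r f → D ≠ 0 →
  Irreducible (f.map (algebraMap k[X] K)) ∧
  Irreducible ((f.scaleRoots D).map (algebraMap k[X] K)) ∧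
  ((f.map (algebraMap k[X] K)).Separable ∧
    ((f.scaleRoots D).map (algebraMap k[X] K)).Separable)

/-! ### The reciprocity law -/

/-- The reciprocity law for the translate `f = f₀(x + R)`. -/
def S_RECB : Prop := ∀ (g : ℕ) (k K L O : Type) [Field k] [Finite k] [Field K] [Algebra k[X] K]
  [IsFractionRing k[X] K]
  [Field L] [Algebra K L] [Algebra k[X] L] [IsScalarTower k[X] K L] [CommRing O]
  [IsDedekindDomain O] [Algebra O L] [IsFractionRing O L] [Algebra k[X] O]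
  [IsScalarTower k[X] O L] [IsIntegralClosure O k[X] L] (f₀ : k[X][X]) (θ₀ : L) (M : ℕ) (r R : k[X])
  (S : Finset k[X]) (h : k[X] → k[X][X]), 1 ≤ g → (2 : k) ≠ 0 →
  IsGen g K f₀ θ₀ → Crv g M r f₀ → Pool.Agent.H859.PJ.GoodSA g S h →
  (∀ Q ∈ S, Cg Q (f₀.comp (X + C R)) (X * h Q)) →
  ∀ 𝔮 : k[X] → HeightOneSpectrum O, (∀ Q ∈ S, Ov Q (𝔮 Q) ∧
    (𝔮 Q).valuation L (θ₀ - algebraMap k[X] L R) = 1) →
  ∀ α : L, α ≠ 0 → IsSquare (Algebra.norm K α) →
    (∀ 𝔓 : HeightOneSpectrum O, (∀ Q ∈ S, 𝔓 ≠ 𝔮 Q) → Ev 𝔓 α) →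
    Even (S.filter fun Q => ¬ Ev (𝔮 Q) α ∧
      ¬ Sq1 (𝔮 Q) (α * (algebraMap k[X] L Q * (θ₀ - algebraMap k[X] L R)))).card

end Pool.Agent.H467.HJ
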