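import Pool.Agent.H467.HJ.Core
import Pool.Agent.H859.TWC.Top

/-!
# The conditions for elements which are locally in the image, over the extension

After `N874/TW/Top.lean` (helper874) and the version of helper859.
-/

set_option autoImplicit false
set_option linter.all false

open Polynomial IsDedekindDomain
open Pool.Agent.N352.PJ
open Pool.Agent.N874.JM (S_RAM LocF SelF)
open Pool.Agent.N874.PP (nm Ov Ev Sq1 U0 S_CLS S_LIN cl cl_add_aux exists_below below_unique)
open Pool.Agent.N874.PM (ov_val val_le val_eq_of ov_down ev_down sq_down ev_sq ev_mul S_SIG Gen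
  SplitMod S_UR S_SPD S_LIE poly_approx val_two ov_prod Lies)
open scoped Classical IntermediateField

namespace Pool.Agent.H467.HJ

open Pool.Agent.H859.PJ Pool.Agent.H859.N874.TW

section top

variable {k K L M Ω : Type} (O O' R : Type) [Field k] [Finite k] [Field K] [Field L] [Field M]
  [Field Ω]
  [Algebra k[X] K] [IsFractionRing k[X] K]
  [Algebra K L] [Algebra k[X] L] [IsScalarTower k[X] K L]
  [Algebra K M] [Algebra k[X] M] [IsScalarTower k[X] K M]
  [Algebra L Ω] [Algebra M Ω] [Algebra K Ω] [IsScalarTower K L Ω] [IsScalarTower K M Ω]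
  [Algebra k[X] Ω] [IsScalarTower k[X] L Ω] [IsScalarTower k[X] M Ω]
  [CommRing O] [IsDedekindDomain O] [Algebra O L] [IsFractionRing O L] [Algebra k[X] O]
  [IsScalarTower k[X] O L] [IsIntegralClosure O k[X] L]
  [CommRing O'] [IsDedekindDomain O'] [Algebra O' Ω] [IsFractionRing O' Ω] [Algebra k[X] O']
  [IsScalarTower k[X] O' Ω] [IsIntegralClosure O' k[X] Ω] [Module.Finite k[X] O']
  [CommRing R] [IsDedekindDomain R] [Algebra R M] [IsFractionRing R M] [Algebra k[X] R]
  [IsScalarTower k[X] R M] [IsIntegralClosure R k[X] M] [Module.Finite k[X] R]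
  [FiniteDimensional M Ω] [Algebra.IsSeparable M Ω] [FiniteDimensional L Ω]
  [Algebra.IsSeparable L Ω]

include O in
theorem cnd_topH (hRAM : S_RAM) (hCSQ : S_CSQA) (hLIE : S_LIE)
    (hLOC1 : Pool.Agent.N874.JM.S_LOC1) (hLOC2 : Pool.Agent.N874.JM.S_LOC2) {g : ℕ}
    {f : k[X][X]} {θ : L} {S J : Finset k[X]} {T : Set k[X]}
    {s : k[X] → k[X][X]} {B : k[X]} (hBT : ∀ P : k[X], P.Monic → Irreducible P → P ∣ B → P ∈ T)
    (hTS : ∀ P ∈ T, P ∉ S)
    (h2 : (2 : k) ≠ 0) (hg : 1 ≤ g) (hc : IsGen g K f θ) (hS : GoodSA g S s)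
    (hsq : Squarefree (dsc g f)) (hcon : ∀ Q ∈ S, Cg Q f (X * s Q)) (hθ : M⟮algebraMap L Ω θ⟯ = ⊤)
    (hQs : ∀ Q ∈ S, ∀ w : HeightOneSpectrum R, Ov Q w →
      w.valuation M (algebraMap k[X] M Q) = WithZero.exp (-1 : ℤ) ∧
      Function.Surjective ((Ideal.Quotient.mk w.asIdeal).comp (algebraMap k[X] R)))
    (hJ : J ⊆ S) {h : M[X]}
    (hloc : ∀ w : HeightOneSpectrum R, LocF (w.adicCompletion M)
      ((f.scaleRoots ((∏ Q ∈ J, Q) * B)).map (algebraMap k[X] M)) h)
    (h0 : aeval (algebraMap k[X] Ω ((∏ Q ∈ J, Q) * B) * algebraMap L Ω θ) h ≠ 0) :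
    Cnd O' J T (algebraMap L Ω θ)
      (algebraMap L Ω (eval₂ (algebraMap k[X] L) θ (derivative f)))
      (aeval (algebraMap k[X] Ω ((∏ Q ∈ J, Q) * B) * algebraMap L Ω θ) h) := by
  haveI : Algebra.IsIntegral k[X] R := IsIntegralClosure.isIntegral_algebra k[X] M
  haveI : Algebra.IsIntegral k[X] O' := IsIntegralClosure.isIntegral_algebra k[X] Ω
  have hS' : ∀ Q ∈ S, Q.Monic ∧ Irreducible Q := fun Q hQ => ⟨(hS Q hQ).1, (hS Q hQ).2.1⟩
  have hmon : (f.map (algebraMap k[X] M)).Monic := hc.mon.map _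
  have hdeg : (f.map (algebraMap k[X] M)).natDegree = 2 * g + 1 := by
    rw [hc.mon.natDegree_map, hc.deg]
  have hsc : ∀ D : k[X], (f.scaleRoots D).map (algebraMap k[X] M) =
      (f.map (algebraMap k[X] M)).scaleRoots (algebraMap k[X] M D) := by
    intro D
    apply map_scaleRoots
    rw [hc.mon.leadingCoeff, map_one]
    exact one_ne_zero
  have hroot : aeval (algebraMap L Ω θ) (f.map (algebraMap k[X] M)) = 0 := by
    have h1 := congrArg (algebraMap L Ω) hc.root
    rw [map_zero, hom_eval₂, ← IsScalarTower.algebraMap_eq k[X] L Ω] at h1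
    rw [aeval_map_algebraMap, aeval_def]
    exact h1
  have hder : aeval (algebraMap L Ω θ) (derivative (f.map (algebraMap k[X] M))) =
      algebraMap L Ω (eval₂ (algebraMap k[X] L) θ (derivative f)) := by
    rw [derivative_map, aeval_map_algebraMap, aeval_def, hom_eval₂,
      ← IsScalarTower.algebraMap_eq k[X] L Ω]
  have v2 : ∀ w : HeightOneSpectrum R, w.valuation M 2 = 1 := by
    intro w
    have e : (2 : M) = algebraMap k[X] M (C 2) := by
      rw [show (C (2 : k) : k[X]) = 2 from rfl, map_ofNat]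
    rw [e]
    refine val_eq_of _ w (Pool.Agent.N874.PM.not_ov_unit ?_ w)
    rw [isUnit_C]
    exact h2.isUnit
  have hBw : ∀ w : HeightOneSpectrum R, algebraMap k[X] R B ∈ w.asIdeal →
      ∃ P : k[X], P.Monic ∧ Irreducible P ∧ P ∣ B ∧ Ov P w := by
    intro w hw
    obtain ⟨P, hPm, hPi, hPw⟩ := exists_below (k := k) w
    refine ⟨P, hPm, hPi, ?_, hPw⟩
    by_contra hnd
    obtain ⟨a, b, hab⟩ := (hPi.coprime_iff_not_dvd).2 hnd
    apply w.isPrime.ne_top
    rw [Ideal.eq_top_iff_one, ← map_one (algebraMap k[X] R), ← hab, map_add, map_mul, map_mul]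
    exact Ideal.add_mem _ (Ideal.mul_mem_left _ _ hPw) (Ideal.mul_mem_left _ _ hw)
  refine ⟨fun 𝔓 h1 h2 h3 => ?_, fun Q hQ 𝔓 h𝔓 h3 => ?_⟩
  · obtain ⟨w, hw, hO⟩ := hLIE k M Ω R O' 𝔓
    have hD : w.valuation M (algebraMap k[X] M ((∏ Q ∈ J, Q) * B)) = 1 := by
      refine val_eq_of _ w fun h => ?_
      unfold Ov at h
      rw [map_mul] at h
      rcases w.isPrime.mem_or_mem h with h | h
      · obtain ⟨Q, hQ, h'⟩ := ov_prod h
        exact h2 Q hQ ((hO Q).1 h')
      · obtain ⟨P, hPm, hPi, hPB, hPw⟩ := hBw w h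
        exact h1 P (hBT P hPm hPi hPB) ((hO P).1 hPw)
    have hl := hloc w
    rw [hsc] at hl
    have e3 : algebraMap M Ω (algebraMap k[X] M ((∏ P ∈ J, P) * B)) =
        algebraMap k[X] Ω ((∏ P ∈ J, P) * B) :=
      (IsScalarTower.algebraMap_apply k[X] M Ω _).symm
    have h4 := hLOC1 M Ω R O' w 𝔓 hw (v2 w) (f.map (algebraMap k[X] M)) h
      (algebraMap k[X] M ((∏ P ∈ J, P) * B)) (algebraMap L Ω θ) hmon (by rw [hdeg]; exact odd_two_mul_add_one g)
      (fun i => by rw [coeff_map]; exact val_le _ w) hroot (by rw [hder]; exact h3) hD hl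
      (by rw [e3]; exact h0)
    rw [e3] at h4
    exact h4
  · have hQS := hJ hQ
    obtain ⟨w, hw, hO⟩ := hLIE k M Ω R O' 𝔓
    have hQw : Ov Q w := (hO Q).2 h𝔓
    haveI : Finite (R ⧸ w.asIdeal) := Pool.Agent.N539.PP.finite_residue (hS Q hQS).2.1 hQw
    haveI : Finite (O' ⧸ 𝔓.asIdeal) := Pool.Agent.N539.PP.finite_residue (hS Q hQS).2.1 h𝔓
    obtain ⟨h5, h6⟩ := q_top (K := K) O O' R hRAM hCSQ hLIE hg hc hsq hS hθ hQS (hcon Q hQS)
      (fun w hw => (hQs Q hQS w hw).1) 𝔓 h𝔓 h3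
    have hprod : (∏ P ∈ J, P) * B = Q * ((∏ P ∈ J.erase Q, P) * B) := by
      rw [← mul_assoc]
      congr 1
      exact (Finset.mul_prod_erase J id hQ).symm
    have hQB : ¬ Q ∣ B := fun hd => hTS Q (hBT Q (hS Q hQS).1 (hS Q hQS).2.1 hd) hQS
    have hnd : ¬ Q ∣ (∏ P ∈ J.erase Q, P) * B := by
      intro hd
      rcases (hS Q hQS).2.1.prime.dvd_or_dvd hd with hd | hd
      swap
      · exact hQB hd
      obtain ⟨P, hP, hQP⟩ := ((hS Q hQS).2.1.prime.dvd_finset_prod_iff _).1 hd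
      have hP' := Finset.mem_erase.1 hP
      have hPS := hS P (hJ hP'.2)
      exact hP'.1 (eq_of_monic_of_associated (hS Q hQS).1 hPS.1
        ((hS Q hQS).2.1.associated_of_dvd hPS.2.1 hQP)).symm
    have hD' : w.valuation M (algebraMap k[X] M ((∏ P ∈ J.erase Q, P) * B)) = 1 := by
      refine val_eq_of _ w fun h => ?_
      unfold Ov at h
      rw [map_mul] at h
      rcases w.isPrime.mem_or_mem h with h | h
      swap
      · obtain ⟨P, hPm, hPi, hPB, hPw⟩ := hBw w h
        have := below_unique hPm hPi (hS Q hQS).1 (hS Q hQS).2.1 hPw hQw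
        rw [this] at hPB
        exact hQB hPB
      obtain ⟨P, hP, hP'⟩ := ov_prod h
      have hPS := hJ (Finset.mem_of_mem_erase hP)
      exact Finset.ne_of_mem_erase hP
        (below_unique (hS P hPS).1 (hS P hPS).2.1 (hS Q hQS).1 (hS Q hQS).2.1 hP' hQw)
    have hl := hloc w
    rw [hsc, hprod, map_mul (algebraMap k[X] M) Q] at hl
    have e3 : algebraMap M Ω (algebraMap k[X] M Q *
        algebraMap k[X] M ((∏ P ∈ J.erase Q, P) * B)) =
        algebraMap k[X] Ω ((∏ P ∈ J, P) * B) := by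
      rw [hprod, ← map_mul, ← IsScalarTower.algebraMap_apply k[X] M Ω]
    have hsm : (s Q).Monic := (hS Q hQS).2.2.1
    have hsd : (s Q).natDegree = 2 * g := (hS Q hQS).2.2.2.1
    have h7 := hLOC2 M Ω R O' w 𝔓 hw (v2 w) g (f.map (algebraMap k[X] M)) h
      ((s Q).map (algebraMap k[X] R)) (algebraMap k[X] M Q)
      (algebraMap k[X] M ((∏ P ∈ J.erase Q, P) * B)) (algebraMap L Ω θ) hg hmon hdeg
      (hsm.map _) (by rw [hsm.natDegree_map, hsd])
      (irr_top (hS Q hQS).2.1 w (hQs Q hQS w hQw).2 hQw (hS Q hQS).2.2.2.2.2)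
      (fun j => by
        have e : (f.map (algebraMap k[X] M)).coeff j - algebraMap R M ((X * (s Q).map
            (algebraMap k[X] R)).coeff j) = algebraMap k[X] M (f.coeff j - (X * s Q).coeff j) := by
          have e1 : (X * (s Q).map (algebraMap k[X] R)) = (X * s Q).map (algebraMap k[X] R) := by
            rw [Polynomial.map_mul, map_X]
          rw [e1, coeff_map, coeff_map, ← IsScalarTower.algebraMap_apply k[X] R M, map_sub]
        rw [e, ← ov_val]
        obtain ⟨c, hc'⟩ := hcon Q hQS j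
        unfold Ov at hQw ⊢
        rw [hc', map_mul]
        exact Ideal.mul_mem_right _ _ hQw) hroot h3
      (by rw [← IsScalarTower.algebraMap_apply k[X] M Ω]; exact h5) hD'
      (by
        have := h6 (-1) (fun h => (hS Q hQS).2.1.not_isUnit (isUnit_of_dvd_unit h isUnit_one.neg))
        rwa [map_neg, map_one] at this)
      (by rw [← IsScalarTower.algebraMap_apply k[X] M Ω]; exact h6 _ hnd) hl
      (by rw [e3]; exact h0)
    rw [e3, ← IsScalarTower.algebraMap_apply k[X] M Ω] at h7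
    exact h7

end top

end Pool.Agent.H467.HJ
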