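import Pool.Agent.H467.HJ.Spec

/-!
# Translation `f(x) → f(x + R)`: `S_TRN` and `S_SELT`
-/

set_option autoImplicit false
set_option linter.all false

open Polynomial IsDedekindDomain
open Pool.Agent.N874.PP (Ov Ev Sq1 U0)
open Pool.Agent.N352.PJ (IsGen Cg dsc)
open Pool.Agent.H467.MR
open scoped Classical

namespace Pool.Agent.H467.HJ.Trn

theorem dsc_eq {k : Type} [Field k] {g : ℕ} {f : k[X][X]} (hf : f.Monic)
    (hd : f.natDegree = 2 * g + 1) : dsc g f = f.resultant (derivative f) := by
  have h1 : (derivative f).natDegree ≤ 2 * g := by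
    have := natDegree_derivative_le f
    omega
  have h2 : f.coeff (2 * g + 1) = 1 := by
    rw [← hd]
    exact hf
  have h3 := resultant_add_right_deg f (derivative f) (2 * g + 1) (derivative f).natDegree
    (2 * g - (derivative f).natDegree) le_rfl
  rw [Nat.add_sub_cancel' h1, h2, one_pow, one_mul] at h3
  unfold dsc
  rw [h3, hd]

theorem derivative_taylor {R : Type} [CommRing R] (f : R[X]) (r : R) :
    derivative (taylor r f) = taylor r (derivative f) := by
  rw [taylor_apply, taylor_apply, derivative_comp]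
  simp

theorem dsc_taylor {k : Type} [Field k] {g : ℕ} {f : k[X][X]} (hf : f.Monic)
    (hd : f.natDegree = 2 * g + 1) (R : k[X]) : dsc g (f.comp (X + C R)) = dsc g f := by
  rw [← taylor_apply]
  rw [dsc_eq hf hd, dsc_eq (f := taylor R f), derivative_taylor, resultant_taylor]
  · rw [Monic, leadingCoeff_taylor]
    exact hf
  · rw [natDegree_taylor, hd]

theorem irm_iff {k : Type} [Field k] (f : k[X][X]) (R P : k[X]) :
    Irm (f.comp (X + C R)) P ↔ Irm f P := by
  unfold Irm
  rw [← taylor_apply, map_taylor, ← coe_taylorEquiv]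
  exact MulEquiv.irreducible_iff (taylorEquiv (Ideal.Quotient.mk (Ideal.span {P}) R))

section gen

variable {g : ℕ} {k K L : Type} [Field k] [Field K] [Algebra k[X] K]
  [Field L] [Algebra K L] [Algebra k[X] L] [IsScalarTower k[X] K L] {f : k[X][X]} {θ : L}

theorem aeval_basis (hG : IsGen g K f θ) (p : K[X]) (hp : p.natDegree ≤ 2 * g) :
    aeval θ p = ∑ i : Fin (2 * g + 1), p.coeff (i : ℕ) • hG.basis i := by
  rw [aeval_eq_sum_range' (n := 2 * g + 1) (by omega), Finset.sum_range]
  refine Finset.sum_congr rfl fun i _ => ?_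
  rw [hG.basis_apply]

theorem top_aeval (hG : IsGen g K f θ) (p : K[X]) (hp : p.natDegree ≤ 2 * g) :
    hG.top (aeval θ p) = p.coeff (2 * g) := by
  rw [aeval_basis hG p hp, map_sum]
  unfold IsGen.top
  rw [Finset.sum_eq_single (Fin.last (2 * g))]
  · rw [map_smul, Module.Basis.coord_apply, Module.Basis.repr_self, Finsupp.single_eq_same,
      smul_eq_mul, mul_one, Fin.val_last]
  · intro i _ hi
    rw [map_smul, Module.Basis.coord_apply, Module.Basis.repr_self, Finsupp.single_eq_of_ne' hi,
      smul_zero]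
  · intro h
    exact absurd (Finset.mem_univ _) h

theorem exists_poly (hG : IsGen g K f θ) (x : L) :
    ∃ p : K[X], p.natDegree ≤ 2 * g ∧ x = aeval θ p := by
  obtain ⟨c, hc⟩ := hG.gen x
  refine ⟨∑ i : Fin (2 * g + 1), C (c i) * X ^ (i : ℕ), ?_, ?_⟩
  · refine natDegree_sum_le_of_forall_le _ _ fun i _ => ?_
    refine (natDegree_C_mul_X_pow_le _ _).trans ?_
    omega
  · rw [hc, map_sum]
    refine Finset.sum_congr rfl fun i _ => ?_
    rw [map_mul, aeval_C, map_pow, aeval_X]

theorem aeval_taylor (p : K[X]) (R : k[X]) :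
    aeval (θ - algebraMap k[X] L R) (taylor (algebraMap k[X] K R) p) = aeval θ p := by
  rw [taylor_apply, aeval_comp]
  congr 1
  rw [map_add, aeval_X, aeval_C, ← IsScalarTower.algebraMap_apply, sub_add_cancel]

theorem isGen_taylor (hG : IsGen g K f θ) (R : k[X]) :
    IsGen g K (f.comp (X + C R)) (θ - algebraMap k[X] L R) where
  mon := by
    rw [← taylor_apply, Monic, leadingCoeff_taylor]
    exact hG.mon
  deg := by
    rw [← taylor_apply, natDegree_taylor]
    exact hG.deg
  root := by
    rw [eval₂_comp, eval₂_add, eval₂_X, eval₂_C, sub_add_cancel]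
    exact hG.root
  rank := hG.rank
  gen := by
    intro x
    obtain ⟨p, hp, rfl⟩ := exists_poly hG x
    refine ⟨fun i => (taylor (algebraMap k[X] K R) p).coeff i, ?_⟩
    rw [← aeval_taylor p R, aeval_eq_sum_range' (n := 2 * g + 1)
      (by rw [natDegree_taylor]; omega), Finset.sum_range]
    refine Finset.sum_congr rfl fun i _ => ?_
    rw [Algebra.smul_def]

theorem top_eq (hG : IsGen g K f θ) (R : k[X]) : (isGen_taylor hG R).top = hG.top := by
  refine LinearMap.ext fun x => ?_
  obtain ⟨p, hp, rfl⟩ := exists_poly hG x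
  rw [top_aeval hG p hp]
  conv_lhs => rw [← aeval_taylor p R]
  rw [top_aeval (isGen_taylor hG R) _ (by rw [natDegree_taylor]; exact hp)]
  rcases hp.lt_or_eq with h | h
  · rw [coeff_eq_zero_of_natDegree_lt h, coeff_eq_zero_of_natDegree_lt]
    rwa [natDegree_taylor]
  · rw [← h, coeff_taylor_natDegree, coeff_natDegree]

end gen

theorem trn : S_TRN := by
  intro g k K L _ _ _ _ _ _ _ _ f θ R hG
  exact ⟨dsc_taylor hG.mon hG.deg R, irm_iff f R, isGen_taylor hG R, top_eq hG R⟩

/-! ### The Selmer group -/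

theorem tdvd {R : Type} [CommRing R] (r : R) {a b : R[X]} (h : a ∣ b) :
    taylor r a ∣ taylor r b := by
  obtain ⟨c, rfl⟩ := h
  exact ⟨taylor r c, taylor_mul r a c⟩

theorem tcop {R : Type} [CommRing R] (r : R) {a b : R[X]} (h : IsCoprime a b) :
    IsCoprime (taylor r a) (taylor r b) := by
  obtain ⟨u, v, h⟩ := h
  refine ⟨taylor r u, taylor r v, ?_⟩
  rw [← taylor_mul, ← taylor_mul, ← map_add, h, taylor_one, C_1]

theorem tprod {R : Type} [CommRing R] (r : R) (l : List R[X]) :
    taylor r l.prod = (l.map (taylor r)).prod := by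
  induction l with
  | nil => rw [List.prod_nil, List.map_nil, List.prod_nil, taylor_one, C_1]
  | cons a l ih => rw [List.prod_cons, List.map_cons, List.prod_cons, taylor_mul, ih]

theorem norm_taylor {M : Type} [Field M] (F : M[X]) (c : M) (h : M[X]) :
    Algebra.norm M (AdjoinRoot.mk (taylor c F) (taylor c h)) =
      Algebra.norm M (AdjoinRoot.mk F h) := by
  let e : (M[X] ⧸ Ideal.span {F}) ≃ₐ[M] (M[X] ⧸ Ideal.span {taylor c F}) :=
    Ideal.quotientEquivAlg (Ideal.span {F}) (Ideal.span {taylor c F}) (taylorEquiv c) (by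
      rw [Ideal.map_span, Set.image_singleton]
      rfl)
  have h1 := Algebra.norm_eq_of_algEquiv (R := M) e (Ideal.Quotient.mk (Ideal.span {F}) h)
  exact h1

theorem locF_taylor {M F : Type} [Field M] [Field F] [Algebra M F] (f h : M[X]) (c : M)
    (H : Pool.Agent.N874.JM.LocF F f h) :
    Pool.Agent.N874.JM.LocF F (taylor c f) (taylor c h) := by
  obtain ⟨l, s, h1, h2⟩ := H
  generalize hd : algebraMap M F c = d
  have hm : ∀ p : M[X], (taylor c p).map (algebraMap M F) = taylor d (p.map (algebraMap M F)) := by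
    intro p
    rw [map_taylor, hd]
  refine ⟨l.map fun p => (taylor d p.1, taylor d p.2), taylor d s, ?_, ?_⟩
  · intro p hp
    rw [List.mem_map] at hp
    obtain ⟨q, hq, rfl⟩ := hp
    obtain ⟨a1, a2, a3⟩ := h1 q hq
    refine ⟨?_, ?_, ?_⟩
    · show (taylor d q.1).Monic
      rw [Monic, leadingCoeff_taylor]
      exact a1
    · show IsCoprime (taylor d q.1) _
      rw [hm]
      exact tcop d a2
    · show taylor d q.1 ∣ taylor d q.2 ^ 2 - _
      rw [hm, ← taylor_pow, ← map_sub]
      exact tdvd d a3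
  · have h3 := tdvd d h2
    rw [map_sub, taylor_mul, taylor_pow, tprod, List.map_map] at h3
    rw [hm, hm, List.map_map]
    have h5 : (l.map ((fun p : F[X] × F[X] => (-1) ^ p.1.natDegree * p.1) ∘
        fun p => (taylor d p.1, taylor d p.2))) =
        l.map (taylor d ∘ fun p : F[X] × F[X] => (-1) ^ p.1.natDegree * p.1) := by
      refine List.map_congr_left fun p _ => ?_
      show (-1) ^ (taylor d p.1).natDegree * taylor d p.1 =
        taylor d ((-1) ^ p.1.natDegree * p.1)
      rw [natDegree_taylor, taylor_mul, taylor_pow, map_neg, taylor_one, C_1]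
    rw [h5]
    exact h3

theorem selt : S_SELT := by
  intro M R _ _ _ _ _ F c hF H h h1 h2 h3
  rw [← taylor_apply] at H
  obtain ⟨s, hs⟩ := H (taylor c h) (tcop c h1)
    (by rw [norm_taylor]; exact h2) (fun w => locF_taylor _ _ c (h3 w))
  refine ⟨taylor (-c) s, ?_⟩
  have h4 := tdvd (-c) hs
  rwa [map_sub, taylor_taylor, taylor_taylor, neg_add_cancel, taylor_zero, taylor_zero,
    taylor_pow] at h4

end Pool.Agent.H467.HJ.Trn
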